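import Pool.Agent.Helper46.PV.B

set_option autoImplicit false
set_option linter.unusedSectionVars false

/-!
Connectedness of the graph of basic nodes for `3 r + 1` colours, `r ≥ 2`.
-/

namespace Pool.Agent.Helper46.PV

variable {ι : Type} [DecidableEq ι] {u : ι → ℕ} {r d : ℕ}

/-- the single exchange step -/
lemma single (o b c : ι) (E D : Finset ι) (hr : 2 ≤ r)
    (hE : E.card + 1 = r) (hD : D.card + 1 = 2 * r)
    (hoE : o ∉ E) (hoD : o ∉ D) (hob : o ≠ b) (hoc : o ≠ c) (hbc : b ≠ c)
    (hbE : b ∉ E) (hbD : b ∉ D) (hcE : c ∉ E) (hcD : c ∉ D) (hED : Disjoint E D)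
    (hmax : ∀ i, u i ≤ u o) (htot : u o + u b + u c + sg u E + sg u D = 3 * d)
    (hB1 : Bn u r d (insert c E) o) (hB2 : Bn u r d (insert b E) o) :
    Cn u r d (insert c E, o) (insert b E, o) := by
  by_cases hS : ∃ S ⊆ D, S.card = r + 1 ∧ d ≤ sg u S
  · by_cases hR : ∃ R ⊆ D, R.card = r ∧ sg u R ≤ d
    · obtain ⟨R, hRD, y, hyD, hyR, hRc, hRd, hRy⟩ := slide u D r d hS hR
      have hB : Bn u r d R y := ⟨hRc, hyR, hRd, hRy⟩
      have hoR : o ∉ R := fun h => hoD (hRD h)
      have hoy : o ≠ y := fun h => hoD (h ▸ hyD)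
      have hER : Disjoint E R := Finset.disjoint_of_subset_right hRD hED
      have hyE : y ∉ E := fun h => Finset.disjoint_left.mp hED h hyD
      refine Cn.trans (q := (R, y)) ?_ (Cn.symm ?_)
      · refine adj_ne hB1 hB ?_ hoR ?_ hoy
        · rw [Finset.disjoint_insert_left]; exact ⟨fun h => hcD (hRD h), hER⟩
        · rw [Finset.mem_insert, not_or]
          exact ⟨fun h => hcD (h ▸ hyD), hyE⟩
      · refine adj_ne hB2 hB ?_ hoR ?_ hoy
        · rw [Finset.disjoint_insert_left]; exact ⟨fun h => hbD (hRD h), hER⟩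
        · rw [Finset.mem_insert, not_or]
          exact ⟨fun h => hbD (h ▸ hyD), hyE⟩
    · push Not at hR
      exact (heavy o b c E D hr hE hD hoE hoD hob hoc hbc hbE hbD hcE hcD hED hmax htot hB1 hB2
        hR).symm
  · push Not at hS
    rcases le_total (u c) (u b) with hle | hle
    · exact light o b c E D hr hE hD hoE hoD hob hoc hbc hbE hbD hcE hcD hED hmax htot hle
        hB1 hB2 hS
    · exact (light o c b E D hr hE hD hoE hoD hoc hob hbc.symm hcE hcD hbE hbD hED hmax
        (by omega) hle hB2 hB1 hS).symm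

/-- exchange connectivity -/
lemma exch (N : Finset ι) (X : ℕ) (hX : ∀ i ∈ N, u i ≤ X)
    (C : Finset ι → Finset ι → Prop) (hrefl : ∀ P, C P P)
    (htrans : ∀ P Q R, C P Q → C Q R → C P R)
    (hstep : ∀ (E : Finset ι) (b c : ι), E ⊆ N → b ∈ N → c ∈ N → b ∉ E → c ∉ E → b ≠ c →
      E.card + 1 = r → sg u (insert b E) ≤ d → d ≤ sg u (insert b E) + X →
      sg u (insert c E) ≤ d → d ≤ sg u (insert c E) + X → C (insert c E) (insert b E)) :
    ∀ k : ℕ, ∀ Q Q' : Finset ι, (Q \ Q').card = k → Q ⊆ N → Q' ⊆ N → Q.card = r → Q'.card = r →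
      sg u Q ≤ d → d ≤ sg u Q + X → sg u Q' ≤ d → d ≤ sg u Q' + X → C Q Q' := by
  intro k
  induction k with
  | zero =>
    intro Q Q' hk hQN hQ'N hQc hQ'c _ _ _ _
    have h1 : Q ⊆ Q' := by
      rw [Finset.card_eq_zero, Finset.sdiff_eq_empty_iff_subset] at hk
      exact hk
    have h2 : Q = Q' := Finset.eq_of_subset_of_card_le h1 (by omega)
    rw [h2]; exact hrefl _
  | succ k ih =>
    intro Q Q' hk hQN hQ'N hQc hQ'c hQ1 hQ2 hQ'1 hQ'2
    have hcard : (Q' \ Q).card = k + 1 := by
      have e1 := Finset.card_sdiff_add_card_inter Q Q'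
      have e2 := Finset.card_sdiff_add_card_inter Q' Q
      rw [Finset.inter_comm] at e2
      omega
    have h4 : sg u (Q \ Q') + sg u (Q ∩ Q') = sg u Q := by
      rw [← sg_union u (Finset.disjoint_sdiff_inter Q Q'), Finset.sdiff_union_inter]
    have h5 : sg u (Q' \ Q) + sg u (Q' ∩ Q) = sg u Q' := by
      rw [← sg_union u (Finset.disjoint_sdiff_inter Q' Q), Finset.sdiff_union_inter]
    rw [Finset.inter_comm Q' Q] at h5
    -- a valid exchange
    obtain ⟨a, ha, b, hb, hv1, hv2⟩ : ∃ a ∈ Q \ Q', ∃ b ∈ Q' \ Q,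
        sg u Q + u b ≤ d + u a ∧ d + u a ≤ sg u Q + u b + X := by
      by_contra hcon
      push Not at hcon
      obtain ⟨a0, ha0⟩ : (Q \ Q').Nonempty := Finset.card_pos.mp (by omega)
      obtain ⟨b0, hb0⟩ : (Q' \ Q).Nonempty := Finset.card_pos.mp (by omega)
      have hXQ : ∀ a ∈ Q \ Q', u a ≤ X := fun a ha => hX a (hQN (Finset.mem_sdiff.mp ha).1)
      have hXQ' : ∀ a ∈ Q' \ Q, u a ≤ X := fun a ha => hX a (hQ'N (Finset.mem_sdiff.mp ha).1)
      by_cases hhi : d + u a0 < sg u Q + u b0
      · -- everything is high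
        have hall : ∀ a ∈ Q \ Q', ∀ b ∈ Q' \ Q, d + u a < sg u Q + u b := by
          intro a ha b hb
          have h1 : d + u a0 < sg u Q + u b := by
            by_contra h
            have h2 := hcon a0 ha0 b hb (by omega)
            have h3 := hXQ' b0 hb0
            omega
          by_contra h
          have h2 := hcon a ha b hb (by omega)
          have h3 := hXQ a ha
          omega
        have h6 : sg u ((Q \ Q').erase a0) ≤ sg u ((Q' \ Q).erase b0) := by
          apply cmp u
          · rw [Finset.card_erase_of_mem ha0, Finset.card_erase_of_mem hb0]; omega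
          · intro a ha b hb
            have := hall a (Finset.mem_of_mem_erase ha) b (Finset.mem_of_mem_erase hb)
            omega
        have h7 := sg_erase u ha0
        have h8 := sg_erase u hb0
        omega
      · -- everything is low
        have hall : ∀ a ∈ Q \ Q', ∀ b ∈ Q' \ Q, sg u Q + u b + X < d + u a := by
          intro a ha b hb
          have h0 := hcon a0 ha0 b0 hb0 (by omega)
          have h1 : sg u Q + u b + X < d + u a0 := by
            apply hcon a0 ha0 b hb
            by_contra h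
            have h3 := hXQ' b hb
            omega
          apply hcon a ha b hb
          by_contra h
          have h3 := hXQ a0 ha0
          omega
        have h6 : sg u ((Q' \ Q).erase b0) ≤ sg u ((Q \ Q').erase a0) := by
          apply cmp u
          · rw [Finset.card_erase_of_mem ha0, Finset.card_erase_of_mem hb0]; omega
          · intro b hb a ha
            have := hall a (Finset.mem_of_mem_erase ha) b (Finset.mem_of_mem_erase hb)
            omega
        have h7 := sg_erase u ha0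
        have h8 := sg_erase u hb0
        have h9 := hall a0 ha0 b0 hb0
        omega
    rw [Finset.mem_sdiff] at ha hb
    have hba : b ≠ a := fun h => hb.2 (h ▸ ha.1)
    have hbE : b ∉ Q.erase a := fun h => hb.2 (Finset.mem_of_mem_erase h)
    have haE : a ∉ Q.erase a := Finset.notMem_erase a Q
    have hQe : insert a (Q.erase a) = Q := Finset.insert_erase ha.1
    have hs1 := sg_erase u ha.1
    have hs2 := sg_insert u hbE
    have hcE : (Q.erase a).card + 1 = r := by
      rw [Finset.card_erase_of_mem ha.1]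
      have : 0 < Q.card := Finset.card_pos.mpr ⟨a, ha.1⟩
      omega
    have hEN : Q.erase a ⊆ N := fun z hz => hQN (Finset.mem_of_mem_erase hz)
    have st := hstep (Q.erase a) b a hEN (hQ'N hb.1) (hQN ha.1) hbE haE hba hcE
      (by omega) (by omega) (by rw [hQe]; exact hQ1) (by rw [hQe]; exact hQ2)
    rw [hQe] at st
    refine htrans _ _ _ st (ih _ Q' ?_ ?_ hQ'N ?_ hQ'c ?_ ?_ hQ'1 hQ'2)
    · have e : insert b (Q.erase a) \ Q' = (Q \ Q').erase a := by
        ext z
        simp only [Finset.mem_sdiff, Finset.mem_insert, Finset.mem_erase]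
        constructor
        · rintro ⟨h1 | h1, h2⟩
          · exact absurd (h1 ▸ hb.1) h2
          · exact ⟨h1.1, h1.2, h2⟩
        · rintro ⟨h1, h2, h3⟩
          exact ⟨Or.inr ⟨h1, h2⟩, h3⟩
      rw [e, Finset.card_erase_of_mem (Finset.mem_sdiff.mpr ha)]; omega
    · exact Finset.insert_subset (hQ'N hb.1) hEN
    · rw [Finset.card_insert_of_notMem hbE]; omega
    · omega
    · omega

variable [Fintype ι]

lemma sg_univ_split (P : Finset ι) : sg u P + sg u Pᶜ = sg u Finset.univ := by
  rw [← sg_union u disjoint_compl_right, Finset.union_compl]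

/-- all nodes with centre the largest colour are connected -/
lemma conn_top (hn : Fintype.card ι = 3 * r + 1) (hr : 2 ≤ r)
    (hsum : ∑ i, u i = 3 * d) (o : ι) (hmax : ∀ i, u i ≤ u o) (Q Q' : Finset ι)
    (h : Bn u r d Q o) (h' : Bn u r d Q' o) : Cn u r d (Q, o) (Q', o) := by
  have hB : ∀ E : Finset ι, ∀ b : ι, E ⊆ Finset.univ.erase o → b ∈ Finset.univ.erase o → b ∉ E →
      E.card + 1 = r → sg u (insert b E) ≤ d → d ≤ sg u (insert b E) + u o →
      Bn u r d (insert b E) o := by
    intro E b hE hb hbE hEc h1 h2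
    refine ⟨by rw [Finset.card_insert_of_notMem hbE, hEc], ?_, h1, h2⟩
    rw [Finset.mem_insert, not_or]
    exact ⟨fun h => (Finset.mem_erase.mp hb).1 h.symm, fun h => (Finset.mem_erase.mp (hE h)).1 rfl⟩
  apply exch (u := u) (r := r) (d := d) (Finset.univ.erase o) (u o) (fun i _ => hmax i)
    (fun P Q => Cn u r d (P, o) (Q, o)) (fun P => Cn.refl _) (fun P Q R h1 h2 => h1.trans h2)
    ?_ _ Q Q' rfl ?_ ?_ h.1 h'.1 h.2.2.1 h.2.2.2 h'.2.2.1 h'.2.2.2
  · intro E b c hE hb hc hbE hcE hbc hEc b1 b2 c1 c2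
    have hoE : o ∉ E := fun h => (Finset.mem_erase.mp (hE h)).1 rfl
    have hob : o ≠ b := fun h => (Finset.mem_erase.mp hb).1 h.symm
    have hoc : o ≠ c := fun h => (Finset.mem_erase.mp hc).1 h.symm
    have m1 : c ∉ E := hcE
    have m2 : b ∉ insert c E := by
      rw [Finset.mem_insert, not_or]; exact ⟨hbc, hbE⟩
    have m3 : o ∉ insert b (insert c E) := by
      rw [Finset.mem_insert, Finset.mem_insert, not_or, not_or]
      exact ⟨hob, hoc, hoE⟩
    set U := insert o (insert b (insert c E)) with hU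
    have hUc : U.card = r + 2 := by
      rw [hU, Finset.card_insert_of_notMem m3, Finset.card_insert_of_notMem m2,
        Finset.card_insert_of_notMem m1]
      omega
    have hs := sg_univ_split (u := u) U
    have hsU : sg u U = u o + (u b + (u c + sg u E)) := by
      rw [hU, sg_insert u m3, sg_insert u m2, sg_insert u m1]
    have hst : sg u Finset.univ = 3 * d := hsum
    refine single o b c E Uᶜ hr hEc ?_ hoE ?_ hob hoc hbc hbE ?_ hcE ?_ ?_ hmax ?_
      (hB E c hE hc hcE hEc c1 c2) (hB E b hE hb hbE hEc b1 b2)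
    · rw [Finset.card_compl, hn, hUc]; omega
    · rw [Finset.mem_compl, not_not, hU]; simp
    · rw [Finset.mem_compl, not_not, hU]; simp
    · rw [Finset.mem_compl, not_not, hU]; simp
    · rw [Finset.disjoint_left]
      intro z hz hzU
      rw [Finset.mem_compl] at hzU
      exact hzU (by rw [hU]; simp [hz])
    · omega
  · intro z hz
    rw [Finset.mem_erase]
    exact ⟨fun he => h.2.1 (he ▸ hz), Finset.mem_univ _⟩
  · intro z hz
    rw [Finset.mem_erase]
    exact ⟨fun he => h'.2.1 (he ▸ hz), Finset.mem_univ _⟩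

/-- a node avoiding the largest colour is adjacent to a node centred at the largest colour -/
lemma to_top_a (hn : Fintype.card ι = 3 * r + 1) (hr : 2 ≤ r)
    (hsum : ∑ i, u i = 3 * d) (o : ι) (hmax : ∀ i, u i ≤ u o) (P : Finset ι) (x : ι)
    (h : Bn u r d P x) (hoP : o ∉ P) (hxo : x ≠ o) :
    ∃ Q, Bn u r d Q o ∧ Cn u r d (P, x) (Q, o) := by
  obtain ⟨hPc, hxP, hP1, hP2⟩ := h
  have m1 : o ∉ insert x P := by
    rw [Finset.mem_insert, not_or]; exact ⟨hxo.symm, hoP⟩
  set U := insert o (insert x P) with hU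
  have hUc : U.card = r + 2 := by
    rw [hU, Finset.card_insert_of_notMem m1, Finset.card_insert_of_notMem hxP, hPc]
  have hs := sg_univ_split (u := u) U
  have hsU : sg u U = u o + (u x + sg u P) := by
    rw [hU, sg_insert u m1, sg_insert u hxP]
  have hst : sg u Finset.univ = 3 * d := hsum
  have hDc : Uᶜ.card + 1 = 2 * r := by
    rw [Finset.card_compl, hn, hUc]; omega
  obtain ⟨T, hTU, hTc⟩ := Finset.exists_subset_card_eq (s := Uᶜ) (n := r) (by omega)
  obtain ⟨y, hy⟩ : T.Nonempty := Finset.card_pos.mp (by omega)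
  have hTs : sg u (Uᶜ \ T) + sg u T = sg u Uᶜ := sg_sdiff u hTU
  have hTc' : (Uᶜ \ T).card + 1 = r := by
    rw [Finset.card_sdiff_of_subset hTU]; omega
  have hyT' : y ∉ Uᶜ \ T := fun h => (Finset.mem_sdiff.mp h).2 hy
  have hyU : insert y (Uᶜ \ T) ⊆ Uᶜ := Finset.insert_subset (hTU hy) Finset.sdiff_subset
  have hyc : (insert y (Uᶜ \ T)).card = r := by
    rw [Finset.card_insert_of_notMem hyT']; omega
  have hys := sg_insert u hyT'
  have hmy := hmax y
  have hmx := hmax x
  obtain ⟨R, hRU, hRc, hR1, hR2⟩ := slideR u Uᶜ r d (u o) (fun i _ => hmax i)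
    (by
      by_contra hcon
      push Not at hcon
      have h1 := hcon T hTU hTc
      have h2 := hcon _ hyU hyc
      omega)
    (by
      by_contra hcon
      push Not at hcon
      have h1 := hcon T hTU hTc
      have h2 := hcon _ hyU hyc
      omega)
  have hRmem : ∀ z ∈ R, z ≠ o ∧ z ≠ x ∧ z ∉ P := by
    intro z hz
    have h1 := hRU hz
    rw [Finset.mem_compl, hU, Finset.mem_insert, Finset.mem_insert, not_or, not_or] at h1
    exact h1
  have hoR : o ∉ R := fun h => (hRmem o h).1 rfl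
  have hxR : x ∉ R := fun h => (hRmem x h).2.1 rfl
  refine ⟨R, ⟨hRc, hoR, hR1, hR2⟩, ?_⟩
  refine adj_ne ⟨hPc, hxP, hP1, hP2⟩ ⟨hRc, hoR, hR1, hR2⟩ ?_ hxR hoP hxo
  rw [Finset.disjoint_left]
  intro z h1 h2
  exact (hRmem z h2).2.2 h1

/-- every node is connected to a node centred at the largest colour -/
lemma to_top (hn : Fintype.card ι = 3 * r + 1) (hr : 2 ≤ r)
    (hsum : ∑ i, u i = 3 * d) (o : ι) (hmax : ∀ i, u i ≤ u o) (P : Finset ι) (x : ι)
    (h : Bn u r d P x) : ∃ Q, Bn u r d Q o ∧ Cn u r d (P, x) (Q, o) := by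
  by_cases hxo : x = o
  · subst hxo
    exact ⟨P, h, Cn.refl _⟩
  by_cases hoP : o ∉ P
  · exact to_top_a hn hr hsum o hmax P x h hoP hxo
  rw [not_not] at hoP
  obtain ⟨hPc, hxP, hP1, hP2⟩ := h
  have hB : Bn u r d P x := ⟨hPc, hxP, hP1, hP2⟩
  set U := insert x P with hU
  have hUc : U.card = r + 1 := by
    rw [hU, Finset.card_insert_of_notMem hxP, hPc]
  have hs := sg_univ_split (u := u) U
  have hsU : sg u U = u x + sg u P := by rw [hU, sg_insert u hxP]
  have hst : sg u Finset.univ = 3 * d := hsum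
  have hDc : Uᶜ.card = 2 * r := by
    rw [Finset.card_compl, hn, hUc]; omega
  have hmem : ∀ z ∈ Uᶜ, z ≠ x ∧ z ∉ P := by
    intro z hz
    rw [Finset.mem_compl, hU, Finset.mem_insert, not_or] at hz
    exact hz
  obtain ⟨T, hTU, hTc⟩ := Finset.exists_subset_card_eq (s := Uᶜ) (n := r) (by omega)
  have hTs : sg u (Uᶜ \ T) + sg u T = sg u Uᶜ := sg_sdiff u hTU
  have hTc' : (Uᶜ \ T).card = r := by
    rw [Finset.card_sdiff_of_subset hTU]; omega
  by_cases hS : ∃ S ⊆ Uᶜ, S.card = r + 1 ∧ d ≤ sg u S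
  · obtain ⟨R, hRU, y, hyU, hyR, hRc, hR1, hR2⟩ := slide u Uᶜ r d hS (by
      by_contra hcon
      push Not at hcon
      have h1 := hcon T hTU hTc
      have h2 := hcon _ Finset.sdiff_subset hTc'
      omega)
    have hBR : Bn u r d R y := ⟨hRc, hyR, hR1, hR2⟩
    have hxR : x ∉ R := fun h => (hmem x (hRU h)).1 rfl
    have hoR : o ∉ R := fun h => (hmem o (hRU h)).2 hoP
    have hyo : y ≠ o := fun h => (hmem y hyU).2 (h ▸ hoP)
    have h1 : Cn u r d (P, x) (R, y) := by
      refine adj_ne hB hBR ?_ hxR (hmem y hyU).2 (hmem y hyU).1.symm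
      rw [Finset.disjoint_left]
      intro z h1 h2
      exact (hmem z (hRU h2)).2 h1
    obtain ⟨Q, hQ, hc⟩ := to_top_a hn hr hsum o hmax R y hBR hoR hyo
    exact ⟨Q, hQ, h1.trans hc⟩
  · push Not at hS
    obtain ⟨z0, hz0⟩ : (Uᶜ \ T).Nonempty := Finset.card_pos.mp (by omega)
    obtain ⟨y0, hy0⟩ : T.Nonempty := Finset.card_pos.mp (by omega)
    rw [Finset.mem_sdiff] at hz0
    have h1 := hS (insert z0 T) (Finset.insert_subset hz0.1 hTU)
      (by rw [Finset.card_insert_of_notMem hz0.2, hTc])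
    rw [sg_insert u hz0.2] at h1
    have hy0' : y0 ∉ Uᶜ \ T := fun h => (Finset.mem_sdiff.mp h).2 hy0
    have h2 := hS (insert y0 (Uᶜ \ T)) (Finset.insert_subset (hTU hy0) Finset.sdiff_subset)
      (by rw [Finset.card_insert_of_notMem hy0', hTc'])
    rw [sg_insert u hy0'] at h2
    have hxT : x ∉ T := fun h => (hmem x (hTU h)).1 rfl
    have hoT : o ∉ T := fun h => (hmem o (hTU h)).2 hoP
    have hBT : Bn u r d T x := ⟨hTc, hxT, by omega, by omega⟩
    have h3 : Cn u r d (P, x) (T, x) := by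
      refine adj_of hB hBT ?_ hxT hxP (fun _ => by omega)
      rw [Finset.disjoint_left]
      intro z h1 h2
      exact (hmem z (hTU h2)).2 h1
    obtain ⟨Q, hQ, hc⟩ := to_top_a hn hr hsum o hmax T x hBT hoT hxo
    exact ⟨Q, hQ, h3.trans hc⟩

/-- the graph of basic nodes is connected -/
theorem nodes_conn (hn : Fintype.card ι = 3 * r + 1) (hr : 2 ≤ r)
    (hsum : ∑ i, u i = 3 * d) (P Q : Finset ι) (x y : ι)
    (h : Bn u r d P x) (h' : Bn u r d Q y) : Cn u r d (P, x) (Q, y) := by
  have : Nonempty ι := ⟨x⟩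
  obtain ⟨o, -, ho⟩ := Finset.exists_max_image (Finset.univ : Finset ι) u Finset.univ_nonempty
  have hmax : ∀ i, u i ≤ u o := fun i => ho i (Finset.mem_univ i)
  obtain ⟨P', hP', h1⟩ := to_top hn hr hsum o hmax P x h
  obtain ⟨Q', hQ', h2⟩ := to_top hn hr hsum o hmax Q y h'
  exact h1.trans ((conn_top hn hr hsum o hmax P' Q' hP' hQ').trans h2.symm)

end Pool.Agent.Helper46.PV
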