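import Pool.Agent.Helper46.PV.M

set_option autoImplicit false
set_option linter.unusedSectionVars false

/-!
The case of nine variables, degree nine, support three.
-/

namespace Pool.Agent.Helper46.PV

open Pool.Agent.Helper857.PV MvPolynomial

lemma split6 (u v : Gen 9 9 3) (w : Fin 9 → ℕ) (h : ∀ i, u.1 i + v.1 i = w i)
    (h6 : ∑ i, (if w i ≠ 0 then 1 else 0) = 6) :
    ∃ x : Fin 9 → ℕ, (∀ i, x i ≤ 1) ∧ (∀ i, u.1 i = x i * w i) ∧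
      (∀ i, v.1 i = (1 - x i) * w i) ∧ ∑ i, x i * w i = 9 ∧
      ∑ i, (if w i ≠ 0 then x i else 0) = 3 := by
  have ha := u.2.2
  have hb := v.2.2
  rw [Finset.card_filter] at ha hb
  have hle : ∑ i, ((if u.1 i ≠ 0 then 1 else 0) + (if v.1 i ≠ 0 then 1 else 0))
      ≤ ∑ i, (if w i ≠ 0 then 1 else 0) := by
    rw [Finset.sum_add_distrib, h6]
    omega
  have hge : ∀ i ∈ (Finset.univ : Finset (Fin 9)), (if w i ≠ 0 then 1 else 0)
      ≤ ((if u.1 i ≠ 0 then 1 else 0) + (if v.1 i ≠ 0 then 1 else 0)) := by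
    intro j _
    have h1 := h j
    split_ifs <;> omega
  have heq := (Finset.sum_eq_sum_iff_of_le hge).mp (le_antisymm (Finset.sum_le_sum hge) hle)
  have hz : ∀ i, u.1 i = 0 ∨ v.1 i = 0 := by
    intro i
    have h1 := heq i (Finset.mem_univ i)
    have h2 := h i
    by_contra hc
    rw [not_or] at hc
    rw [if_pos (by omega), if_pos hc.1, if_pos hc.2] at h1
    omega
  have hu : ∀ i, u.1 i = (if u.1 i ≠ 0 then 1 else 0) * w i := by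
    intro i
    have h2 := h i
    rcases hz i with h3 | h3
    · simp [h3]
    · by_cases h4 : u.1 i = 0
      · simp [h4]
      · rw [if_pos h4]; omega
  have hv : ∀ i, v.1 i = (1 - (if u.1 i ≠ 0 then 1 else 0)) * w i := by
    intro i
    have h2 := h i
    rcases hz i with h3 | h3
    · rw [if_neg (by simpa using h3)]; omega
    · by_cases h4 : u.1 i = 0
      · rw [if_neg (by simpa using h4)]; omega
      · rw [if_pos h4]; omega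
  refine ⟨fun i => if u.1 i ≠ 0 then 1 else 0, fun i => ?_, hu, hv, ?_, ?_⟩
  · show (if u.1 i ≠ 0 then 1 else 0) ≤ 1
    split_ifs <;> omega
  · exact (Finset.sum_congr rfl (fun i _ => (hu i).symm)).trans u.2.1
  · have e1 : ∑ i, (if w i ≠ 0 then (if u.1 i ≠ 0 then 1 else 0) else 0)
        = ∑ i, (if u.1 i ≠ 0 then 1 else 0) := by
      apply Finset.sum_congr rfl
      intro i _
      have h2 := h i
      split_ifs <;> omega
    have e2 : ∑ i, (if u.1 i ≠ 0 then 1 else 0) + ∑ i, (if v.1 i ≠ 0 then 1 else 0) = 6 := by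
      rw [← Finset.sum_add_distrib, ← h6]
      exact Finset.sum_congr rfl (fun i hi => (heq i hi).symm)
    rw [e1]
    omega

def ga1 : Gen 9 9 3 := ⟨![5, 0, 0, 0, 0, 0, 2, 2, 0], by decide⟩
def ga2 : Gen 9 9 3 := ⟨![0, 4, 4, 0, 0, 0, 0, 0, 1], by decide⟩
def ga3 : Gen 9 9 3 := ⟨![0, 0, 0, 3, 3, 3, 0, 0, 0], by decide⟩
def gb1 : Gen 9 9 3 := ⟨![5, 0, 0, 3, 0, 0, 0, 0, 1], by decide⟩
def gb2 : Gen 9 9 3 := ⟨![0, 4, 0, 0, 3, 0, 2, 0, 0], by decide⟩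
def gb3 : Gen 9 9 3 := ⟨![0, 0, 4, 0, 0, 3, 0, 2, 0], by decide⟩

lemma rig12 : Rigid ga1 ga2 := by
  intro u v h
  obtain ⟨x, hx, hu, hv, h1, h2⟩ := split6 u v ![5, 4, 4, 0, 0, 0, 2, 2, 1] (fun i => by rw [h i]; revert i; decide) (by decide)
  rw [sum9] at h1 h2
  change x 0 * 5 + x 1 * 4 + x 2 * 4 + x 3 * 0 + x 4 * 0 + x 5 * 0 + x 6 * 2 + x 7 * 2 + x 8 * 1 = 9 at h1
  change x 0 + x 1 + x 2 + 0 + 0 + 0 + x 6 + x 7 + x 8 = 3 at h2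
  have b0 := hx 0
  have b1 := hx 1
  have b2 := hx 2
  have b6 := hx 6
  have b7 := hx 7
  have b8 := hx 8
  have hh : (x 0 = 1 ∧ x 1 = 0 ∧ x 2 = 0 ∧ x 6 = 1 ∧ x 7 = 1 ∧ x 8 = 0) ∨ (x 0 = 0 ∧ x 1 = 1 ∧ x 2 = 1 ∧ x 6 = 0 ∧ x 7 = 0 ∧ x 8 = 1) := by
    rcases Nat.le_one_iff_eq_zero_or_eq_one.mp b0 with e0 | e0 <;> rcases Nat.le_one_iff_eq_zero_or_eq_one.mp b1 with e1 | e1 <;> rcases Nat.le_one_iff_eq_zero_or_eq_one.mp b2 with e2 | e2 <;> rcases Nat.le_one_iff_eq_zero_or_eq_one.mp b6 with e6 | e6 <;> omega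
  rcases hh with ⟨z0, z1, z2, z6, z7, z8⟩ | ⟨z0, z1, z2, z6, z7, z8⟩
  · left
    exact ⟨Subtype.ext (funext (nine (by rw [hu 0, z0]; rfl) (by rw [hu 1, z1]; rfl) (by rw [hu 2, z2]; rfl) (by rw [hu 3]; exact Nat.mul_zero _) (by rw [hu 4]; exact Nat.mul_zero _) (by rw [hu 5]; exact Nat.mul_zero _) (by rw [hu 6, z6]; rfl) (by rw [hu 7, z7]; rfl) (by rw [hu 8, z8]; rfl))),
      Subtype.ext (funext (nine (by rw [hv 0, z0]; rfl) (by rw [hv 1, z1]; rfl) (by rw [hv 2, z2]; rfl) (by rw [hv 3]; exact Nat.mul_zero _) (by rw [hv 4]; exact Nat.mul_zero _) (by rw [hv 5]; exact Nat.mul_zero _) (by rw [hv 6, z6]; rfl) (by rw [hv 7, z7]; rfl) (by rw [hv 8, z8]; rfl)))⟩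
  · right
    exact ⟨Subtype.ext (funext (nine (by rw [hu 0, z0]; rfl) (by rw [hu 1, z1]; rfl) (by rw [hu 2, z2]; rfl) (by rw [hu 3]; exact Nat.mul_zero _) (by rw [hu 4]; exact Nat.mul_zero _) (by rw [hu 5]; exact Nat.mul_zero _) (by rw [hu 6, z6]; rfl) (by rw [hu 7, z7]; rfl) (by rw [hu 8, z8]; rfl))),
      Subtype.ext (funext (nine (by rw [hv 0, z0]; rfl) (by rw [hv 1, z1]; rfl) (by rw [hv 2, z2]; rfl) (by rw [hv 3]; exact Nat.mul_zero _) (by rw [hv 4]; exact Nat.mul_zero _) (by rw [hv 5]; exact Nat.mul_zero _) (by rw [hv 6, z6]; rfl) (by rw [hv 7, z7]; rfl) (by rw [hv 8, z8]; rfl)))⟩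

lemma rig13 : Rigid ga1 ga3 := by
  intro u v h
  obtain ⟨x, hx, hu, hv, h1, h2⟩ := split6 u v ![5, 0, 0, 3, 3, 3, 2, 2, 0] (fun i => by rw [h i]; revert i; decide) (by decide)
  rw [sum9] at h1 h2
  change x 0 * 5 + x 1 * 0 + x 2 * 0 + x 3 * 3 + x 4 * 3 + x 5 * 3 + x 6 * 2 + x 7 * 2 + x 8 * 0 = 9 at h1
  change x 0 + 0 + 0 + x 3 + x 4 + x 5 + x 6 + x 7 + 0 = 3 at h2
  have b0 := hx 0
  have b3 := hx 3
  have b4 := hx 4
  have b5 := hx 5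
  have b6 := hx 6
  have b7 := hx 7
  have hh : (x 0 = 0 ∧ x 3 = 1 ∧ x 4 = 1 ∧ x 5 = 1 ∧ x 6 = 0 ∧ x 7 = 0) ∨ (x 0 = 1 ∧ x 3 = 0 ∧ x 4 = 0 ∧ x 5 = 0 ∧ x 6 = 1 ∧ x 7 = 1) := by
    rcases Nat.le_one_iff_eq_zero_or_eq_one.mp b0 with e0 | e0 <;> rcases Nat.le_one_iff_eq_zero_or_eq_one.mp b3 with e3 | e3 <;> rcases Nat.le_one_iff_eq_zero_or_eq_one.mp b4 with e4 | e4 <;> rcases Nat.le_one_iff_eq_zero_or_eq_one.mp b5 with e5 | e5 <;> omega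
  rcases hh with ⟨z0, z3, z4, z5, z6, z7⟩ | ⟨z0, z3, z4, z5, z6, z7⟩
  · right
    exact ⟨Subtype.ext (funext (nine (by rw [hu 0, z0]; rfl) (by rw [hu 1]; exact Nat.mul_zero _) (by rw [hu 2]; exact Nat.mul_zero _) (by rw [hu 3, z3]; rfl) (by rw [hu 4, z4]; rfl) (by rw [hu 5, z5]; rfl) (by rw [hu 6, z6]; rfl) (by rw [hu 7, z7]; rfl) (by rw [hu 8]; exact Nat.mul_zero _))),
      Subtype.ext (funext (nine (by rw [hv 0, z0]; rfl) (by rw [hv 1]; exact Nat.mul_zero _) (by rw [hv 2]; exact Nat.mul_zero _) (by rw [hv 3, z3]; rfl) (by rw [hv 4, z4]; rfl) (by rw [hv 5, z5]; rfl) (by rw [hv 6, z6]; rfl) (by rw [hv 7, z7]; rfl) (by rw [hv 8]; exact Nat.mul_zero _)))⟩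
  · left
    exact ⟨Subtype.ext (funext (nine (by rw [hu 0, z0]; rfl) (by rw [hu 1]; exact Nat.mul_zero _) (by rw [hu 2]; exact Nat.mul_zero _) (by rw [hu 3, z3]; rfl) (by rw [hu 4, z4]; rfl) (by rw [hu 5, z5]; rfl) (by rw [hu 6, z6]; rfl) (by rw [hu 7, z7]; rfl) (by rw [hu 8]; exact Nat.mul_zero _))),
      Subtype.ext (funext (nine (by rw [hv 0, z0]; rfl) (by rw [hv 1]; exact Nat.mul_zero _) (by rw [hv 2]; exact Nat.mul_zero _) (by rw [hv 3, z3]; rfl) (by rw [hv 4, z4]; rfl) (by rw [hv 5, z5]; rfl) (by rw [hv 6, z6]; rfl) (by rw [hv 7, z7]; rfl) (by rw [hv 8]; exact Nat.mul_zero _)))⟩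

lemma rig23 : Rigid ga2 ga3 := by
  intro u v h
  obtain ⟨x, hx, hu, hv, h1, h2⟩ := split6 u v ![0, 4, 4, 3, 3, 3, 0, 0, 1] (fun i => by rw [h i]; revert i; decide) (by decide)
  rw [sum9] at h1 h2
  change x 0 * 0 + x 1 * 4 + x 2 * 4 + x 3 * 3 + x 4 * 3 + x 5 * 3 + x 6 * 0 + x 7 * 0 + x 8 * 1 = 9 at h1
  change 0 + x 1 + x 2 + x 3 + x 4 + x 5 + 0 + 0 + x 8 = 3 at h2
  have b1 := hx 1
  have b2 := hx 2
  have b3 := hx 3
  have b4 := hx 4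
  have b5 := hx 5
  have b8 := hx 8
  have hh : (x 1 = 0 ∧ x 2 = 0 ∧ x 3 = 1 ∧ x 4 = 1 ∧ x 5 = 1 ∧ x 8 = 0) ∨ (x 1 = 1 ∧ x 2 = 1 ∧ x 3 = 0 ∧ x 4 = 0 ∧ x 5 = 0 ∧ x 8 = 1) := by
    rcases Nat.le_one_iff_eq_zero_or_eq_one.mp b1 with e1 | e1 <;> rcases Nat.le_one_iff_eq_zero_or_eq_one.mp b2 with e2 | e2 <;> rcases Nat.le_one_iff_eq_zero_or_eq_one.mp b3 with e3 | e3 <;> rcases Nat.le_one_iff_eq_zero_or_eq_one.mp b4 with e4 | e4 <;> omega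
  rcases hh with ⟨z1, z2, z3, z4, z5, z8⟩ | ⟨z1, z2, z3, z4, z5, z8⟩
  · right
    exact ⟨Subtype.ext (funext (nine (by rw [hu 0]; exact Nat.mul_zero _) (by rw [hu 1, z1]; rfl) (by rw [hu 2, z2]; rfl) (by rw [hu 3, z3]; rfl) (by rw [hu 4, z4]; rfl) (by rw [hu 5, z5]; rfl) (by rw [hu 6]; exact Nat.mul_zero _) (by rw [hu 7]; exact Nat.mul_zero _) (by rw [hu 8, z8]; rfl))),
      Subtype.ext (funext (nine (by rw [hv 0]; exact Nat.mul_zero _) (by rw [hv 1, z1]; rfl) (by rw [hv 2, z2]; rfl) (by rw [hv 3, z3]; rfl) (by rw [hv 4, z4]; rfl) (by rw [hv 5, z5]; rfl) (by rw [hv 6]; exact Nat.mul_zero _) (by rw [hv 7]; exact Nat.mul_zero _) (by rw [hv 8, z8]; rfl)))⟩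
  · left
    exact ⟨Subtype.ext (funext (nine (by rw [hu 0]; exact Nat.mul_zero _) (by rw [hu 1, z1]; rfl) (by rw [hu 2, z2]; rfl) (by rw [hu 3, z3]; rfl) (by rw [hu 4, z4]; rfl) (by rw [hu 5, z5]; rfl) (by rw [hu 6]; exact Nat.mul_zero _) (by rw [hu 7]; exact Nat.mul_zero _) (by rw [hu 8, z8]; rfl))),
      Subtype.ext (funext (nine (by rw [hv 0]; exact Nat.mul_zero _) (by rw [hv 1, z1]; rfl) (by rw [hv 2, z2]; rfl) (by rw [hv 3, z3]; rfl) (by rw [hv 4, z4]; rfl) (by rw [hv 5, z5]; rfl) (by rw [hv 6]; exact Nat.mul_zero _) (by rw [hv 7]; exact Nat.mul_zero _) (by rw [hv 8, z8]; rfl)))⟩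

theorem nine_not (K : Type) [Field K] : ¬ IsQuadratic K 9 9 3 := by
  apply not_quadratic K ga1 ga2 ga3 gb1 gb2 gb3 rig12 rig13 rig23
  · decide
  · intro h
    exact absurd (congrFun (congrArg Subtype.val h) 3) (by decide)
  · intro h
    exact absurd (congrFun (congrArg Subtype.val h) 0) (by decide)
  · intro h
    exact absurd (congrFun (congrArg Subtype.val h) 0) (by decide)

end Pool.Agent.Helper46.PV
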