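import Mathlib

set_option autoImplicit false
set_option linter.unusedSectionVars false

/-!
Elementary exchange lemmas for finite sets of nonnegative integers.
-/

namespace Pool.Agent.Helper46.PV

variable {ι : Type} [DecidableEq ι]

/-- sum of the sizes over a finite set -/
def sg (u : ι → ℕ) (P : Finset ι) : ℕ := ∑ i ∈ P, u i

variable (u : ι → ℕ)

lemma sg_insert {P : Finset ι} {a : ι} (h : a ∉ P) : sg u (insert a P) = u a + sg u P :=
  Finset.sum_insert h

lemma sg_union {P Q : Finset ι} (h : Disjoint P Q) : sg u (P ∪ Q) = sg u P + sg u Q :=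
  Finset.sum_union h

lemma sg_mono {P Q : Finset ι} (h : P ⊆ Q) : sg u P ≤ sg u Q :=
  Finset.sum_le_sum_of_subset h

lemma sg_sdiff {P Q : Finset ι} (h : P ⊆ Q) : sg u (Q \ P) + sg u P = sg u Q :=
  Finset.sum_sdiff h

lemma sg_erase {P : Finset ι} {a : ι} (h : a ∈ P) : u a + sg u (P.erase a) = sg u P :=
  Finset.add_sum_erase P u h

lemma cmp {A B : Finset ι} (h : A.card ≤ B.card) (h2 : ∀ a ∈ A, ∀ b ∈ B, u a ≤ u b) :
    sg u A ≤ sg u B := by
  rcases A.eq_empty_or_nonempty with rfl | hA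
  · simp [sg]
  · obtain ⟨a0, ha0, hmax⟩ := Finset.exists_max_image A u hA
    have h3 : sg u A ≤ A.card • u a0 := Finset.sum_le_card_nsmul A u (u a0) hmax
    have h4 : B.card • u a0 ≤ sg u B :=
      Finset.card_nsmul_le_sum B u (u a0) (fun b hb => h2 a0 ha0 b hb)
    have h5 : A.card • u a0 ≤ B.card • u a0 := by
      simp only [smul_eq_mul]
      exact Nat.mul_le_mul_right _ h
    omega

/-- exchanging one element -/
lemma sg_exch {R : Finset ι} {a y : ι} (ha : a ∈ R) (hy : y ∉ R) :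
    sg u (insert y (R.erase a)) + u a = sg u R + u y ∧ (insert y (R.erase a)).card = R.card := by
  have h1 : y ∉ R.erase a := fun h => hy (Finset.mem_of_mem_erase h)
  have h2 := sg_erase u ha
  have h3 : 0 < R.card := Finset.card_pos.mpr ⟨a, ha⟩
  refine ⟨?_, ?_⟩
  · rw [sg_insert u h1]; omega
  · rw [Finset.card_insert_of_notMem h1, Finset.card_erase_of_mem ha]; omega

/-- the sliding lemma -/
lemma slide (D : Finset ι) (r d : ℕ) (hS : ∃ S ⊆ D, S.card = r + 1 ∧ d ≤ sg u S)
    (hR : ∃ R ⊆ D, R.card = r ∧ sg u R ≤ d) :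
    ∃ R ⊆ D, ∃ y ∈ D, y ∉ R ∧ R.card = r ∧ sg u R ≤ d ∧ d ≤ sg u R + u y := by
  obtain ⟨S, hSD, hSc, hSd⟩ := hS
  obtain ⟨R1, hR1D, hR1c, hR1d⟩ := hR
  have hne : ((D.powersetCard r).filter (fun R => sg u R ≤ d)).Nonempty :=
    ⟨R1, by rw [Finset.mem_filter, Finset.mem_powersetCard]; exact ⟨⟨hR1D, hR1c⟩, hR1d⟩⟩
  obtain ⟨R, hRm, hmax⟩ := Finset.exists_max_image _ (fun R => sg u R) hne
  rw [Finset.mem_filter, Finset.mem_powersetCard] at hRm
  obtain ⟨⟨hRD, hRc⟩, hRd⟩ := hRm
  have hmax' : ∀ R' ⊆ D, R'.card = r → sg u R' ≤ d → sg u R' ≤ sg u R := by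
    intro R' h1 h2 h3
    exact hmax R' (by rw [Finset.mem_filter, Finset.mem_powersetCard]; exact ⟨⟨h1, h2⟩, h3⟩)
  by_contra hcon
  push Not at hcon
  have hc : ∀ y ∈ D, y ∉ R → sg u R + u y < d := fun y hy hyR => hcon R hRD y hy hyR hRc hRd
  have h1 : ∀ y ∈ S \ R, ∀ a ∈ R \ S, u y ≤ u a := by
    intro y hy a ha
    rw [Finset.mem_sdiff] at hy ha
    obtain ⟨e1, e2⟩ := sg_exch u ha.1 hy.2
    have e3 := hc y (hSD hy.1) hy.2
    have e4 : insert y (R.erase a) ⊆ D := by
      intro z hz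
      rw [Finset.mem_insert] at hz
      rcases hz with rfl | hz
      · exact hSD hy.1
      · exact hRD (Finset.mem_of_mem_erase hz)
    have e5 := hmax' _ e4 (by rw [e2, hRc]) (by omega)
    omega
  have hcard : (S \ R).card = (R \ S).card + 1 := by
    have e1 := Finset.card_sdiff_add_card_inter S R
    have e2 := Finset.card_sdiff_add_card_inter R S
    rw [Finset.inter_comm] at e2
    omega
  obtain ⟨y0, hy0⟩ : (S \ R).Nonempty := Finset.card_pos.mp (by omega)
  have h2 : sg u ((S \ R).erase y0) ≤ sg u (R \ S) := by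
    apply cmp u
    · rw [Finset.card_erase_of_mem hy0]; omega
    · intro y hy a ha
      exact h1 y (Finset.mem_of_mem_erase hy) a ha
  have h3 := sg_erase u hy0
  have h4 : sg u (S \ R) + sg u (S ∩ R) = sg u S := by
    rw [← sg_union u (Finset.disjoint_sdiff_inter S R), Finset.sdiff_union_inter]
  have h5 : sg u (R \ S) + sg u (R ∩ S) = sg u R := by
    rw [← sg_union u (Finset.disjoint_sdiff_inter R S), Finset.sdiff_union_inter]
  rw [Finset.inter_comm R S] at h5
  rw [Finset.mem_sdiff] at hy0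
  have h6 := hc y0 (hSD hy0.1) hy0.2
  omega

/-- sliding among `r`-subsets -/
lemma slideR (D : Finset ι) (r d X : ℕ) (hX : ∀ i ∈ D, u i ≤ X)
    (hS : ∃ S ⊆ D, S.card = r ∧ d ≤ sg u S + X) (hR : ∃ R ⊆ D, R.card = r ∧ sg u R ≤ d) :
    ∃ R ⊆ D, R.card = r ∧ sg u R ≤ d ∧ d ≤ sg u R + X := by
  obtain ⟨S, hSD, hSc, hSd⟩ := hS
  obtain ⟨R1, hR1D, hR1c, hR1d⟩ := hR
  have hne : ((D.powersetCard r).filter (fun R => sg u R ≤ d)).Nonempty :=
    ⟨R1, by rw [Finset.mem_filter, Finset.mem_powersetCard]; exact ⟨⟨hR1D, hR1c⟩, hR1d⟩⟩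
  obtain ⟨R, hRm, hmax⟩ := Finset.exists_max_image _ (fun R => sg u R) hne
  rw [Finset.mem_filter, Finset.mem_powersetCard] at hRm
  obtain ⟨⟨hRD, hRc⟩, hRd⟩ := hRm
  have hmax' : ∀ R' ⊆ D, R'.card = r → sg u R' ≤ d → sg u R' ≤ sg u R := by
    intro R' h1 h2 h3
    exact hmax R' (by rw [Finset.mem_filter, Finset.mem_powersetCard]; exact ⟨⟨h1, h2⟩, h3⟩)
  refine ⟨R, hRD, hRc, hRd, ?_⟩
  by_contra hcon
  push Not at hcon
  have h1 : ∀ y ∈ S \ R, ∀ a ∈ R \ S, u y ≤ u a := by
    intro y hy a ha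
    rw [Finset.mem_sdiff] at hy ha
    obtain ⟨e1, e2⟩ := sg_exch u ha.1 hy.2
    have e3 := hX y (hSD hy.1)
    have e4 : insert y (R.erase a) ⊆ D := by
      intro z hz
      rw [Finset.mem_insert] at hz
      rcases hz with rfl | hz
      · exact hSD hy.1
      · exact hRD (Finset.mem_of_mem_erase hz)
    have e5 := hmax' _ e4 (by rw [e2, hRc]) (by omega)
    omega
  have hcard : (S \ R).card = (R \ S).card := by
    have e1 := Finset.card_sdiff_add_card_inter S R
    have e2 := Finset.card_sdiff_add_card_inter R S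
    rw [Finset.inter_comm] at e2
    omega
  have h2 : sg u (S \ R) ≤ sg u (R \ S) := cmp u (by omega) h1
  have h4 : sg u (S \ R) + sg u (S ∩ R) = sg u S := by
    rw [← sg_union u (Finset.disjoint_sdiff_inter S R), Finset.sdiff_union_inter]
  have h5 : sg u (R \ S) + sg u (R ∩ S) = sg u R := by
    rw [← sg_union u (Finset.disjoint_sdiff_inter R S), Finset.sdiff_union_inter]
  rw [Finset.inter_comm R S] at h5
  omega

/-- top subsets -/
lemma exists_top (D : Finset ι) (k : ℕ) (hk : k ≤ D.card) :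
    ∃ G ⊆ D, G.card = k ∧ ∀ g ∈ G, ∀ x ∈ D \ G, u x ≤ u g := by
  have hne : (D.powersetCard k).Nonempty := Finset.powersetCard_nonempty.mpr hk
  obtain ⟨G, hGm, hmax⟩ := Finset.exists_max_image _ (fun R => sg u R) hne
  rw [Finset.mem_powersetCard] at hGm
  refine ⟨G, hGm.1, hGm.2, ?_⟩
  intro g hg x hx
  rw [Finset.mem_sdiff] at hx
  obtain ⟨e1, e2⟩ := sg_exch u hg hx.2
  have e4 : insert x (G.erase g) ⊆ D := by
    intro z hz
    rw [Finset.mem_insert] at hz
    rcases hz with rfl | hz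
    · exact hx.1
    · exact hGm.1 (Finset.mem_of_mem_erase hz)
  have e5 := hmax _ (by rw [Finset.mem_powersetCard]; exact ⟨e4, by rw [e2, hGm.2]⟩)
  omega

/-- balancing -/
lemma balance (X : ℕ) (k : ℕ) : ∀ (Z : Finset ι), Z.card = 2 * k → (∀ i ∈ Z, u i ≤ X) →
    ∀ t : ℤ, |t| ≤ X → ∃ A ⊆ Z, A.card = k ∧ |t + sg u A - sg u (Z \ A)| ≤ X := by
  induction k with
  | zero =>
    intro Z hZ _ t ht
    refine ⟨∅, Finset.empty_subset _, rfl, ?_⟩
    have : Z = ∅ := Finset.card_eq_zero.mp hZ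
    subst this
    simpa [sg] using ht
  | succ k ih =>
    intro Z hZ hX t ht
    obtain ⟨p, hp⟩ : Z.Nonempty := Finset.card_pos.mp (by omega)
    obtain ⟨q, hq⟩ : (Z.erase p).Nonempty := Finset.card_pos.mp (by
      rw [Finset.card_erase_of_mem hp]; omega)
    have hqp : q ≠ p := (Finset.mem_erase.mp hq).1
    have hqZ : q ∈ Z := (Finset.mem_erase.mp hq).2
    obtain ⟨A, hA, hAc, hAt⟩ := ih ((Z.erase p).erase q) (by
      rw [Finset.card_erase_of_mem hq, Finset.card_erase_of_mem hp]; omega)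
      (fun i hi => hX i (Finset.mem_of_mem_erase (Finset.mem_of_mem_erase hi))) t ht
    have key : ∀ a b : ι, a ≠ b → a ∈ Z → b ∈ Z → A ⊆ (Z.erase a).erase b →
        (insert a A) ⊆ Z ∧ (insert a A).card = k + 1 ∧ sg u (insert a A) = u a + sg u A ∧
        sg u (Z \ insert a A) = u b + sg u (((Z.erase a).erase b) \ A) := by
      intro a b hab ha hb hAs
      have haA : a ∉ A := by
        intro h
        have := hAs h
        simp at this
      have hbA : b ∉ A := by
        intro h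
        have := hAs h
        simp at this
      refine ⟨?_, ?_, sg_insert u haA, ?_⟩
      · intro z hz
        rw [Finset.mem_insert] at hz
        rcases hz with rfl | hz
        · exact ha
        · exact Finset.mem_of_mem_erase (Finset.mem_of_mem_erase (hAs hz))
      · rw [Finset.card_insert_of_notMem haA, hAc]
      · have e : Z \ insert a A = insert b (((Z.erase a).erase b) \ A) := by
          ext z
          simp only [Finset.mem_sdiff, Finset.mem_insert, Finset.mem_erase]
          by_cases hzb : z = b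
          · subst hzb
            simp [hb, hbA, hab.symm]
          · simp [hzb]
            tauto
        rw [e, sg_insert u]
        simp
    have hp1 := hX p hp
    have hq1 := hX q hqZ
    have e0 : (Z.erase q).erase p = (Z.erase p).erase q := Finset.erase_right_comm
    by_cases hsign : (0 ≤ t + sg u A - sg u (((Z.erase p).erase q) \ A)) ↔ (u p ≤ u q)
    · obtain ⟨k1, k2, k3, k4⟩ := key p q hqp.symm hp hqZ hA
      refine ⟨insert p A, k1, k2, ?_⟩
      rw [k3, k4]
      push_cast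
      rw [abs_le] at hAt ⊢
      by_cases h1 : u p ≤ u q
      · have := hsign.mpr h1
        constructor <;> omega
      · have : ¬ (0 ≤ t + sg u A - sg u (((Z.erase p).erase q) \ A)) := fun h => h1 (hsign.mp h)
        constructor <;> omega
    · obtain ⟨k1, k2, k3, k4⟩ := key q p hqp hqZ hp (by rw [e0]; exact hA)
      refine ⟨insert q A, k1, k2, ?_⟩
      rw [k3, k4, e0]
      push_cast
      rw [abs_le] at hAt ⊢
      by_cases h1 : u p ≤ u q
      · have : ¬ (0 ≤ t + sg u A - sg u (((Z.erase p).erase q) \ A)) :=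
          fun h => hsign ⟨fun _ => h1, fun _ => h⟩
        constructor <;> omega
      · have : (0 ≤ t + sg u A - sg u (((Z.erase p).erase q) \ A)) := by
          by_contra h
          exact hsign ⟨fun h' => absurd h' h, fun h' => absurd h' h1⟩
        constructor <;> omega

end Pool.Agent.Helper46.PV
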