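import Pool.Agent.Helper46.PV.A

set_option autoImplicit false
set_option linter.unusedSectionVars false

/-!
Nodes `(P, x)`: the colours of `P` are used completely, `x` is used partially.  The graph of
nodes with the adjacency `Ad` is connected.
-/

namespace Pool.Agent.Helper46.PV

variable {ι : Type} [DecidableEq ι]

section
variable (u : ι → ℕ) (r d : ℕ)

/-- a basic node -/
def Bn (P : Finset ι) (x : ι) : Prop := P.card = r ∧ x ∉ P ∧ sg u P ≤ d ∧ d ≤ sg u P + u x

/-- adjacency of basic nodes -/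
def Ad (p q : Finset ι × ι) : Prop :=
  Bn u r d p.1 p.2 ∧ Bn u r d q.1 q.2 ∧ Disjoint p.1 q.1 ∧ p.2 ∉ q.1 ∧ q.2 ∉ p.1 ∧
    (p.2 = q.2 → 2 * d ≤ sg u p.1 + sg u q.1 + u p.2)

/-- connectedness -/
def Cn (p q : Finset ι × ι) : Prop := Relation.EqvGen (Ad u r d) p q

end

section
variable {u : ι → ℕ} {r d : ℕ}

lemma Cn.symm {p q : Finset ι × ι} (h : Cn u r d p q) : Cn u r d q p :=
  Relation.EqvGen.symm _ _ h

lemma Cn.trans {p q s : Finset ι × ι} (h : Cn u r d p q) (h' : Cn u r d q s) : Cn u r d p s :=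
  Relation.EqvGen.trans _ _ _ h h'

lemma Cn.refl (p : Finset ι × ι) : Cn u r d p p := Relation.EqvGen.refl _

lemma adj_of {P Q : Finset ι} {x y : ι} (h1 : Bn u r d P x) (h2 : Bn u r d Q y)
    (h3 : Disjoint P Q) (h4 : x ∉ Q) (h5 : y ∉ P)
    (h6 : x = y → 2 * d ≤ sg u P + sg u Q + u x) : Cn u r d (P, x) (Q, y) :=
  Relation.EqvGen.rel _ _ ⟨h1, h2, h3, h4, h5, h6⟩

lemma adj_ne {P Q : Finset ι} {x y : ι} (h1 : Bn u r d P x) (h2 : Bn u r d Q y)
    (h3 : Disjoint P Q) (h4 : x ∉ Q) (h5 : y ∉ P) (h6 : x ≠ y) : Cn u r d (P, x) (Q, y) :=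
  adj_of h1 h2 h3 h4 h5 (fun h => absurd h h6)

/-- the single exchange step, light case -/
lemma light (o b c : ι) (E D : Finset ι) (hr : 2 ≤ r)
    (hE : E.card + 1 = r) (hD : D.card + 1 = 2 * r)
    (hoE : o ∉ E) (hoD : o ∉ D) (hob : o ≠ b) (hoc : o ≠ c) (hbc : b ≠ c)
    (hbE : b ∉ E) (hbD : b ∉ D) (hcE : c ∉ E) (hcD : c ∉ D) (hED : Disjoint E D)
    (hmax : ∀ i, u i ≤ u o) (htot : u o + u b + u c + sg u E + sg u D = 3 * d)
    (hle : u c ≤ u b)
    (hB1 : Bn u r d (insert c E) o) (hB2 : Bn u r d (insert b E) o)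
    (hl : ∀ S ⊆ D, S.card = r + 1 → sg u S < d) :
    Cn u r d (insert c E, o) (insert b E, o) := by
  obtain ⟨G, hGD, hGc, hGt⟩ := exists_top u D r (by omega)
  have hD2c : (D \ G).card + 1 = r := by
    rw [Finset.card_sdiff_of_subset hGD]; omega
  have hsum : sg u (D \ G) + sg u G = sg u D := sg_sdiff u hGD
  obtain ⟨x0, hx0⟩ : (D \ G).Nonempty := Finset.card_pos.mp (by omega)
  have hx0' := Finset.mem_sdiff.mp hx0
  have hGd : sg u G < d := by
    have h1 := hl (insert x0 G) (Finset.insert_subset hx0'.1 hGD)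
      (by rw [Finset.card_insert_of_notMem hx0'.2, hGc])
    rw [sg_insert u hx0'.2] at h1
    omega
  have hD2G : sg u (D \ G) ≤ sg u G := by
    apply cmp u (by omega)
    intro a ha g hg
    exact hGt g hg a ha
  have hEG : Disjoint E G := Finset.disjoint_of_subset_right hGD hED
  have hED2 : Disjoint E (D \ G) := Finset.disjoint_of_subset_right Finset.sdiff_subset hED
  have hGD2 : Disjoint G (D \ G) := Finset.disjoint_sdiff
  have hoG : o ∉ G := fun h => hoD (hGD h)
  have hbG : b ∉ G := fun h => hbD (hGD h)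
  have hcG : c ∉ G := fun h => hcD (hGD h)
  have hoD2 : o ∉ D \ G := fun h => hoD (Finset.mem_sdiff.mp h).1
  have hbD2 : b ∉ D \ G := fun h => hbD (Finset.mem_sdiff.mp h).1
  have hcD2 : c ∉ D \ G := fun h => hcD (Finset.mem_sdiff.mp h).1
  have sB1 := sg_insert u hcE
  have sB2 := sg_insert u hbE
  obtain ⟨_, _, b13, b14⟩ := hB1
  obtain ⟨_, _, b23, b24⟩ := hB2
  rw [sB1] at b13 b14
  rw [sB2] at b23 b24
  have hB1' : Bn u r d (insert c E) o := by
    refine ⟨by rw [Finset.card_insert_of_notMem hcE, hE], ?_, by omega, by omega⟩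
    simp [hoc, hoE]
  have hB2' : Bn u r d (insert b E) o := by
    refine ⟨by rw [Finset.card_insert_of_notMem hbE, hE], ?_, by omega, by omega⟩
    simp [hob, hoE]
  by_cases hstar : 2 * d ≤ u o + u c + sg u E + sg u G
  · have hBG : Bn u r d G o := ⟨hGc, hoG, by omega, by omega⟩
    refine Cn.trans (q := (G, o)) ?_ (Cn.symm ?_)
    · refine adj_of hB1' hBG ?_ hoG ?_ ?_
      · rw [Finset.disjoint_insert_left]; exact ⟨hcG, hEG⟩
      · simp [hoc, hoE]
      · intro _; omega
    · refine adj_of hB2' hBG ?_ hoG ?_ ?_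
      · rw [Finset.disjoint_insert_left]; exact ⟨hbG, hEG⟩
      · simp [hob, hoE]
      · intro _; omega
  have hb1 : d < u b + sg u (D \ G) := by omega
  have hBGb : Bn u r d G b := ⟨hGc, hbG, by omega, by omega⟩
  have hmb := hmax b
  have hstep1 : Cn u r d (insert c E, o) (G, b) := by
    refine adj_ne hB1' hBGb ?_ hoG ?_ hob
    · rw [Finset.disjoint_insert_left]; exact ⟨hcG, hEG⟩
    · simp [hbc, hbE]
  by_cases hc1 : u c + sg u (D \ G) ≤ d
  · -- path A
    have hBD2 : Bn u r d (insert c (D \ G)) o := by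
      refine ⟨by rw [Finset.card_insert_of_notMem hcD2]; omega, ?_, ?_, ?_⟩
      · simp only [Finset.mem_insert, not_or]
        exact ⟨hoc, hoD2⟩
      · rw [sg_insert u hcD2]; omega
      · rw [sg_insert u hcD2]; omega
    refine hstep1.trans (Cn.trans (q := (insert c (D \ G), o)) ?_ ?_)
    · refine adj_ne hBGb hBD2 ?_ ?_ hoG (Ne.symm hob)
      · rw [Finset.disjoint_insert_right]; exact ⟨hcG, hGD2⟩
      · simp only [Finset.mem_insert, not_or]
        exact ⟨hbc, hbD2⟩
    · refine adj_of hBD2 hB2' ?_ ?_ ?_ ?_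
      · rw [Finset.disjoint_insert_left, Finset.disjoint_insert_right]
        refine ⟨?_, hbD2, hED2.symm⟩
        simp only [Finset.mem_insert, not_or]
        exact ⟨hbc.symm, hcE⟩
      · simp only [Finset.mem_insert, not_or]
        exact ⟨hob, hoE⟩
      · simp only [Finset.mem_insert, not_or]
        exact ⟨hoc, hoD2⟩
      · intro _
        rw [sg_insert u hcD2, sg_insert u hbE]
        omega
  · -- path B
    obtain ⟨e, heE, he⟩ : ∃ e ∈ E, u e + sg u (D \ G) ≤ d := by
      by_contra hcon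
      push Not at hcon
      have h1 : ∀ g ∈ G, ∀ e ∈ E, u g ≤ u e := by
        intro g hg e he
        obtain ⟨g', hg'⟩ : (G.erase g).Nonempty := Finset.card_pos.mp (by
          rw [Finset.card_erase_of_mem hg]; omega)
        have hg'G := Finset.mem_of_mem_erase hg'
        have hgg' : g ≠ g' := fun h => (Finset.mem_erase.mp hg').1 h.symm
        have n1 : g' ∉ D \ G := fun h => (Finset.mem_sdiff.mp h).2 hg'G
        have n2 : g ∉ insert g' (D \ G) := by
          rw [Finset.mem_insert, not_or]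
          exact ⟨hgg', fun h => (Finset.mem_sdiff.mp h).2 hg⟩
        have h2 := hl (insert g (insert g' (D \ G)))
          (Finset.insert_subset (hGD hg) (Finset.insert_subset (hGD hg'G) Finset.sdiff_subset))
          (by rw [Finset.card_insert_of_notMem n2, Finset.card_insert_of_notMem n1]; omega)
        rw [sg_insert u n2, sg_insert u n1] at h2
        have h3 := hcon e he
        omega
      obtain ⟨g0, hg0⟩ : G.Nonempty := Finset.card_pos.mp (by omega)
      have h2 : sg u (D \ G) ≤ sg u E := by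
        apply cmp u (by omega)
        intro a ha e he
        exact le_trans (hGt g0 hg0 a ha) (h1 g0 hg0 e he)
      omega
    have hoe : o ≠ e := fun h => hoE (h ▸ heE)
    have heG : e ∉ G := fun h => Finset.disjoint_left.mp hEG heE h
    have heD2 : e ∉ D \ G := fun h => Finset.disjoint_left.mp hED2 heE h
    have hbe : b ≠ e := fun h => hbE (h ▸ heE)
    have hce : c ≠ e := fun h => hcE (h ▸ heE)
    have hBD2 : Bn u r d (insert e (D \ G)) o := by
      refine ⟨by rw [Finset.card_insert_of_notMem heD2]; omega, ?_, ?_, ?_⟩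
      · simp only [Finset.mem_insert, not_or]
        exact ⟨hoe, hoD2⟩
      · rw [sg_insert u heD2]; omega
      · rw [sg_insert u heD2]; omega
    have hBGc : Bn u r d G c := ⟨hGc, hcG, by omega, by omega⟩
    have hdis : Disjoint G (insert e (D \ G)) := by
      rw [Finset.disjoint_insert_right]; exact ⟨heG, hGD2⟩
    refine hstep1.trans (Cn.trans (q := (insert e (D \ G), o)) ?_
      (Cn.trans (q := (G, c)) (Cn.symm ?_) (Cn.symm ?_)))
    · refine adj_ne hBGb hBD2 hdis ?_ hoG (Ne.symm hob)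
      simp only [Finset.mem_insert, not_or]
      exact ⟨hbe, hbD2⟩
    · refine adj_ne hBGc hBD2 hdis ?_ hoG (Ne.symm hoc)
      simp only [Finset.mem_insert, not_or]
      exact ⟨hce, hcD2⟩
    · refine adj_ne hB2' hBGc ?_ hoG ?_ hoc
      · rw [Finset.disjoint_insert_left]; exact ⟨hbG, hEG⟩
      · simp only [Finset.mem_insert, not_or]
        exact ⟨hbc.symm, hcE⟩

/-- the single exchange step, heavy case -/
lemma heavy (o b c : ι) (E D : Finset ι) (hr : 2 ≤ r)
    (hE : E.card + 1 = r) (hD : D.card + 1 = 2 * r)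
    (hoE : o ∉ E) (hoD : o ∉ D) (hob : o ≠ b) (hoc : o ≠ c) (hbc : b ≠ c)
    (hbE : b ∉ E) (hbD : b ∉ D) (hcE : c ∉ E) (hcD : c ∉ D) (hED : Disjoint E D)
    (hmax : ∀ i, u i ≤ u o) (htot : u o + u b + u c + sg u E + sg u D = 3 * d)
    (hB1 : Bn u r d (insert c E) o) (hB2 : Bn u r d (insert b E) o)
    (hh : ∀ R ⊆ D, R.card = r → d < sg u R) :
    Cn u r d (insert b E, o) (insert c E, o) := by
  obtain ⟨T, hTD, hTc⟩ := Finset.exists_subset_card_eq (s := D) (n := r) (by omega)
  obtain ⟨y0, hy0⟩ : T.Nonempty := Finset.card_pos.mp (by omega)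
  obtain ⟨y1, hy1'⟩ : (T.erase y0).Nonempty := Finset.card_pos.mp (by
    rw [Finset.card_erase_of_mem hy0]; omega)
  have hy1 : y1 ∈ T := Finset.mem_of_mem_erase hy1'
  have hy10 : y1 ≠ y0 := (Finset.mem_erase.mp hy1').1
  obtain ⟨e0, he0⟩ : E.Nonempty := Finset.card_pos.mp (by omega)
  set R0 := D \ T with hR0
  have hR0c : R0.card + 1 = r := by
    rw [hR0, Finset.card_sdiff_of_subset hTD]; omega
  have hR0s : sg u R0 + sg u T = sg u D := sg_sdiff u hTD
  have hTd := hh T hTD hTc
  have hR0D : R0 ⊆ D := Finset.sdiff_subset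
  have hR0T : Disjoint R0 T := Finset.sdiff_disjoint
  have hET : Disjoint E T := Finset.disjoint_of_subset_right hTD hED
  have hER0 : Disjoint E R0 := Finset.disjoint_of_subset_right hR0D hED
  have sB1 := sg_insert u hcE
  have sB2 := sg_insert u hbE
  have hoT : o ∉ T := fun h => hoD (hTD h)
  have hoR0 : o ∉ R0 := fun h => hoD (hR0D h)
  have hbT : b ∉ T := fun h => hbD (hTD h)
  have hbR0 : b ∉ R0 := fun h => hbD (hR0D h)
  have hcT : c ∉ T := fun h => hcD (hTD h)
  have hcR0 : c ∉ R0 := fun h => hcD (hR0D h)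
  obtain ⟨_, _, b13, b14⟩ := hB1
  obtain ⟨_, _, b23, b24⟩ := hB2
  rw [sB1] at b13 b14
  rw [sB2] at b23 b24
  have hB1' : Bn u r d (insert c E) o := by
    refine ⟨by rw [Finset.card_insert_of_notMem hcE, hE], ?_, by omega, by omega⟩
    simp [hoc, hoE]
  have hB2' : Bn u r d (insert b E) o := by
    refine ⟨by rw [Finset.card_insert_of_notMem hbE, hE], ?_, by omega, by omega⟩
    simp [hob, hoE]
  have hbρ : u b + sg u R0 < d := by omega
  have hcρ : u c + sg u R0 < d := by omega
  have hy0R0 : y0 ∉ R0 := fun h => Finset.disjoint_left.mp hR0T h hy0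
  have hy1R0 : y1 ∉ R0 := fun h => Finset.disjoint_left.mp hR0T h hy1
  have hρ : ∀ y ∈ T, d < u y + sg u R0 := by
    intro y hy
    have hyR0 : y ∉ R0 := fun h => Finset.disjoint_left.mp hR0T h hy
    have h1 := hh (insert y R0) (Finset.insert_subset (hTD hy) hR0D)
      (by rw [Finset.card_insert_of_notMem hyR0]; omega)
    rwa [sg_insert u hyR0] at h1
  -- basic nodes
  have hnode : ∀ y ∈ T, ∀ l : ι, l ∉ R0 → l ≠ y → u l + sg u R0 < d →
      Bn u r d (insert l R0) y := by
    intro y hy l hl hly hlt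
    have hyR0 : y ∉ R0 := fun h => Finset.disjoint_left.mp hR0T h hy
    have h1 := hρ y hy
    refine ⟨by rw [Finset.card_insert_of_notMem hl]; omega, ?_, ?_, ?_⟩
    · rw [Finset.mem_insert, not_or]
      exact ⟨hly.symm, hyR0⟩
    · rw [sg_insert u hl]; omega
    · rw [sg_insert u hl]; omega
  have ney : ∀ y ∈ T, o ≠ y ∧ b ≠ y ∧ c ≠ y ∧ y ∉ E := fun y hy =>
    ⟨fun h => hoT (h ▸ hy), fun h => hbT (h ▸ hy), fun h => hcT (h ▸ hy),
      fun h => Finset.disjoint_left.mp hET h hy⟩
  -- the case where some `r`-subset of `W` is small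
  have caseW : ∀ y ∈ T, (∃ R ⊆ insert o (E ∪ T.erase y), R.card = r ∧ sg u R ≤ d) →
      Cn u r d (insert b E, o) (insert c E, o) := by
    intro y hy hR
    obtain ⟨n1, n2, n3, n4⟩ := ney y hy
    have hoTy : o ∉ T.erase y := fun h => hoT (Finset.mem_of_mem_erase h)
    have hTyE : e0 ∉ T.erase y := fun h =>
      Finset.disjoint_left.mp hET he0 (Finset.mem_of_mem_erase h)
    have hoe0 : o ≠ e0 := fun h => hoE (h ▸ he0)
    obtain ⟨R, hRW, z, hzW, hzR, hRc, hRd, hRz⟩ :=
      slide u (insert o (E ∪ T.erase y)) r d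
      ⟨insert e0 (insert o (T.erase y)), by
        apply Finset.insert_subset
        · simp [he0]
        · apply Finset.insert_subset_insert
          exact Finset.subset_union_right, by
        rw [Finset.card_insert_of_notMem, Finset.card_insert_of_notMem hoTy,
          Finset.card_erase_of_mem hy]
        · omega
        · rw [Finset.mem_insert, not_or]
          exact ⟨hoe0.symm, hTyE⟩, by
        rw [sg_insert u, sg_insert u hoTy]
        · have h1 := sg_erase u hy
          have h2 := hmax y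
          omega
        · rw [Finset.mem_insert, not_or]
          exact ⟨hoe0.symm, hTyE⟩⟩ hR
    have hBR : Bn u r d R z := ⟨hRc, hzR, hRd, hRz⟩
    have memW : ∀ w ∈ insert o (E ∪ T.erase y), w ∉ R0 ∧ w ≠ b ∧ w ≠ c ∧ w ≠ y := by
      intro w hw
      rw [Finset.mem_insert, Finset.mem_union] at hw
      rcases hw with rfl | hw | hw
      · exact ⟨hoR0, hob, hoc, n1⟩
      · exact ⟨fun h => Finset.disjoint_left.mp hER0 hw h, fun h => hbE (h ▸ hw),
          fun h => hcE (h ▸ hw), fun h => n4 (h ▸ hw)⟩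
      · rw [Finset.mem_erase] at hw
        exact ⟨fun h => Finset.disjoint_left.mp hR0T h hw.2, fun h => hbT (h ▸ hw.2),
          fun h => hcT (h ▸ hw.2), hw.1⟩
    have hyR : y ∉ R := fun h => (memW y (hRW h)).2.2.2 rfl
    have hR0R : Disjoint R0 R := by
      rw [Finset.disjoint_left]
      intro w h1 h2
      exact (memW w (hRW h2)).1 h1
    have hbR : b ∉ R := fun h => (memW b (hRW h)).2.1 rfl
    have hcR : c ∉ R := fun h => (memW c (hRW h)).2.2.1 rfl
    obtain ⟨z1, z2, z3, z4⟩ := memW z hzW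
    have hBc := hnode y hy c hcR0 n3 hcρ
    have hBb := hnode y hy b hbR0 n2 hbρ
    refine Cn.trans (q := (insert c R0, y)) ?_ (Cn.trans (q := (R, z)) ?_
      (Cn.trans (q := (insert b R0, y)) (Cn.symm ?_) (Cn.symm ?_)))
    · refine adj_ne hB2' hBc ?_ ?_ ?_ n1
      · rw [Finset.disjoint_insert_left, Finset.disjoint_insert_right]
        refine ⟨?_, hcE, hER0⟩
        rw [Finset.mem_insert, not_or]
        exact ⟨hbc, hbR0⟩
      · rw [Finset.mem_insert, not_or]
        exact ⟨hoc, hoR0⟩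
      · rw [Finset.mem_insert, not_or]
        exact ⟨n2.symm, n4⟩
    · refine adj_ne hBc hBR ?_ hyR ?_ z4.symm
      · rw [Finset.disjoint_insert_left]; exact ⟨hcR, hR0R⟩
      · rw [Finset.mem_insert, not_or]; exact ⟨z3, z1⟩
    · refine adj_ne hBb hBR ?_ hyR ?_ z4.symm
      · rw [Finset.disjoint_insert_left]; exact ⟨hbR, hR0R⟩
      · rw [Finset.mem_insert, not_or]; exact ⟨z2, z1⟩
    · refine adj_ne hB1' hBb ?_ ?_ ?_ n1
      · rw [Finset.disjoint_insert_left, Finset.disjoint_insert_right]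
        refine ⟨?_, hbE, hER0⟩
        rw [Finset.mem_insert, not_or]
        exact ⟨hbc.symm, hcR0⟩
      · rw [Finset.mem_insert, not_or]
        exact ⟨hob, hoR0⟩
      · rw [Finset.mem_insert, not_or]
        exact ⟨n3.symm, n4⟩
  by_cases hW0 : ∃ R ⊆ insert o (E ∪ T.erase y0), R.card = r ∧ sg u R ≤ d
  · exact caseW y0 hy0 hW0
  by_cases hW1 : ∃ R ⊆ insert o (E ∪ T.erase y1), R.card = r ∧ sg u R ≤ d
  · exact caseW y1 hy1 hW1
  push Not at hW0 hW1
  -- the odd cycle
  obtain ⟨n01, n02, n03, n04⟩ := ney y0 hy0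
  obtain ⟨n11, n12, n13, n14⟩ := ney y1 hy1
  set Z := E.erase e0 ∪ (T.erase y0).erase y1 with hZ
  have hdisZ : Disjoint (E.erase e0) ((T.erase y0).erase y1) := by
    rw [Finset.disjoint_left]
    intro w h1 h2
    exact Finset.disjoint_left.mp hET (Finset.mem_of_mem_erase h1)
      (Finset.mem_of_mem_erase (Finset.mem_of_mem_erase h2))
  have hZc : Z.card = 2 * (r - 2) := by
    rw [hZ, Finset.card_union_of_disjoint hdisZ, Finset.card_erase_of_mem he0,
      Finset.card_erase_of_mem hy1', Finset.card_erase_of_mem hy0]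
    omega
  have hZs : sg u Z + u e0 + u y0 + u y1 = sg u E + sg u T := by
    rw [hZ, sg_union u hdisZ]
    have h1 := sg_erase u he0
    have h2 := sg_erase u hy1'
    have h3 := sg_erase u hy0
    omega
  have hme := hmax e0
  have hmy0 := hmax y0
  have hmb := hmax b
  have hmc := hmax c
  have hρ1 := hρ y1 hy1
  -- data for a choice of labels
  have memZ : ∀ w ∈ Z, w ∉ R0 ∧ w ≠ b ∧ w ≠ c ∧ w ≠ y0 ∧ w ≠ y1 ∧ w ≠ o ∧ w ≠ e0 ∧
      (w ∈ E ∨ w ∈ T) := by
    intro w hw
    rw [hZ, Finset.mem_union] at hw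
    rcases hw with hw | hw
    · rw [Finset.mem_erase] at hw
      exact ⟨fun h => Finset.disjoint_left.mp hER0 hw.2 h, fun h => hbE (h ▸ hw.2),
        fun h => hcE (h ▸ hw.2), fun h => n04 (h ▸ hw.2), fun h => n14 (h ▸ hw.2),
        fun h => hoE (h ▸ hw.2), hw.1, Or.inl hw.2⟩
    · rw [Finset.mem_erase, Finset.mem_erase] at hw
      obtain ⟨w1, w2, w3⟩ := hw
      exact ⟨fun h => Finset.disjoint_left.mp hR0T h w3, fun h => hbT (h ▸ w3),
        fun h => hcT (h ▸ w3), w2, w1, fun h => hoT (h ▸ w3),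
        fun h => Finset.disjoint_left.mp hET he0 (h ▸ w3), Or.inr w3⟩
  have main : ∀ l l' : ι, l ≠ l' → (l = b ∨ l = c) → (l' = b ∨ l' = c) →
      |((u e0 : ℤ) - u y0) + (u l - u l')| ≤ u o →
      ∃ A B' : Finset ι, A ⊆ Z ∧ B' ⊆ Z ∧ Disjoint A B' ∧
        Bn u r d (insert l (insert e0 A)) y1 ∧ Bn u r d (insert l' (insert y0 B')) o := by
    intro l l' hll hl hl' ht
    obtain ⟨A, hAZ, hAc, hAt⟩ := balance u (u o) (r - 2) Z hZc (fun i _ => hmax i) _ ht
    have hB'c : (Z \ A).card = r - 2 := by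
      rw [Finset.card_sdiff_of_subset hAZ]; omega
    have hBs : sg u (Z \ A) + sg u A = sg u Z := sg_sdiff u hAZ
    have hB'Z : Z \ A ⊆ Z := Finset.sdiff_subset
    have hlA : l ∉ A := by
      intro h
      obtain ⟨_, m1, m2, _⟩ := memZ l (hAZ h)
      rcases hl with h | h
      · exact m1 h
      · exact m2 h
    have hl'B : l' ∉ Z \ A := by
      intro h
      obtain ⟨_, m1, m2, _⟩ := memZ l' (hB'Z h)
      rcases hl' with h | h
      · exact m1 h
      · exact m2 h
    have he0A : e0 ∉ A := fun h => (memZ e0 (hAZ h)).2.2.2.2.2.2.1 rfl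
    have hy0B : y0 ∉ Z \ A := fun h => (memZ y0 (hB'Z h)).2.2.2.1 rfl
    have hle0 : l ≠ e0 := by
      rintro rfl
      rcases hl with h | h
      · exact hbE (h ▸ he0)
      · exact hcE (h ▸ he0)
    have hl'y0 : l' ≠ y0 := by
      rintro rfl
      rcases hl' with h | h
      · exact n02 h.symm
      · exact n03 h.symm
    have hly1 : l ≠ y1 := by
      rintro rfl
      rcases hl with h | h
      · exact n12 h.symm
      · exact n13 h.symm
    have hl'o : l' ≠ o := by
      rintro rfl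
      rcases hl' with h | h
      · exact hob h
      · exact hoc h
    have hll2 : u l + u l' = u b + u c := by
      rcases hl with rfl | rfl <;> rcases hl' with rfl | rfl
      · exact absurd rfl hll
      · rfl
      · exact add_comm _ _
      · exact absurd rfl hll
    have q1 : l ∉ insert e0 A := by
      rw [Finset.mem_insert, not_or]; exact ⟨hle0, hlA⟩
    have q2 : l' ∉ insert y0 (Z \ A) := by
      rw [Finset.mem_insert, not_or]; exact ⟨hl'y0, hl'B⟩
    have sA : sg u (insert l (insert e0 A)) = u l + (u e0 + sg u A) := by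
      rw [sg_insert u q1, sg_insert u he0A]
    have sB : sg u (insert l' (insert y0 (Z \ A))) = u l' + (u y0 + sg u (Z \ A)) := by
      rw [sg_insert u q2, sg_insert u hy0B]
    -- lower bounds
    have y1A : y1 ∉ insert e0 A := by
      rw [Finset.mem_insert, not_or]
      exact ⟨fun h => n14 (h ▸ he0), fun h => (memZ y1 (hAZ h)).2.2.2.2.1 rfl⟩
    have oB : o ∉ insert y0 (Z \ A) := by
      rw [Finset.mem_insert, not_or]
      exact ⟨n01, fun h => (memZ o (hB'Z h)).2.2.2.2.2.1 rfl⟩
    have lowA : d < u y1 + (u e0 + sg u A) := by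
      have h1 := hW0 (insert y1 (insert e0 A)) (by
        apply Finset.insert_subset
        · simp [hy1', hy10, hy1]
        · apply Finset.insert_subset
          · simp [he0]
          · intro w hw
            have hw' := hAZ hw
            rw [hZ, Finset.mem_union] at hw'
            rw [Finset.mem_insert, Finset.mem_union]
            rcases hw' with hw' | hw'
            · exact Or.inr (Or.inl (Finset.mem_of_mem_erase hw'))
            · exact Or.inr (Or.inr (Finset.mem_of_mem_erase hw')))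
        (by rw [Finset.card_insert_of_notMem y1A, Finset.card_insert_of_notMem he0A]; omega)
      rwa [sg_insert u y1A, sg_insert u he0A] at h1
    have lowB : d < u o + (u y0 + sg u (Z \ A)) := by
      have h1 := hW1 (insert o (insert y0 (Z \ A))) (by
        apply Finset.insert_subset_insert
        apply Finset.insert_subset
        · rw [Finset.mem_union, Finset.mem_erase]
          exact Or.inr ⟨hy10.symm, hy0⟩
        · intro w hw
          have hw' := hB'Z hw
          rw [hZ, Finset.mem_union] at hw'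
          rw [Finset.mem_union]
          rcases hw' with hw' | hw'
          · exact Or.inl (Finset.mem_of_mem_erase hw')
          · rw [Finset.mem_erase, Finset.mem_erase] at hw'
            exact Or.inr (Finset.mem_erase.mpr ⟨hw'.1, hw'.2.2⟩))
        (by rw [Finset.card_insert_of_notMem oB, Finset.card_insert_of_notMem hy0B]; omega)
      rwa [sg_insert u oB, sg_insert u hy0B] at h1
    rw [abs_le] at hAt
    refine ⟨A, Z \ A, hAZ, hB'Z, Finset.disjoint_sdiff, ?_, ?_⟩
    · refine ⟨?_, ?_, ?_, ?_⟩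
      · rw [Finset.card_insert_of_notMem q1, Finset.card_insert_of_notMem he0A]; omega
      · rw [Finset.mem_insert, not_or]
        exact ⟨hly1.symm, y1A⟩
      · rw [sA]; omega
      · rw [sA]; omega
    · refine ⟨?_, ?_, ?_, ?_⟩
      · rw [Finset.card_insert_of_notMem q2, Finset.card_insert_of_notMem hy0B]; omega
      · rw [Finset.mem_insert, not_or]
        exact ⟨hl'o.symm, oB⟩
      · rw [sB]; omega
      · rw [sB]; omega
  -- the path for a choice of labels
  have pathdis : ∀ A B' : Finset ι, A ⊆ Z → B' ⊆ Z → Disjoint A B' → ∀ l l' : ι, l ≠ l' →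
      (l = b ∨ l = c) → (l' = b ∨ l' = c) →
      Bn u r d (insert l (insert e0 A)) y1 → Bn u r d (insert l' (insert y0 B')) o →
      Cn u r d (insert l' R0, y0) (insert l (insert e0 A), y1) ∧
      Cn u r d (insert l (insert e0 A), y1) (insert l' (insert y0 B'), o) ∧
      Cn u r d (insert l' (insert y0 B'), o) (insert l R0, y1) := by
    intro A B' hAZ hBZ hAB l l' hll hl hl' hBA hBB
    have hlR0 : l ∉ R0 ∧ u l + sg u R0 < d := by
      rcases hl with rfl | rfl
      · exact ⟨hbR0, hbρ⟩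
      · exact ⟨hcR0, hcρ⟩
    have hl'R0 : l' ∉ R0 ∧ u l' + sg u R0 < d := by
      rcases hl' with rfl | rfl
      · exact ⟨hbR0, hbρ⟩
      · exact ⟨hcR0, hcρ⟩
    have hlmem : l ∉ Z ∧ l ≠ y0 ∧ l ≠ y1 ∧ l ≠ o ∧ l ≠ e0 := by
      rcases hl with rfl | rfl
      · exact ⟨fun h => (memZ _ h).2.1 rfl, n02, n12, hob.symm, fun h => hbE (h ▸ he0)⟩
      · exact ⟨fun h => (memZ _ h).2.2.1 rfl, n03, n13, hoc.symm, fun h => hcE (h ▸ he0)⟩
    have hl'mem : l' ∉ Z ∧ l' ≠ y0 ∧ l' ≠ y1 ∧ l' ≠ o ∧ l' ≠ e0 := by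
      rcases hl' with rfl | rfl
      · exact ⟨fun h => (memZ _ h).2.1 rfl, n02, n12, hob.symm, fun h => hbE (h ▸ he0)⟩
      · exact ⟨fun h => (memZ _ h).2.2.1 rfl, n03, n13, hoc.symm, fun h => hcE (h ▸ he0)⟩
    have he0R0 : e0 ∉ R0 := fun h => Finset.disjoint_left.mp hER0 he0 h
    have hAR0 : ∀ w ∈ A, w ∉ R0 := fun w hw => (memZ w (hAZ hw)).1
    have hBR0 : ∀ w ∈ B', w ∉ R0 := fun w hw => (memZ w (hBZ hw)).1
    have hy0A : y0 ∉ A := fun h => (memZ y0 (hAZ h)).2.2.2.1 rfl
    have hy1A : y1 ∉ A := fun h => (memZ y1 (hAZ h)).2.2.2.2.1 rfl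
    have hoA : o ∉ A := fun h => (memZ o (hAZ h)).2.2.2.2.2.1 rfl
    have hy1B : y1 ∉ B' := fun h => (memZ y1 (hBZ h)).2.2.2.2.1 rfl
    have he0B : e0 ∉ B' := fun h => (memZ e0 (hBZ h)).2.2.2.2.2.2.1 rfl
    have hy0e0 : y0 ≠ e0 := fun h => n04 (h ▸ he0)
    have hy1e0 : y1 ≠ e0 := fun h => n14 (h ▸ he0)
    have hoe0 : o ≠ e0 := fun h => hoE (h ▸ he0)
    refine ⟨?_, ?_, ?_⟩
    · refine adj_ne (hnode y0 hy0 l' hl'R0.1 hl'mem.2.1 hl'R0.2) hBA ?_ ?_ ?_ hy10.symm
      · rw [Finset.disjoint_insert_left, Finset.disjoint_insert_right,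
          Finset.disjoint_insert_right]
        refine ⟨?_, hlR0.1, he0R0, ?_⟩
        · simp only [Finset.mem_insert, not_or]
          exact ⟨hll.symm, hl'mem.2.2.2.2, fun h => hl'mem.1 (hAZ h)⟩
        · rw [Finset.disjoint_left]
          intro w h1 h2
          exact hAR0 w h2 h1
      · simp only [Finset.mem_insert, not_or]
        exact ⟨hlmem.2.1.symm, hy0e0, hy0A⟩
      · simp only [Finset.mem_insert, not_or]
        exact ⟨hl'mem.2.2.1.symm, hy1R0⟩
    · refine adj_ne hBA hBB ?_ ?_ ?_ (Ne.symm n11)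
      · rw [Finset.disjoint_insert_left, Finset.disjoint_insert_left,
          Finset.disjoint_insert_right, Finset.disjoint_insert_right]
        refine ⟨?_, ?_, ?_, ?_, hAB⟩
        · simp only [Finset.mem_insert, not_or]
          exact ⟨hll, hlmem.2.1, fun h => hlmem.1 (hBZ h)⟩
        · simp only [Finset.mem_insert, not_or]
          exact ⟨hl'mem.2.2.2.2.symm, hy0e0.symm, he0B⟩
        · exact fun h => hl'mem.1 (hAZ h)
        · exact hy0A
      · simp only [Finset.mem_insert, not_or]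
        exact ⟨hl'mem.2.2.1.symm, hy10, hy1B⟩
      · simp only [Finset.mem_insert, not_or]
        exact ⟨hlmem.2.2.2.1.symm, hoe0, hoA⟩
    · refine adj_ne hBB (hnode y1 hy1 l hlR0.1 hlmem.2.2.1 hlR0.2) ?_ ?_ ?_ n11
      · rw [Finset.disjoint_insert_right, Finset.disjoint_insert_left,
          Finset.disjoint_insert_left]
        refine ⟨?_, hl'R0.1, hy0R0, ?_⟩
        · simp only [Finset.mem_insert, not_or]
          exact ⟨hll, hlmem.2.1, fun h => hlmem.1 (hBZ h)⟩
        · rw [Finset.disjoint_left]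
          intro w h1 h2
          exact hBR0 w h1 h2
      · simp only [Finset.mem_insert, not_or]
        exact ⟨hlmem.2.2.2.1.symm, hoR0⟩
      · simp only [Finset.mem_insert, not_or]
        exact ⟨hl'mem.2.2.1.symm, hy10, hy1B⟩
  -- end nodes
  have hend : ∀ y ∈ T, Cn u r d (insert b E, o) (insert c R0, y) ∧
      Cn u r d (insert b R0, y) (insert c E, o) := by
    intro y hy
    obtain ⟨m1, m2, m3, m4⟩ := ney y hy
    refine ⟨?_, Cn.symm ?_⟩
    · refine adj_ne hB2' (hnode y hy c hcR0 m3 hcρ) ?_ ?_ ?_ m1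
      · rw [Finset.disjoint_insert_left, Finset.disjoint_insert_right]
        refine ⟨?_, hcE, hER0⟩
        rw [Finset.mem_insert, not_or]
        exact ⟨hbc, hbR0⟩
      · rw [Finset.mem_insert, not_or]
        exact ⟨hoc, hoR0⟩
      · rw [Finset.mem_insert, not_or]
        exact ⟨m2.symm, m4⟩
    · refine adj_ne hB1' (hnode y hy b hbR0 m2 hbρ) ?_ ?_ ?_ m1
      · rw [Finset.disjoint_insert_left, Finset.disjoint_insert_right]
        refine ⟨?_, hbE, hER0⟩
        rw [Finset.mem_insert, not_or]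
        exact ⟨hbc.symm, hcR0⟩
      · rw [Finset.mem_insert, not_or]
        exact ⟨hob, hoR0⟩
      · rw [Finset.mem_insert, not_or]
        exact ⟨m3.symm, m4⟩
  -- choose the labels
  by_cases hlab : |((u e0 : ℤ) - u y0) + (u b - u c)| ≤ u o
  · obtain ⟨A, B', h1, h2, h3, h4, h5⟩ := main b c hbc (Or.inl rfl) (Or.inr rfl) hlab
    obtain ⟨p1, p2, p3⟩ := pathdis A B' h1 h2 h3 b c hbc (Or.inl rfl) (Or.inr rfl) h4 h5
    exact (hend y0 hy0).1.trans (p1.trans (p2.trans (p3.trans (hend y1 hy1).2)))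
  · have hlab2 : |((u e0 : ℤ) - u y0) + (u c - u b)| ≤ u o := by
      rw [abs_le] at hlab ⊢
      rw [not_and_or] at hlab
      constructor <;> omega
    obtain ⟨A, B', h1, h2, h3, h4, h5⟩ := main c b hbc.symm (Or.inr rfl) (Or.inl rfl) hlab2
    obtain ⟨p1, p2, p3⟩ := pathdis A B' h1 h2 h3 c b hbc.symm (Or.inr rfl) (Or.inl rfl) h4 h5
    exact (hend y1 hy1).1.trans (p3.symm.trans (p2.symm.trans (p1.symm.trans (hend y0 hy0).2)))

end

end Pool.Agent.Helper46.PV
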