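import Pool.Agent.Helper46.PV.C
import Pool.Graph.R_seed8.Helper857.PVf

set_option autoImplicit false
set_option linter.unusedSectionVars false

/-!
Generators attached to basic nodes; linking of vertices in the fibre graph of degree 3.
-/

namespace Pool.Agent.Helper46.PV

open Pool.Agent.Helper857.PV

variable {n r d : ℕ}

lemma mk_gen {s : ℕ} (f : Fin n → ℕ) (hs : ∑ i, f i = d) (S : Finset (Fin n))
    (hS : S.card ≤ s) (h : ∀ i, i ∉ S → f i = 0) : ∃ g : Gen n d s, g.1 = f := by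
  refine ⟨⟨f, hs, le_trans (Finset.card_le_card ?_) hS⟩, rfl⟩
  intro i hi
  rw [Finset.mem_filter] at hi
  by_contra hc
  exact hi.2 (h i hc)

/-- the vector of a basic node -/
def bv (u : Fin n → ℕ) (d : ℕ) (P : Finset (Fin n)) (x : Fin n) : Fin n → ℕ :=
  fun i => if i ∈ P then u i else if i = x then d - sg u P else 0

lemma bv_mem {u : Fin n → ℕ} {P : Finset (Fin n)} {x i : Fin n} (h : i ∈ P) :
    bv u d P x i = u i := if_pos h

lemma bv_x {u : Fin n → ℕ} {P : Finset (Fin n)} {x : Fin n} (h : x ∉ P) :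
    bv u d P x x = d - sg u P := by
  unfold bv; rw [if_neg h, if_pos rfl]

lemma bv_out {u : Fin n → ℕ} {P : Finset (Fin n)} {x i : Fin n} (h : i ∉ P) (hx : i ≠ x) :
    bv u d P x i = 0 := by
  unfold bv; rw [if_neg h, if_neg hx]

lemma sum_ins_of_zero (f : Fin n → ℕ) (P : Finset (Fin n)) (x : Fin n) (hx : x ∉ P)
    (h : ∀ i, i ∉ P → i ≠ x → f i = 0) : ∑ i, f i = f x + ∑ i ∈ P, f i := by
  rw [← Finset.sum_insert hx]
  symm
  apply Finset.sum_subset (Finset.subset_univ _)
  intro i _ hi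
  rw [Finset.mem_insert, not_or] at hi
  exact h i hi.2 hi.1

lemma bv_sum {u : Fin n → ℕ} {P : Finset (Fin n)} {x : Fin n} (h : Bn u r d P x) :
    ∑ i, bv u d P x i = d := by
  obtain ⟨_, h2, h3, _⟩ := h
  rw [sum_ins_of_zero (bv u d P x) P x h2 (fun i h1 h2 => bv_out h1 h2), bv_x h2]
  have : ∑ i ∈ P, bv u d P x i = sg u P := Finset.sum_congr rfl (fun i hi => bv_mem hi)
  omega

lemma bv_le {u : Fin n → ℕ} {P : Finset (Fin n)} {x : Fin n} (h : Bn u r d P x) (i : Fin n) :
    bv u d P x i ≤ u i := by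
  obtain ⟨_, h2, h3, h4⟩ := h
  by_cases hi : i ∈ P
  · rw [bv_mem hi]
  · by_cases hx : i = x
    · rw [hx, bv_x h2]; omega
    · rw [bv_out hi hx]; exact Nat.zero_le _

lemma bv_gen {u : Fin n → ℕ} {P : Finset (Fin n)} {x : Fin n} (h : Bn u r d P x) :
    ∃ g : Gen n d (r + 1), g.1 = bv u d P x := by
  apply mk_gen _ (bv_sum h) (insert x P)
  · rw [Finset.card_insert_of_notMem h.2.1, h.1]
  · intro i hi
    rw [Finset.mem_insert, not_or] at hi
    exact bv_out hi.2 hi.1

lemma sum_sub' (f g : Fin n → ℕ) (h : ∀ t, g t ≤ f t) :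
    ∑ t, (f t - g t) + ∑ t, g t = ∑ t, f t := by
  rw [← Finset.sum_add_distrib]
  exact Finset.sum_congr rfl (fun t _ => Nat.sub_add_cancel (h t))

/-- two bins: `2 r + 1` colours always split -/
lemma two_split (w : Fin n → ℕ) (I : Finset (Fin n)) (hI : I.card = 2 * r + 1) (hr : 1 ≤ r)
    (h0 : ∀ i, i ∉ I → w i = 0) (hs : ∑ i, w i = 2 * d) :
    ∃ g h : Gen n d (r + 1), ∀ i, g.1 i + h.1 i = w i := by
  have hwI : sg w I = 2 * d := by
    rw [← hs]
    exact Finset.sum_subset (Finset.subset_univ _) (fun i _ hi => h0 i hi)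
  obtain ⟨T, hTI, hTc⟩ := Finset.exists_subset_card_eq (s := I) (n := r) (by omega)
  have hTs : sg w (I \ T) + sg w T = sg w I := sg_sdiff w hTI
  have hTc' : (I \ T).card = r + 1 := by
    rw [Finset.card_sdiff_of_subset hTI]; omega
  obtain ⟨z, hz⟩ : (I \ T).Nonempty := Finset.card_pos.mp (by omega)
  have hz' := Finset.mem_sdiff.mp hz
  have hzs := sg_erase w hz
  have hzc : ((I \ T).erase z).card = r := by
    rw [Finset.card_erase_of_mem hz]; omega
  have hzT : (insert z T).card = r + 1 := by rw [Finset.card_insert_of_notMem hz'.2, hTc]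
  have hzTs := sg_insert w hz'.2
  obtain ⟨R, hRI, y, hyI, hyR, hRc, hR1, hR2⟩ := slide w I r d
    (by
      by_contra hcon
      push Not at hcon
      have h1 := hcon (I \ T) Finset.sdiff_subset hTc'
      have h2 := hcon (insert z T) (Finset.insert_subset hz'.1 hTI) hzT
      omega)
    (by
      by_contra hcon
      push Not at hcon
      have h1 := hcon T hTI hTc
      have h2 := hcon ((I \ T).erase z)
        (fun i hi => (Finset.mem_sdiff.mp (Finset.mem_of_mem_erase hi)).1) hzc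
      omega)
  have hB : Bn w r d R y := ⟨hRc, hyR, hR1, hR2⟩
  obtain ⟨g, hg⟩ := bv_gen hB
  have hle := bv_le hB
  have e1 := sum_sub' w (bv w d R y) hle
  have e2 := bv_sum hB
  obtain ⟨h, hh⟩ := mk_gen (s := r + 1) (d := d) (fun i => w i - bv w d R y i) (by omega) (I \ R)
    (by rw [Finset.card_sdiff_of_subset hRI]; omega) (by
      intro i hi
      rw [Finset.mem_sdiff, not_and_or, not_not] at hi
      show w i - bv w d R y i = 0
      rcases hi with hi | hi
      · rw [h0 i hi]; omega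
      · rw [bv_mem hi]; omega)
  refine ⟨g, h, ?_⟩
  intro i
  rw [hg, hh]
  have := hle i
  show bv w d R y i + (w i - bv w d R y i) = w i
  omega

/-- three bins: existence of a basic node -/
lemma three_node (hn : n = 3 * r + 1) (hr : 1 ≤ r) (w : Fin n → ℕ) (hs : ∑ i, w i = 3 * d) :
    ∃ P x, Bn w r d P x := by
  have hst : sg w Finset.univ = 3 * d := hs
  have huc : (Finset.univ : Finset (Fin n)).card = 3 * r + 1 := by
    rw [Finset.card_univ, Fintype.card_fin, hn]
  obtain ⟨T1, -, hT1c⟩ := Finset.exists_subset_card_eq (s := (Finset.univ : Finset (Fin n)))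
    (n := r) (by omega)
  have h1c : T1ᶜ.card = 2 * r + 1 := by
    rw [Finset.card_compl, Fintype.card_fin, hT1c]; omega
  obtain ⟨T2, hT2, hT2c⟩ := Finset.exists_subset_card_eq (s := T1ᶜ) (n := r) (by omega)
  have h2c : (T1ᶜ \ T2).card = r + 1 := by
    rw [Finset.card_sdiff_of_subset hT2]; omega
  have s1 := sg_univ_split (u := w) T1
  have s2 : sg w (T1ᶜ \ T2) + sg w T2 = sg w T1ᶜ := sg_sdiff w hT2
  obtain ⟨z, hz⟩ : (T1ᶜ \ T2).Nonempty := Finset.card_pos.mp (by omega)
  have hz' := Finset.mem_sdiff.mp hz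
  have hz1 : z ∉ T1 := Finset.mem_compl.mp hz'.1
  have hzs := sg_erase w hz
  have hzc : ((T1ᶜ \ T2).erase z).card = r := by
    rw [Finset.card_erase_of_mem hz]; omega
  have hs1 := sg_insert w hz1
  have hs2 := sg_insert w hz'.2
  obtain ⟨R, -, y, -, hyR, hRc, hR1, hR2⟩ := slide w Finset.univ r d
    (by
      by_contra hcon
      push Not at hcon
      have h1 := hcon (insert z T1) (Finset.subset_univ _)
        (by rw [Finset.card_insert_of_notMem hz1, hT1c])
      have h2 := hcon (insert z T2) (Finset.subset_univ _)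
        (by rw [Finset.card_insert_of_notMem hz'.2, hT2c])
      have h3 := hcon (T1ᶜ \ T2) (Finset.subset_univ _) h2c
      omega)
    (by
      by_contra hcon
      push Not at hcon
      have h1 := hcon T1 (Finset.subset_univ _) hT1c
      have h2 := hcon T2 (Finset.subset_univ _) hT2c
      have h3 := hcon _ (Finset.subset_univ _) hzc
      omega)
  exact ⟨R, y, hRc, hyR, hR1, hR2⟩

/-- the remaining vector after removing a basic node splits -/
lemma node_vertex (hn : n = 3 * r + 1) (hr : 1 ≤ r) (w : Fin n → ℕ) (hs : ∑ i, w i = 3 * d)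
    {P : Finset (Fin n)} {x : Fin n} (hB : Bn w r d P x) :
    ∃ m b c : Gen n d (r + 1), m.1 = bv w d P x ∧ ∀ i, m.1 i + b.1 i + c.1 i = w i := by
  obtain ⟨m, hm⟩ := bv_gen hB
  have hle := bv_le hB
  have e1 := sum_sub' w (bv w d P x) hle
  have e2 := bv_sum hB
  obtain ⟨b, c, hbc⟩ := two_split (d := d) (r := r) (fun i => w i - bv w d P x i) Pᶜ
    (by rw [Finset.card_compl, Fintype.card_fin, hB.1]; omega) hr
    (by
      intro i hi
      rw [Finset.mem_compl, not_not] at hi
      show w i - bv w d P x i = 0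
      rw [bv_mem hi]; omega) (by omega)
  refine ⟨m, b, c, hm, ?_⟩
  intro i
  have h1 : b.1 i + c.1 i = w i - bv w d P x i := hbc i
  have h2 := hle i
  rw [hm]
  omega

/-- adjacent nodes complete to a factorisation -/
lemma ad_gen (hn : n = 3 * r + 1) {u : Fin n → ℕ} (hs : ∑ i, u i = 3 * d)
    {p q : Finset (Fin n) × Fin n} (h : Ad u r d p q) :
    ∃ g k c : Gen n d (r + 1), g.1 = bv u d p.1 p.2 ∧ k.1 = bv u d q.1 q.2 ∧
      ∀ i, g.1 i + k.1 i + c.1 i = u i := by
  obtain ⟨P, x⟩ := p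
  obtain ⟨Q, y⟩ := q
  obtain ⟨h1, h2, h3, h4, h5, h6⟩ := h
  simp only at h1 h2 h3 h4 h5 h6
  obtain ⟨g, hg⟩ := bv_gen h1
  obtain ⟨k, hk⟩ := bv_gen h2
  have hle : ∀ i, bv u d P x i + bv u d Q y i ≤ u i := by
    intro i
    have l1 := bv_le h1 i
    have l2 := bv_le h2 i
    by_cases hP : i ∈ P
    · have hQ : i ∉ Q := fun h => Finset.disjoint_left.mp h3 hP h
      have hiy : i ≠ y := fun h => h5 (h ▸ hP)
      rw [bv_out hQ hiy]; omega
    · by_cases hQ : i ∈ Q
      · have hix : i ≠ x := fun h => h4 (h ▸ hQ)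
        rw [bv_out hP hix]; omega
      · by_cases hx : i = x
        · by_cases hy : i = y
          · have hxy : x = y := hx ▸ hy
            have e := h6 hxy
            subst hx
            subst hy
            rw [bv_x h1.2.1, bv_x h2.2.1]
            have a1 := h1.2.2.1
            have a2 := h2.2.2.1
            omega
          · rw [bv_out hQ hy]; omega
        · rw [bv_out hP hx]; omega
  have e1 := sum_sub' u (fun i => bv u d P x i + bv u d Q y i) hle
  have e2 := bv_sum h1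
  have e3 := bv_sum h2
  rw [Finset.sum_add_distrib, e2, e3] at e1
  have hPQ : (P ∪ Q).card = 2 * r := by
    rw [Finset.card_union_of_disjoint h3, h1.1, h2.1]; ring
  obtain ⟨c, hc⟩ := mk_gen (s := r + 1) (d := d)
    (fun i => u i - (bv u d P x i + bv u d Q y i)) (by omega) (P ∪ Q)ᶜ
    (by rw [Finset.card_compl, Fintype.card_fin, hPQ]; omega) (by
      intro i hi
      rw [Finset.mem_compl, not_not, Finset.mem_union] at hi
      show u i - (bv u d P x i + bv u d Q y i) = 0
      rcases hi with hi | hi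
      · rw [bv_mem hi]; omega
      · rw [bv_mem (x := y) hi]; omega)
  refine ⟨g, k, c, hg, hk, ?_⟩
  intro i
  rw [hg, hk, hc]
  have := hle i
  show bv u d P x i + bv u d Q y i + (u i - (bv u d P x i + bv u d Q y i)) = u i
  omega

section
variable (K : Type) [Field K]

/-- linked vertices of the fibre of `u` (degree 3) -/
def Lk (s d : ℕ) (u f g : Fin n → ℕ) : Prop :=
  ∀ m b c m' b' c' : Gen n d s, m.1 = f → m'.1 = g →
    (∀ i, m.1 i + b.1 i + c.1 i = u i) → (∀ i, m'.1 i + b'.1 i + c'.1 i = u i) →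
    Re K (m ::ₘ b ::ₘ c ::ₘ 0) (m' ::ₘ b' ::ₘ c' ::ₘ 0)

variable {K}
variable {s : ℕ} {u : Fin n → ℕ}

lemma Lk.refl (f : Fin n → ℕ) : Lk K s d u f f := by
  intro m b c m' b' c' hm hm' h h'
  have e : m = m' := Subtype.ext (by rw [hm, hm'])
  subst e
  apply mv23
  funext i
  have h1 := h i
  have h2 := h' i
  show b.1 i + c.1 i = b'.1 i + c'.1 i
  omega

lemma Lk.symm {f g : Fin n → ℕ} (h : Lk K s d u f g) : Lk K s d u g f := by
  intro m b c m' b' c' hm hm' h1 h2
  exact (h m' b' c' m b c hm' hm h2 h1).symm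

lemma Lk.trans {f g k : Fin n → ℕ} (h : Lk K s d u f g) (h' : Lk K s d u g k)
    (hV : ∃ m b c : Gen n d s, m.1 = g ∧ ∀ i, m.1 i + b.1 i + c.1 i = u i) :
    Lk K s d u f k := by
  obtain ⟨m0, b0, c0, hm0, h0⟩ := hV
  intro m b c m' b' c' hm hm' h1 h2
  exact (h m b c m0 b0 c0 hm hm0 h1 h0).trans (h' m0 b0 c0 m' b' c' hm0 hm' h0 h2)

lemma Lk.of_adj (m0 m1 c0 : Gen n d s) (h0 : ∀ i, m0.1 i + m1.1 i + c0.1 i = u i) :
    Lk K s d u m0.1 m1.1 := by
  intro m b c m' b' c' hm hm' h h'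
  have e : m = m0 := Subtype.ext hm
  have e' : m' = m1 := Subtype.ext hm'
  subst e
  subst e'
  have s1 : Re K (m ::ₘ b ::ₘ c ::ₘ 0) (m ::ₘ m' ::ₘ c0 ::ₘ 0) := by
    apply mv23
    funext i
    have h1 := h i
    have h2 := h0 i
    show b.1 i + c.1 i = m'.1 i + c0.1 i
    omega
  have s2 : Re K (m' ::ₘ m ::ₘ c0 ::ₘ 0) (m' ::ₘ b' ::ₘ c' ::ₘ 0) := by
    apply mv23
    funext i
    have h1 := h' i
    have h2 := h0 i
    show m.1 i + c0.1 i = b'.1 i + c'.1 i
    omega
  rw [Multiset.cons_swap] at s2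
  exact s1.trans s2

lemma Lk_of_Cn (hn : n = 3 * r + 1) (hr : 1 ≤ r) (hs : ∑ i, u i = 3 * d)
    {p q : Finset (Fin n) × Fin n} (h : Cn u r d p q) :
    p = q ∨ (Bn u r d p.1 p.2 ∧ Bn u r d q.1 q.2 ∧
      Lk K (r + 1) d u (bv u d p.1 p.2) (bv u d q.1 q.2)) := by
  unfold Cn at h
  induction h with
  | rel p q h =>
    right
    refine ⟨h.1, h.2.1, ?_⟩
    obtain ⟨g, k, c, hg, hk, hc⟩ := ad_gen hn hs h
    rw [← hg, ← hk]
    exact Lk.of_adj g k c hc
  | refl p => left; rfl
  | symm p q _ ih =>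
    rcases ih with ih | ⟨h1, h2, h3⟩
    · left; exact ih.symm
    · right; exact ⟨h2, h1, h3.symm⟩
  | trans p q t _ _ ih1 ih2 =>
    rcases ih1 with ih1 | ⟨h1, h2, h3⟩
    · rw [ih1]; exact ih2
    · rcases ih2 with ih2 | ⟨k1, k2, k3⟩
      · rw [← ih2]; right; exact ⟨h1, h2, h3⟩
      · right
        exact ⟨h1, k2, h3.trans k3 (node_vertex hn hr u hs h2)⟩

/-- all basic vertices are linked -/
theorem nodes_linked (hn : n = 3 * r + 1) (hr : 2 ≤ r) (hs : ∑ i, u i = 3 * d)
    {P Q : Finset (Fin n)} {x y : Fin n} (h : Bn u r d P x) (h' : Bn u r d Q y) :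
    Lk K (r + 1) d u (bv u d P x) (bv u d Q y) := by
  have h1 := nodes_conn (u := u) (r := r) (d := d) (by rw [Fintype.card_fin, hn]) hr hs P Q x y h h'
  rcases Lk_of_Cn (K := K) hn (by omega) hs h1 with h2 | ⟨_, _, h2⟩
  · have e1 : P = Q := congrArg Prod.fst h2
    have e2 : x = y := congrArg Prod.snd h2
    rw [e1, e2]
    exact Lk.refl _
  · exact h2

end

end Pool.Agent.Helper46.PV
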