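import Pool.Agent.Helper46.PV.D

set_option autoImplicit false
set_option linter.unusedSectionVars false

/-!
Every factorisation with three bins is connected to one containing a basic vertex.
-/

namespace Pool.Agent.Helper46.PV

open Pool.Agent.Helper857.PV

variable {n s d : ℕ}

/-- support -/
def sp (a : Gen n d s) : Finset (Fin n) := Finset.univ.filter (fun i => a.1 i ≠ 0)

lemma mem_sp {a : Gen n d s} {i : Fin n} : i ∈ sp a ↔ a.1 i ≠ 0 := by
  unfold sp; simp

lemma sp_card (a : Gen n d s) : (sp a).card ≤ s := a.2.2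

/-- size of the support -/
def sc (a : Gen n d s) : ℕ := (sp a).card

lemma sum_two (f g : Fin n → ℕ) (x y : Fin n) (hxy : x ≠ y)
    (h : ∀ i, i ≠ x → i ≠ y → f i = g i) (hs : f x + f y = g x + g y) :
    ∑ i, f i = ∑ i, g i := by
  have key : ∀ k : Fin n → ℕ, ∑ i, k i = k x + (k y + ∑ i ∈ (Finset.univ.erase x).erase y, k i) := by
    intro k
    rw [← Finset.add_sum_erase Finset.univ k (Finset.mem_univ x),
      ← Finset.add_sum_erase (Finset.univ.erase x) k
        (Finset.mem_erase.mpr ⟨hxy.symm, Finset.mem_univ y⟩)]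
  rw [key f, key g]
  have : ∑ i ∈ (Finset.univ.erase x).erase y, f i = ∑ i ∈ (Finset.univ.erase x).erase y, g i := by
    apply Finset.sum_congr rfl
    intro i hi
    rw [Finset.mem_erase, Finset.mem_erase] at hi
    exact h i hi.2.1 hi.1
  omega

/-- cancelling a 4-cycle -/
lemma cancel4 (a b : Gen n d s) (x y : Fin n) (hxy : x ≠ y) (ax : a.1 x ≠ 0) (ay : a.1 y ≠ 0)
    (bx : b.1 x ≠ 0) (bY : b.1 y ≠ 0) :
    ∃ a' b' : Gen n d s, (∀ i, a.1 i + b.1 i = a'.1 i + b'.1 i) ∧ sc a' + sc b' < sc a + sc b := by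
  have red : ∀ (p q : Gen n d s) (z w : Fin n), z ≠ w → p.1 z ≠ 0 → p.1 w ≠ 0 → q.1 z ≠ 0 →
      q.1 w ≠ 0 → p.1 z ≤ q.1 w →
      ∃ p' q' : Gen n d s, (∀ i, p.1 i + q.1 i = p'.1 i + q'.1 i) ∧
        sc p' + sc q' < sc p + sc q := by
    intro p q z w hzw pz pw qz qw hle
    have sp1 : ∑ i, (fun i => if i = z then 0 else if i = w then p.1 w + p.1 z else p.1 i) i = d := by
      refine Eq.trans ?_ p.2.1
      apply sum_two _ _ z w hzw
      · intro i h1 h2; simp only [if_neg h1, if_neg h2]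
      · simp only [if_pos, if_neg hzw.symm]; omega
    have sp2 : ∑ i, (fun i => if i = z then q.1 z + p.1 z else if i = w then q.1 w - p.1 z
        else q.1 i) i = d := by
      refine Eq.trans ?_ q.2.1
      apply sum_two _ _ z w hzw
      · intro i h1 h2; simp only [if_neg h1, if_neg h2]
      · simp only [if_pos, if_neg hzw.symm]; omega
    obtain ⟨p', hp'⟩ := mk_gen (s := s) _ sp1 ((sp p).erase z)
      (le_trans (Finset.card_le_card (Finset.erase_subset _ _)) (sp_card p)) (by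
        intro i hi
        rw [Finset.mem_erase, not_and_or, not_not, mem_sp, not_not] at hi
        by_cases h1 : i = z
        · simp only [if_pos h1]
        · by_cases h2 : i = w
          · exfalso
            rcases hi with hi | hi
            · exact h1 hi
            · exact pw (h2 ▸ hi)
          · simp only [if_neg h1, if_neg h2]
            rcases hi with hi | hi
            · exact absurd hi h1
            · exact hi)
    obtain ⟨q', hq'⟩ := mk_gen (s := s) _ sp2 (sp q) (sp_card q) (by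
        intro i hi
        rw [mem_sp, not_not] at hi
        by_cases h1 : i = z
        · exact absurd (h1 ▸ hi) qz
        · by_cases h2 : i = w
          · exact absurd (h2 ▸ hi) qw
          · simp only [if_neg h1, if_neg h2]
            exact hi)
    refine ⟨p', q', ?_, ?_⟩
    · intro i
      rw [hp', hq']
      by_cases h1 : i = z
      · simp only [if_pos h1]; rw [h1]; omega
      · by_cases h2 : i = w
        · simp only [if_neg h1, if_pos h2]; rw [h2]; omega
        · simp only [if_neg h1, if_neg h2]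
    · have c1 : sc p' ≤ ((sp p).erase z).card := by
        apply Finset.card_le_card
        intro i hi
        rw [mem_sp, hp'] at hi
        rw [Finset.mem_erase, mem_sp]
        by_cases h1 : i = z
        · simp only [if_pos h1] at hi; exact absurd rfl hi
        · refine ⟨h1, ?_⟩
          by_cases h2 : i = w
          · rw [h2]; exact pw
          · simp only [if_neg h1, if_neg h2] at hi
            exact hi
      have c2 : sc q' ≤ sc q := by
        apply Finset.card_le_card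
        intro i hi
        rw [mem_sp, hq'] at hi
        rw [mem_sp]
        by_cases h1 : i = z
        · rw [h1]; exact qz
        · by_cases h2 : i = w
          · rw [h2]; exact qw
          · simp only [if_neg h1, if_neg h2] at hi
            exact hi
      have hz : z ∈ sp p := mem_sp.mpr pz
      rw [Finset.card_erase_of_mem hz] at c1
      have : 0 < (sp p).card := Finset.card_pos.mpr ⟨z, hz⟩
      have e : sc p = (sp p).card := rfl
      omega
  rcases le_total (a.1 x) (b.1 y) with h | h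
  · exact red a b x y hxy ax ay bx bY h
  · obtain ⟨b', a', h1, h2⟩ := red b a y x hxy.symm bY bx ay ax h
    refine ⟨a', b', ?_, by omega⟩
    intro i
    have := h1 i
    omega

variable {r : ℕ} {K : Type} [Field K]

/-- linking two pushes along a triangle, with the third bin fixed -/
lemma tri_link (hr : 2 ≤ r) (a b c a' b' c' : Gen n d (r + 1)) (x y z : Fin n)
    (hxy : x ≠ y) (hxz : x ≠ z) (hyz : y ≠ z)
    (hn : n = 3 * r + 1)
    (az : a.1 z ≠ 0) (bx : b.1 x ≠ 0) (ax : a.1 x ≠ 0) (bY : b.1 y ≠ 0)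
    (ay : a.1 y = 0) (bz : b.1 z = 0)
    (hab : ∀ i, a.1 i ≠ 0 → b.1 i ≠ 0 → i = x)
    (hsum : ∀ i, a.1 i + b.1 i + c.1 i = a'.1 i + b'.1 i + c'.1 i)
    (h1 : ∀ i, i ≠ y → i ≠ z → a'.1 i + b'.1 i = a.1 i + b.1 i)
    (h2 : a'.1 y + b'.1 y = b.1 y + 1) (h3 : a'.1 z + b'.1 z + 1 = a.1 z)
    (hle : b.1 x ≤ a.1 z) :
    Re K (a ::ₘ b ::ₘ c ::ₘ 0) (a' ::ₘ b' ::ₘ c' ::ₘ 0) := by
  classical
  set w : Fin n → ℕ := fun i => a.1 i + b.1 i with hw
  have hwi : ∀ i, w i = a.1 i + b.1 i := fun i => rfl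
  have hws : ∑ i, w i = 2 * d := by
    rw [hw, Finset.sum_add_distrib, a.2.1, b.2.1]; ring
  -- the index set
  have hcarda := sp_card a
  have hcardb := sp_card b
  have hzA : z ∈ sp a := mem_sp.mpr az
  have hxA : x ∈ sp a := mem_sp.mpr ax
  have hyB : y ∈ sp b := mem_sp.mpr bY
  have hxB : x ∈ sp b := mem_sp.mpr bx
  -- A0 = support of a without z, B0 = support of b without y, x
  set A0 := (sp a).erase z with hA0
  set B0 := ((sp b).erase y).erase x with hB0
  have hA0c : A0.card ≤ r := by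
    rw [hA0, Finset.card_erase_of_mem hzA]; omega
  have hB0c : B0.card + 1 ≤ r := by
    rw [hB0, Finset.card_erase_of_mem (Finset.mem_erase.mpr ⟨hxy, hxB⟩),
      Finset.card_erase_of_mem hyB]
    omega
  have hdis : Disjoint A0 B0 := by
    rw [Finset.disjoint_left]
    intro i hi hi'
    rw [hA0, Finset.mem_erase, mem_sp] at hi
    rw [hB0, Finset.mem_erase, Finset.mem_erase, mem_sp] at hi'
    exact hi'.1 (hab i hi.2 hi'.2.2)
  have hyA0 : y ∉ A0 := by
    intro h
    rw [hA0, Finset.mem_erase, mem_sp] at h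
    exact h.2 ay
  have hzA0 : z ∉ A0 := Finset.notMem_erase z _
  have hyB0 : y ∉ B0 := by
    intro h
    rw [hB0, Finset.mem_erase, Finset.mem_erase] at h
    exact h.2.1 rfl
  have hzB0 : z ∉ B0 := by
    intro h
    rw [hB0, Finset.mem_erase, Finset.mem_erase, mem_sp] at h
    exact h.2.2 bz
  have huc : ((Finset.univ.erase y).erase z).card + 1 = 3 * r := by
    rw [Finset.card_erase_of_mem (Finset.mem_erase.mpr ⟨hyz.symm, Finset.mem_univ _⟩),
      Finset.card_erase_of_mem (Finset.mem_univ _), Finset.card_univ, Fintype.card_fin]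
    omega
  have hA0U : A0 ⊆ ((Finset.univ.erase y).erase z) := by
    intro i hi
    rw [Finset.mem_erase, Finset.mem_erase]
    exact ⟨fun h => hzA0 (h ▸ hi), fun h => hyA0 (h ▸ hi), Finset.mem_univ _⟩
  have hB0U : B0 ⊆ ((Finset.univ.erase y).erase z) := by
    intro i hi
    rw [Finset.mem_erase, Finset.mem_erase]
    exact ⟨fun h => hzB0 (h ▸ hi), fun h => hyB0 (h ▸ hi), Finset.mem_univ _⟩
  -- R1 contains A0, avoids B0, has r elements
  obtain ⟨R1, hR1a, hR1b, hR1c⟩ := Finset.exists_subsuperset_card_eq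
    (s := A0) (t := ((Finset.univ.erase y).erase z) \ B0) (n := r)
    (by
      intro i hi
      rw [Finset.mem_sdiff]
      exact ⟨hA0U hi, fun h => Finset.disjoint_left.mp hdis hi h⟩)
    hA0c
    (by rw [Finset.card_sdiff_of_subset hB0U]; omega)
  have hR1B : Disjoint R1 B0 := by
    rw [Finset.disjoint_left]
    intro i hi
    exact (Finset.mem_sdiff.mp (hR1b hi)).2
  have hR1U : R1 ⊆ ((Finset.univ.erase y).erase z) := fun i hi => (Finset.mem_sdiff.mp (hR1b hi)).1
  -- J contains R1 and B0, has 2r-1 elements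
  obtain ⟨J, hJa, hJb, hJc⟩ := Finset.exists_subsuperset_card_eq
    (s := R1 ∪ B0) (t := ((Finset.univ.erase y).erase z)) (n := 2 * r - 1)
    (Finset.union_subset hR1U hB0U)
    (by rw [Finset.card_union_of_disjoint hR1B]; omega)
    (by omega)
  have hyJ : y ∉ J := fun h => by
    have := hJb h
    rw [Finset.mem_erase, Finset.mem_erase] at this
    exact this.2.1 rfl
  have hzJ : z ∉ J := fun h => by
    have := hJb h
    rw [Finset.mem_erase, Finset.mem_erase] at this
    exact this.1 rfl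
  have hout : ∀ i, i ∉ J → i ≠ y → i ≠ z → w i = 0 := by
    intro i hi hiy hiz
    by_contra hne
    apply hi
    apply hJa
    rw [Finset.mem_union]
    by_cases hai : a.1 i = 0
    · right
      have hbi : b.1 i ≠ 0 := by
        intro h
        exact hne (by rw [hwi, hai, h])
      rw [hB0, Finset.mem_erase, Finset.mem_erase, mem_sp]
      refine ⟨?_, hiy, hbi⟩
      rintro rfl
      exact ax hai
    · left
      apply hR1a
      rw [hA0, Finset.mem_erase, mem_sp]
      exact ⟨hiz, hai⟩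
  -- R1 is not heavy
  have hR1w : sg w R1 ≤ d := by
    have e1 : sg w R1 = ∑ i ∈ R1, a.1 i + ∑ i ∈ R1, b.1 i := by
      unfold sg
      rw [← Finset.sum_add_distrib]
    have hzR1 : z ∉ R1 := fun h => hzJ (hJa (Finset.mem_union_left _ h))
    have hxR1 : x ∈ R1 := hR1a (by
      rw [hA0, Finset.mem_erase]
      exact ⟨hxz, hxA⟩)
    have e2 : ∑ i, a.1 i = a.1 z + ∑ i ∈ R1, a.1 i := by
      apply sum_ins_of_zero _ _ _ hzR1
      intro i hi hiz
      by_contra hne
      exact hi (hR1a (by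
        rw [hA0, Finset.mem_erase, mem_sp]
        exact ⟨hiz, hne⟩))
    have e3 : ∑ i ∈ R1, b.1 i = b.1 x := by
      apply Finset.sum_eq_single_of_mem x hxR1
      intro i hi hix
      by_contra hne
      apply Finset.disjoint_left.mp hR1B hi
      rw [hB0, Finset.mem_erase, Finset.mem_erase, mem_sp]
      refine ⟨hix, ?_, hne⟩
      rintro rfl
      exact hyJ (hJa (Finset.mem_union_left _ hi))
    have := a.2.1
    omega
  -- the centre
  have hwJ : ∑ i, w i = w y + (w z + sg w J) := by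
    have h4 : z ∉ J := hzJ
    have h5 : y ∉ insert z J := by
      rw [Finset.mem_insert, not_or]; exact ⟨hyz, hyJ⟩
    have h6 : sg w (insert y (insert z J)) = w y + (w z + sg w J) := by
      rw [sg_insert w h5, sg_insert w h4]
    rw [← h6]
    symm
    apply Finset.sum_subset (Finset.subset_univ _)
    intro i _ hi
    rw [Finset.mem_insert, Finset.mem_insert, not_or, not_or] at hi
    exact hout i hi.2.2 hi.1 hi.2.1
  have hwy : w y = b.1 y := by rw [hwi, ay]; omega
  have hwz : w z = a.1 z := by rw [hwi, bz]; omega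
  -- main construction: from a suitable node
  have main : ∀ G : Finset (Fin n), ∀ v : Fin n, G ⊆ J → Bn w r d G v →
      (v ∈ J ∨ v = y ∨ (v = z ∧ d + 1 ≤ sg w G + w z)) →
      Re K (a ::ₘ b ::ₘ c ::ₘ 0) (a' ::ₘ b' ::ₘ c' ::ₘ 0) := by
    intro G v hGJ hB hv
    obtain ⟨g, hg⟩ := bv_gen hB
    have hle1 := bv_le hB
    have hyG : y ∉ G := fun h => hyJ (hGJ h)
    have hzG : z ∉ G := fun h => hzJ (hGJ h)
    have hle2 : ∀ i, bv w d G v i ≤ a'.1 i + b'.1 i := by
      intro i
      by_cases hiy : i = y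
      · have := hle1 i
        rw [hiy] at this ⊢
        omega
      · by_cases hiz : i = z
        · rw [hiz]
          by_cases hvz : z = v
          · rcases hv with hv | hv | hv
            · exact absurd (hvz ▸ hv) hzJ
            · exact absurd (hvz.trans hv).symm hyz
            · rw [← hvz, bv_x hzG]
              have := hv.2
              omega
          · rw [bv_out hzG hvz]; exact Nat.zero_le _
        · rw [h1 i hiy hiz]; exact hle1 i
    have hJ2 : (insert y (insert z J) \ G).card ≤ r + 1 := by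
      rw [Finset.card_sdiff_of_subset]
      · have h5 : y ∉ insert z J := by
          rw [Finset.mem_insert, not_or]; exact ⟨hyz, hyJ⟩
        rw [Finset.card_insert_of_notMem h5, Finset.card_insert_of_notMem hzJ, hB.1]
        omega
      · intro i hi
        rw [Finset.mem_insert, Finset.mem_insert]
        exact Or.inr (Or.inr (hGJ hi))
    have e1 := sum_sub' w (bv w d G v) hle1
    have e2 := bv_sum hB
    have e3 := sum_sub' (fun i => a'.1 i + b'.1 i) (bv w d G v) hle2
    have e4 : ∑ i, (a'.1 i + b'.1 i) = 2 * d := by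
      rw [Finset.sum_add_distrib, a'.2.1, b'.2.1]; ring
    obtain ⟨h, hh⟩ := mk_gen (s := r + 1) (d := d) (fun i => w i - bv w d G v i) (by omega)
      (insert y (insert z J) \ G) hJ2 (by
        intro i hi
        rw [Finset.mem_sdiff, not_and_or, not_not] at hi
        show w i - bv w d G v i = 0
        rcases hi with hi | hi
        · rw [Finset.mem_insert, Finset.mem_insert, not_or, not_or] at hi
          rw [hout i hi.2.2 hi.1 hi.2.1]; omega
        · rw [bv_mem hi]; omega)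
    obtain ⟨h', hh'⟩ := mk_gen (s := r + 1) (d := d)
      (fun i => a'.1 i + b'.1 i - bv w d G v i) (by omega)
      (insert y (insert z J) \ G) hJ2 (by
        intro i hi
        rw [Finset.mem_sdiff, not_and_or, not_not] at hi
        show a'.1 i + b'.1 i - bv w d G v i = 0
        rcases hi with hi | hi
        · rw [Finset.mem_insert, Finset.mem_insert, not_or, not_or] at hi
          have e5 := hout i hi.2.2 hi.1 hi.2.1
          have e6 := h1 i hi.1 hi.2.1
          rw [hwi] at e5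
          omega
        · rw [bv_mem hi]
          have hiy : i ≠ y := fun h => hyG (h ▸ hi)
          have hiz : i ≠ z := fun h => hzG (h ▸ hi)
          have e6 := h1 i hiy hiz
          have e7 := hwi i
          omega)
    have s1 : Re K (a ::ₘ b ::ₘ c ::ₘ 0) (g ::ₘ h ::ₘ c ::ₘ 0) := by
      apply mv12
      rw [hg, hh]
      funext i
      have := hle1 i
      show a.1 i + b.1 i = bv w d G v i + (w i - bv w d G v i)
      rw [← hwi]; omega
    have s2 : Re K (g ::ₘ h ::ₘ c ::ₘ 0) (g ::ₘ h' ::ₘ c' ::ₘ 0) := by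
      apply mv23
      rw [hh, hh']
      funext i
      have l1 := hle1 i
      have l2 := hle2 i
      have l3 := hsum i
      have l4 := hwi i
      show (w i - bv w d G v i) + c.1 i = (a'.1 i + b'.1 i - bv w d G v i) + c'.1 i
      omega
    have s3 : Re K (g ::ₘ h' ::ₘ c' ::ₘ 0) (a' ::ₘ b' ::ₘ c' ::ₘ 0) := by
      apply mv12
      rw [hg, hh']
      funext i
      have l2 := hle2 i
      show bv w d G v i + (a'.1 i + b'.1 i - bv w d G v i) = a'.1 i + b'.1 i
      omega
    exact s1.trans (s2.trans s3)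
  by_cases hS : ∃ S ⊆ J, S.card = r + 1 ∧ d ≤ sg w S
  · obtain ⟨R, hRJ, v, hvJ, hvR, hRc, hR1', hR2'⟩ := slide w J r d hS
      ⟨R1, fun i hi => hJa (Finset.mem_union_left _ hi), hR1c, hR1w⟩
    exact main R v hRJ ⟨hRc, hvR, hR1', hR2'⟩ (Or.inl hvJ)
  · push Not at hS
    obtain ⟨G, hGJ, hGc, hGt⟩ := exists_top w J r (by omega)
    have hGc' : (J \ G).card + 1 = r := by
      rw [Finset.card_sdiff_of_subset hGJ]; omega
    have hGs : sg w (J \ G) + sg w G = sg w J := sg_sdiff w hGJ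
    have hcmp : sg w (J \ G) ≤ sg w G := by
      apply cmp w (by omega)
      intro p hp q hq
      exact hGt q hq p hp
    obtain ⟨t, ht⟩ : (J \ G).Nonempty := Finset.card_pos.mp (by omega)
    have ht' := Finset.mem_sdiff.mp ht
    have hGd := hS (insert t G) (Finset.insert_subset ht'.1 hGJ)
      (by rw [Finset.card_insert_of_notMem ht'.2, hGc])
    rw [sg_insert w ht'.2] at hGd
    have hyG : y ∉ G := fun h => hyJ (hGJ h)
    have hzG : z ∉ G := fun h => hzJ (hGJ h)
    by_cases hcy : d ≤ sg w G + w y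
    · exact main G y hGJ ⟨hGc, hyG, by omega, hcy⟩ (Or.inr (Or.inl rfl))
    · have hcz : d + 1 ≤ sg w G + w z := by omega
      exact main G z hGJ ⟨hGc, hzG, by omega, by omega⟩ (Or.inr (Or.inr ⟨rfl, hcz⟩))

/-- pushing one unit from `q` to `p` -/
lemma push (a : Gen n d s) (p q : Fin n) (hpq : p ≠ q) (hp : a.1 p ≠ 0) (hq : a.1 q ≠ 0) :
    ∃ a' : Gen n d s, a'.1 p = a.1 p + 1 ∧ a'.1 q + 1 = a.1 q ∧
      (∀ i, i ≠ p → i ≠ q → a'.1 i = a.1 i) ∧ sc a' ≤ sc a ∧
      (a'.1 q = 0 → sc a' < sc a) := by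
  have sp1 : ∑ i, (fun i => if i = p then a.1 p + 1 else if i = q then a.1 q - 1 else a.1 i) i
      = d := by
    refine Eq.trans ?_ a.2.1
    apply sum_two _ _ p q hpq
    · intro i h1 h2; simp only [if_neg h1, if_neg h2]
    · simp only [if_pos, if_neg hpq.symm]; omega
  obtain ⟨a', ha'⟩ := mk_gen (s := s) _ sp1 (sp a) (sp_card a) (by
      intro i hi
      rw [mem_sp, not_not] at hi
      by_cases h1 : i = p
      · exact absurd (h1 ▸ hi) hp
      · by_cases h2 : i = q
        · exact absurd (h2 ▸ hi) hq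
        · simp only [if_neg h1, if_neg h2]
          exact hi)
  have e1 : a'.1 p = a.1 p + 1 := by rw [ha']; simp
  have e2 : a'.1 q + 1 = a.1 q := by rw [ha']; simp only [if_neg hpq.symm, if_pos]; omega
  have e3 : ∀ i, i ≠ p → i ≠ q → a'.1 i = a.1 i := by
    intro i h1 h2; rw [ha']; simp only [if_neg h1, if_neg h2]
  have hsub : sp a' ⊆ sp a := by
    intro i hi
    rw [mem_sp] at hi ⊢
    by_cases h1 : i = p
    · rw [h1]; exact hp
    · by_cases h2 : i = q
      · rw [h2]; exact hq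
      · rw [e3 i h1 h2] at hi; exact hi
  refine ⟨a', e1, e2, e3, Finset.card_le_card hsub, ?_⟩
  intro h0
  apply Finset.card_lt_card
  refine ⟨hsub, ?_⟩
  intro hs
  have := hs (mem_sp.mpr hq)
  rw [mem_sp] at this
  exact this h0

/-- one unit push along a triangle -/
lemma tri_push (hr : 2 ≤ r) (a b c : Gen n d (r + 1)) (x y z : Fin n)
    (hxy : x ≠ y) (hxz : x ≠ z) (hyz : y ≠ z) (hn : n = 3 * r + 1)
    (ax : a.1 x ≠ 0) (az : a.1 z ≠ 0) (ay : a.1 y = 0)
    (bx : b.1 x ≠ 0) (bY : b.1 y ≠ 0) (bz : b.1 z = 0)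
    (cy : c.1 y ≠ 0) (cz : c.1 z ≠ 0) (cx : c.1 x = 0)
    (hab : ∀ i, a.1 i ≠ 0 → b.1 i ≠ 0 → i = x)
    (hbc : ∀ i, b.1 i ≠ 0 → c.1 i ≠ 0 → i = y)
    (hca : ∀ i, c.1 i ≠ 0 → a.1 i ≠ 0 → i = z)
    (a' b' c' : Gen n d (r + 1))
    (a1 : a'.1 x = a.1 x + 1) (a2 : a'.1 z + 1 = a.1 z)
    (a3 : ∀ i, i ≠ x → i ≠ z → a'.1 i = a.1 i)
    (b1 : b'.1 y = b.1 y + 1) (b2 : b'.1 x + 1 = b.1 x)
    (b3 : ∀ i, i ≠ y → i ≠ x → b'.1 i = b.1 i)
    (c1 : c'.1 z = c.1 z + 1) (c2 : c'.1 y + 1 = c.1 y)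
    (c3 : ∀ i, i ≠ z → i ≠ y → c'.1 i = c.1 i) :
    (∀ i, a.1 i + b.1 i + c.1 i = a'.1 i + b'.1 i + c'.1 i) ∧
    Re K (a ::ₘ b ::ₘ c ::ₘ 0) (a' ::ₘ b' ::ₘ c' ::ₘ 0) := by
  have ay' : a'.1 y = a.1 y := a3 y hxy.symm hyz
  have bz' : b'.1 z = b.1 z := b3 z hyz.symm hxz.symm
  have cx' : c'.1 x = c.1 x := c3 x hxz hxy
  have hsum : ∀ i, a.1 i + b.1 i + c.1 i = a'.1 i + b'.1 i + c'.1 i := by
    intro i
    by_cases h1 : i = x
    · rw [h1]; omega
    · by_cases h2 : i = y
      · rw [h2]; omega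
      · by_cases h3 : i = z
        · rw [h3]; omega
        · have := a3 i h1 h3
          have := b3 i h2 h1
          have := c3 i h3 h2
          omega
  refine ⟨hsum, ?_⟩
  have perm : ∀ p q t : Gen n d (r + 1),
      (p ::ₘ q ::ₘ t ::ₘ (0 : Multiset (Gen n d (r + 1)))) = q ::ₘ t ::ₘ p ::ₘ 0 := by
    intro p q t
    rw [Multiset.cons_swap p q, Multiset.cons_swap p t]
  by_cases h1 : b.1 x ≤ a.1 z
  · refine tri_link hr a b c a' b' c' x y z hxy hxz hyz hn az bx ax bY ay bz hab hsum ?_ ?_ ?_ h1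
    · intro i hiy hiz
      by_cases hix : i = x
      · rw [hix]; omega
      · rw [a3 i hix hiz, b3 i hiy hix]
    · omega
    · omega
  by_cases h2 : c.1 y ≤ b.1 x
  · rw [perm a b c, perm a' b' c']
    refine tri_link hr b c a b' c' a' y z x hyz hxy.symm hxz.symm hn bx cy bY cz bz cx hbc
      ?_ ?_ ?_ ?_ h2
    · intro i; have := hsum i; omega
    · intro i hiz hix
      by_cases hiy : i = y
      · rw [hiy]; omega
      · rw [b3 i hiy hix, c3 i hiz hiy]
    · omega
    · omega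
  · have h3 : a.1 z ≤ c.1 y := by omega
    rw [← perm c a b, ← perm c' a' b']
    refine tri_link hr c a b c' a' b' z x y hxz.symm hyz.symm hxy hn cy az cz ax cx ay hca
      ?_ ?_ ?_ ?_ h3
    · intro i; have := hsum i; omega
    · intro i hix hiy
      by_cases hiz : i = z
      · rw [hiz]; omega
      · rw [c3 i hiz hiy, a3 i hix hiz]
    · omega
    · omega

/-- reducing a triangle -/
lemma tri_red (hr : 2 ≤ r) (hn : n = 3 * r + 1) (x y z : Fin n)
    (hxy : x ≠ y) (hxz : x ≠ z) (hyz : y ≠ z) : ∀ (k : ℕ) (a b c : Gen n d (r + 1)),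
    a.1 z ≤ k →
    a.1 x ≠ 0 → a.1 z ≠ 0 → a.1 y = 0 → b.1 x ≠ 0 → b.1 y ≠ 0 → b.1 z = 0 →
    c.1 y ≠ 0 → c.1 z ≠ 0 → c.1 x = 0 →
    (∀ i, a.1 i ≠ 0 → b.1 i ≠ 0 → i = x) → (∀ i, b.1 i ≠ 0 → c.1 i ≠ 0 → i = y) →
    (∀ i, c.1 i ≠ 0 → a.1 i ≠ 0 → i = z) →
    ∃ a' b' c' : Gen n d (r + 1), (∀ i, a.1 i + b.1 i + c.1 i = a'.1 i + b'.1 i + c'.1 i) ∧
      Re K (a ::ₘ b ::ₘ c ::ₘ 0) (a' ::ₘ b' ::ₘ c' ::ₘ 0) ∧
      sc a' + sc b' + sc c' < sc a + sc b + sc c := by
  intro k
  induction k with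
  | zero =>
    intro a b c hk _ az
    omega
  | succ k ih =>
    intro a b c hk ax az ay bx bY bz cy cz cx hab hbc hca
    obtain ⟨a', a1, a2, a3, a4, a5⟩ := push a x z hxz ax az
    obtain ⟨b', b1, b2, b3, b4, b5⟩ := push b y x hxy.symm bY bx
    obtain ⟨c', c1, c2, c3, c4, c5⟩ := push c z y hyz.symm cz cy
    obtain ⟨hs, hR⟩ := tri_push (K := K) hr a b c x y z hxy hxz hyz hn ax az ay bx bY bz cy cz cx
      hab hbc hca a' b' c' a1 a2 a3 b1 b2 b3 c1 c2 c3
    by_cases h0 : a'.1 z = 0 ∨ b'.1 x = 0 ∨ c'.1 y = 0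
    · refine ⟨a', b', c', hs, hR, ?_⟩
      rcases h0 with h0 | h0 | h0
      · have := a5 h0; omega
      · have := b5 h0; omega
      · have := c5 h0; omega
    · rw [not_or, not_or] at h0
      obtain ⟨h01, h02, h03⟩ := h0
      obtain ⟨a'', b'', c'', k1, k2, k3⟩ := ih a' b' c' (by omega) (by omega) h01
        (by rw [a3 y hxy.symm hyz]; exact ay) h02 (by omega)
        (by rw [b3 z hyz.symm hxz.symm]; exact bz) h03 (by omega)
        (by rw [c3 x hxz hxy]; exact cx)
        (by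
          intro i h1 h2
          by_contra hix
          apply hix
          by_cases hiz : i = z
          · exfalso; apply h2; rw [hiz, b3 z hyz.symm hxz.symm]; exact bz
          · by_cases hiy : i = y
            · exfalso; apply h1; rw [hiy, a3 y hxy.symm hyz]; exact ay
            · rw [a3 i hix hiz] at h1
              rw [b3 i hiy hix] at h2
              exact hab i h1 h2)
        (by
          intro i h1 h2
          by_contra hiy
          apply hiy
          by_cases hiz : i = z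
          · exfalso; apply h1; rw [hiz, b3 z hyz.symm hxz.symm]; exact bz
          · by_cases hix : i = x
            · exfalso; apply h2; rw [hix, c3 x hxz hxy]; exact cx
            · rw [b3 i hiy hix] at h1
              rw [c3 i hiz hiy] at h2
              exact hbc i h1 h2)
        (by
          intro i h1 h2
          by_contra hiz
          apply hiz
          by_cases hiy : i = y
          · exfalso; apply h2; rw [hiy, a3 y hxy.symm hyz]; exact ay
          · by_cases hix : i = x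
            · exfalso; apply h1; rw [hix, c3 x hxz hxy]; exact cx
            · rw [c3 i hiz hiy] at h1
              rw [a3 i hix hiz] at h2
              exact hca i h1 h2)
      refine ⟨a'', b'', c'', ?_, hR.trans k2, by omega⟩
      intro i
      rw [hs i, k1 i]

/-- a bin with at most one shared colour, the other two having at most `2 r + 1` colours -/
lemma leaf (hn : n = 3 * r + 1) (hr : 1 ≤ r) (a b c : Gen n d (r + 1))
    (h1 : ∀ i j, c.1 i ≠ 0 → a.1 i + b.1 i ≠ 0 → c.1 j ≠ 0 → a.1 j + b.1 j ≠ 0 → i = j)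
    (h2 : (sp a ∪ sp b).card ≤ 2 * r + 1) :
    ∃ P x, Bn (fun i => a.1 i + b.1 i + c.1 i) r d P x ∧
      c.1 = bv (fun i => a.1 i + b.1 i + c.1 i) d P x := by
  -- it suffices to find P, x
  have suff : ∀ P : Finset (Fin n), ∀ x, P.card = r → x ∉ P → (∀ i ∈ P, a.1 i + b.1 i = 0) →
      (∀ i, i ∉ P → i ≠ x → c.1 i = 0) →
      ∃ P x, Bn (fun i => a.1 i + b.1 i + c.1 i) r d P x ∧
      c.1 = bv (fun i => a.1 i + b.1 i + c.1 i) d P x := by
    intro P x hP hx hfull hout
    have e1 : sg (fun i => a.1 i + b.1 i + c.1 i) P = ∑ i ∈ P, c.1 i := by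
      apply Finset.sum_congr rfl
      intro i hi
      show a.1 i + b.1 i + c.1 i = c.1 i
      rw [hfull i hi]; omega
    have e2 := sum_ins_of_zero c.1 P x hx hout
    have e3 := c.2.1
    refine ⟨P, x, ⟨hP, hx, by rw [e1]; omega, ?_⟩, ?_⟩
    · rw [e1]
      show d ≤ ∑ i ∈ P, c.1 i + (a.1 x + b.1 x + c.1 x)
      omega
    · funext i
      by_cases hiP : i ∈ P
      · rw [bv_mem hiP]
        show c.1 i = a.1 i + b.1 i + c.1 i
        rw [hfull i hiP]; omega
      · by_cases hix : i = x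
        · rw [hix, bv_x hx, e1]; omega
        · rw [bv_out hiP hix]; exact hout i hiP hix
  have hcc := sp_card c
  set V := (sp a ∪ sp b)ᶜ with hV
  have hVc : r ≤ V.card := by
    rw [hV, Finset.card_compl, Fintype.card_fin]; omega
  have hVm : ∀ i, i ∈ V ↔ a.1 i + b.1 i = 0 := by
    intro i
    rw [hV, Finset.mem_compl, Finset.mem_union, not_or, mem_sp, mem_sp]
    constructor
    · rintro ⟨k1, k2⟩; omega
    · intro k; constructor <;> omega
  by_cases hT : ∃ x, c.1 x ≠ 0 ∧ a.1 x + b.1 x ≠ 0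
  · obtain ⟨x, hx1, hx2⟩ := hT
    obtain ⟨P, hPa, hPb, hPc⟩ := Finset.exists_subsuperset_card_eq
      (s := (sp c).erase x) (t := V) (n := r)
      (by
        intro i hi
        rw [Finset.mem_erase, mem_sp] at hi
        rw [hVm]
        by_contra hne
        exact hi.1 (h1 i x hi.2 hne hx1 hx2))
      (by
        rw [Finset.card_erase_of_mem (mem_sp.mpr hx1)]; omega)
      hVc
    refine suff P x hPc ?_ (fun i hi => (hVm i).mp (hPb hi)) ?_
    · intro h
      exact hx2 ((hVm x).mp (hPb h))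
    · intro i hi hix
      by_contra hne
      exact hi (hPa (Finset.mem_erase.mpr ⟨hix, mem_sp.mpr hne⟩))
  · push Not at hT
    have hcV : sp c ⊆ V := by
      intro i hi
      rw [mem_sp] at hi
      rw [hVm]
      exact hT i hi
    by_cases hc : (sp c).card ≤ r
    · obtain ⟨P, hPa, hPb, hPc⟩ := Finset.exists_subsuperset_card_eq
        (s := sp c) (t := V) (n := r) hcV hc hVc
      obtain ⟨x, hx⟩ : Pᶜ.Nonempty := Finset.card_pos.mp (by
        rw [Finset.card_compl, Fintype.card_fin, hPc]; omega)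
      refine suff P x hPc (Finset.mem_compl.mp hx) (fun i hi => (hVm i).mp (hPb hi)) ?_
      intro i hi _
      by_contra hne
      exact hi (hPa (mem_sp.mpr hne))
    · obtain ⟨x, hx⟩ : (sp c).Nonempty := Finset.card_pos.mp (by omega)
      refine suff ((sp c).erase x) x (by rw [Finset.card_erase_of_mem hx]; omega)
        (Finset.notMem_erase x _) ?_ ?_
      · intro i hi
        exact (hVm i).mp (hcV (Finset.mem_of_mem_erase hi))
      · intro i hi hix
        by_contra hne
        exact hi (Finset.mem_erase.mpr ⟨hix, mem_sp.mpr hne⟩)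

/-- every factorisation is connected to one containing a basic vertex -/
lemma to_basic (hr : 2 ≤ r) (hn : n = 3 * r + 1) : ∀ (k : ℕ) (a b c : Gen n d (r + 1)),
    sc a + sc b + sc c = k →
    ∃ (P : Finset (Fin n)) (x : Fin n) (a' b' c' : Gen n d (r + 1)),
      Bn (fun i => a.1 i + b.1 i + c.1 i) r d P x ∧
      a'.1 = bv (fun i => a.1 i + b.1 i + c.1 i) d P x ∧
      (∀ i, a'.1 i + b'.1 i + c'.1 i = a.1 i + b.1 i + c.1 i) ∧
      Re K (a ::ₘ b ::ₘ c ::ₘ 0) (a' ::ₘ b' ::ₘ c' ::ₘ 0) := by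
  intro k
  induction k using Nat.strong_induction_on with
  | _ k ih =>
  -- reduction to a smaller factorisation
  have step : ∀ a b c a' b' c' : Gen n d (r + 1), sc a + sc b + sc c = k →
      (∀ i, a.1 i + b.1 i + c.1 i = a'.1 i + b'.1 i + c'.1 i) →
      Re K (a ::ₘ b ::ₘ c ::ₘ 0) (a' ::ₘ b' ::ₘ c' ::ₘ 0) →
      sc a' + sc b' + sc c' < sc a + sc b + sc c →
      ∃ (P : Finset (Fin n)) (x : Fin n) (a' b' c' : Gen n d (r + 1)),
      Bn (fun i => a.1 i + b.1 i + c.1 i) r d P x ∧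
      a'.1 = bv (fun i => a.1 i + b.1 i + c.1 i) d P x ∧
      (∀ i, a'.1 i + b'.1 i + c'.1 i = a.1 i + b.1 i + c.1 i) ∧
      Re K (a ::ₘ b ::ₘ c ::ₘ 0) (a' ::ₘ b' ::ₘ c' ::ₘ 0) := by
    intro a b c a' b' c' hk hs hR hlt
    have e : (fun i => a.1 i + b.1 i + c.1 i) = fun i => a'.1 i + b'.1 i + c'.1 i :=
      funext hs
    obtain ⟨P, x, a2, b2, c2, k1, k2, k3, k4⟩ := ih _ (by omega) a' b' c' rfl
    rw [e]
    refine ⟨P, x, a2, b2, c2, k1, k2, ?_, hR.trans k4⟩
    intro i
    rw [k3 i, hs i]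
  have perm : ∀ p q t : Gen n d (r + 1),
      (p ::ₘ q ::ₘ t ::ₘ (0 : Multiset (Gen n d (r + 1)))) = q ::ₘ t ::ₘ p ::ₘ 0 := by
    intro p q t
    rw [Multiset.cons_swap p q, Multiset.cons_swap p t]
  -- the claim is invariant under rotation
  have rot : ∀ a b c : Gen n d (r + 1), (∃ (P : Finset (Fin n)) (x : Fin n)
      (a' b' c' : Gen n d (r + 1)),
      Bn (fun i => a.1 i + b.1 i + c.1 i) r d P x ∧
      a'.1 = bv (fun i => a.1 i + b.1 i + c.1 i) d P x ∧
      (∀ i, a'.1 i + b'.1 i + c'.1 i = a.1 i + b.1 i + c.1 i) ∧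
      Re K (a ::ₘ b ::ₘ c ::ₘ 0) (a' ::ₘ b' ::ₘ c' ::ₘ 0)) →
      (∃ (P : Finset (Fin n)) (x : Fin n) (a' b' c' : Gen n d (r + 1)),
      Bn (fun i => b.1 i + c.1 i + a.1 i) r d P x ∧
      a'.1 = bv (fun i => b.1 i + c.1 i + a.1 i) d P x ∧
      (∀ i, a'.1 i + b'.1 i + c'.1 i = b.1 i + c.1 i + a.1 i) ∧
      Re K (b ::ₘ c ::ₘ a ::ₘ 0) (a' ::ₘ b' ::ₘ c' ::ₘ 0)) := by
    rintro a b c ⟨P, x, a', b', c', k1, k2, k3, k4⟩
    have e : (fun i => a.1 i + b.1 i + c.1 i) = fun i => b.1 i + c.1 i + a.1 i := by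
      funext i; omega
    rw [e] at k1 k2
    refine ⟨P, x, a', b', c', k1, k2, ?_, ?_⟩
    · intro i; have := k3 i; omega
    · rw [← perm]; exact k4
  -- a leaf gives the claim
  have ofleaf : ∀ a b c : Gen n d (r + 1),
      (∀ i j, c.1 i ≠ 0 → a.1 i + b.1 i ≠ 0 → c.1 j ≠ 0 → a.1 j + b.1 j ≠ 0 → i = j) →
      (sp a ∪ sp b).card ≤ 2 * r + 1 →
      ∃ (P : Finset (Fin n)) (x : Fin n) (a' b' c' : Gen n d (r + 1)),
      Bn (fun i => a.1 i + b.1 i + c.1 i) r d P x ∧
      a'.1 = bv (fun i => a.1 i + b.1 i + c.1 i) d P x ∧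
      (∀ i, a'.1 i + b'.1 i + c'.1 i = a.1 i + b.1 i + c.1 i) ∧
      Re K (a ::ₘ b ::ₘ c ::ₘ 0) (a' ::ₘ b' ::ₘ c' ::ₘ 0) := by
    intro a b c h1 h2
    obtain ⟨P, x, k1, k2⟩ := leaf hn (by omega) a b c h1 h2
    refine ⟨P, x, c, a, b, k1, k2, ?_, ?_⟩
    · intro i; omega
    · rw [← perm c a b]; exact Re.refl _
  -- the case of two disjoint supports
  have disj : ∀ a b c : Gen n d (r + 1), (∀ i, a.1 i ≠ 0 → b.1 i ≠ 0 → False) →
      (∀ i j, b.1 i ≠ 0 → c.1 i ≠ 0 → b.1 j ≠ 0 → c.1 j ≠ 0 → i = j) →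
      (∀ i j, c.1 i ≠ 0 → a.1 i ≠ 0 → c.1 j ≠ 0 → a.1 j ≠ 0 → i = j) →
      ∃ (P : Finset (Fin n)) (x : Fin n) (a' b' c' : Gen n d (r + 1)),
      Bn (fun i => a.1 i + b.1 i + c.1 i) r d P x ∧
      a'.1 = bv (fun i => a.1 i + b.1 i + c.1 i) d P x ∧
      (∀ i, a'.1 i + b'.1 i + c'.1 i = a.1 i + b.1 i + c.1 i) ∧
      Re K (a ::ₘ b ::ₘ c ::ₘ 0) (a' ::ₘ b' ::ₘ c' ::ₘ 0) := by
    intro a b c hab hbc hca
    have ca := sp_card a
    have cb := sp_card b
    have cc := sp_card c
    by_cases h1 : (sp b ∪ sp c).card ≤ 2 * r + 1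
    · apply rot c a b
      apply rot b c a
      apply ofleaf b c a
      · intro i j k1 k2 k3 k4
        have l1 : b.1 i = 0 := by
          by_contra h
          exact hab i k1 h
        have l2 : b.1 j = 0 := by
          by_contra h
          exact hab j k3 h
        exact hca i j (by omega) k1 (by omega) k3
      · exact h1
    by_cases h2 : (sp c ∪ sp a).card ≤ 2 * r + 1
    · apply rot c a b
      apply ofleaf c a b
      · intro i j k1 k2 k3 k4
        have l1 : a.1 i = 0 := by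
          by_contra h
          exact hab i h k1
        have l2 : a.1 j = 0 := by
          by_contra h
          exact hab j h k3
        exact hbc i j k1 (by omega) k3 (by omega)
      · exact h2
    · exfalso
      have u1 := Finset.card_union_add_card_inter (sp b) (sp c)
      have u2 := Finset.card_union_add_card_inter (sp c) (sp a)
      have i1 : sp b ∩ sp c = ∅ := Finset.card_eq_zero.mp (by omega)
      have i2 : sp c ∩ sp a = ∅ := Finset.card_eq_zero.mp (by omega)
      have d1 : Disjoint (sp b) (sp c) := Finset.disjoint_iff_inter_eq_empty.mpr i1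
      have d2 : Disjoint (sp c) (sp a) := Finset.disjoint_iff_inter_eq_empty.mpr i2
      have d3 : Disjoint (sp a) (sp b) := by
        rw [Finset.disjoint_left]
        intro i k1 k2
        rw [mem_sp] at k1 k2
        exact hab i k1 k2
      have u3 : (sp a ∪ sp b ∪ sp c).card = (sp a).card + (sp b).card + (sp c).card := by
        rw [Finset.card_union_of_disjoint, Finset.card_union_of_disjoint d3]
        rw [Finset.disjoint_union_left]
        exact ⟨d2.symm, d1⟩
      have u4 := Finset.card_le_univ (sp a ∪ sp b ∪ sp c)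
      rw [Fintype.card_fin] at u4
      omega
  intro a b c hk
  -- cancel 4-cycles
  by_cases hab2 : ∃ x y, x ≠ y ∧ a.1 x ≠ 0 ∧ a.1 y ≠ 0 ∧ b.1 x ≠ 0 ∧ b.1 y ≠ 0
  · obtain ⟨x, y, hxy, k1, k2, k3, k4⟩ := hab2
    obtain ⟨a', b', e1, e2⟩ := cancel4 a b x y hxy k1 k2 k3 k4
    refine step a b c a' b' c hk ?_ ?_ (by omega)
    · intro i; have := e1 i; omega
    · apply mv12; funext i; exact e1 i
  by_cases hbc2 : ∃ x y, x ≠ y ∧ b.1 x ≠ 0 ∧ b.1 y ≠ 0 ∧ c.1 x ≠ 0 ∧ c.1 y ≠ 0
  · obtain ⟨x, y, hxy, k1, k2, k3, k4⟩ := hbc2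
    obtain ⟨b', c', e1, e2⟩ := cancel4 b c x y hxy k1 k2 k3 k4
    refine step a b c a b' c' hk ?_ ?_ (by omega)
    · intro i; have := e1 i; omega
    · apply mv23; funext i; exact e1 i
  by_cases hca2 : ∃ x y, x ≠ y ∧ a.1 x ≠ 0 ∧ a.1 y ≠ 0 ∧ c.1 x ≠ 0 ∧ c.1 y ≠ 0
  · obtain ⟨x, y, hxy, k1, k2, k3, k4⟩ := hca2
    obtain ⟨a', c', e1, e2⟩ := cancel4 a c x y hxy k1 k2 k3 k4
    refine step a b c a' b c' hk ?_ ?_ (by omega)
    · intro i; have := e1 i; omega
    · apply mv13; funext i; exact e1 i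
  have uab : ∀ i j, a.1 i ≠ 0 → b.1 i ≠ 0 → a.1 j ≠ 0 → b.1 j ≠ 0 → i = j := by
    intro i j k1 k2 k3 k4
    by_contra hne
    exact hab2 ⟨i, j, hne, k1, k3, k2, k4⟩
  have ubc : ∀ i j, b.1 i ≠ 0 → c.1 i ≠ 0 → b.1 j ≠ 0 → c.1 j ≠ 0 → i = j := by
    intro i j k1 k2 k3 k4
    by_contra hne
    exact hbc2 ⟨i, j, hne, k1, k3, k2, k4⟩
  have uca : ∀ i j, c.1 i ≠ 0 → a.1 i ≠ 0 → c.1 j ≠ 0 → a.1 j ≠ 0 → i = j := by
    intro i j k1 k2 k3 k4
    by_contra hne
    exact hca2 ⟨i, j, hne, k2, k4, k1, k3⟩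
  by_cases hab : ∀ i, a.1 i ≠ 0 → b.1 i ≠ 0 → False
  · exact disj a b c hab ubc uca
  by_cases hbc : ∀ i, b.1 i ≠ 0 → c.1 i ≠ 0 → False
  · apply rot c a b
    apply rot b c a
    exact disj b c a hbc uca uab
  by_cases hca : ∀ i, c.1 i ≠ 0 → a.1 i ≠ 0 → False
  · apply rot c a b
    exact disj c a b hca uab ubc
  push Not at hab hbc hca
  obtain ⟨x, ax, bx, -⟩ := hab
  obtain ⟨y, bY, cy, -⟩ := hbc
  obtain ⟨z, cz, az, -⟩ := hca
  by_cases hxy : x = y
  · -- star
    subst hxy
    have hzx : z = x := uca z x cz az cy ax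
    subst hzx
    refine ofleaf a b c ?_ ?_
    · intro i j k1 k2 k3 k4
      have li : i = z := by
        by_cases h : a.1 i = 0
        · exact ubc i z (by omega) k1 bx cy
        · exact uca i z k1 h cz az
      have lj : j = z := by
        by_cases h : a.1 j = 0
        · exact ubc j z (by omega) k3 bx cy
        · exact uca j z k3 h cz az
      rw [li, lj]
    · have u1 := Finset.card_union_add_card_inter (sp a) (sp b)
      have ca := sp_card a
      have cb := sp_card b
      have : 0 < (sp a ∩ sp b).card := Finset.card_pos.mpr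
        ⟨z, Finset.mem_inter.mpr ⟨mem_sp.mpr az, mem_sp.mpr bx⟩⟩
      omega
  · have cx : c.1 x = 0 := by
      by_contra h
      exact hxy (ubc x y bx h bY cy)
    have hxz : x ≠ z := by
      rintro rfl
      exact cz cx
    have ay : a.1 y = 0 := by
      by_contra h
      exact hxy (uab x y ax bx h bY)
    have hyz : y ≠ z := by
      rintro rfl
      exact az ay
    have bz : b.1 z = 0 := by
      by_contra h
      exact hxz (uab x z ax bx az h)
    obtain ⟨a', b', c', k1, k2, k3⟩ := tri_red (K := K) hr hn x y z hxy hxz hyz (a.1 z) a b c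
      le_rfl ax az ay bx bY bz cy cz cx
      (fun i k1 k2 => uab i x k1 k2 ax bx) (fun i k1 k2 => ubc i y k1 k2 bY cy)
      (fun i k1 k2 => uca i z k1 k2 cz az)
    exact step a b c a' b' c' hk k1 k2 k3

/-- the fibres of degree 3 are connected -/
theorem fibre3 (hr : 2 ≤ r) (hn : n = 3 * r + 1) (a b c a' b' c' : Gen n d (r + 1))
    (h : ∀ i, a.1 i + b.1 i + c.1 i = a'.1 i + b'.1 i + c'.1 i) :
    Re K (a ::ₘ b ::ₘ c ::ₘ 0) (a' ::ₘ b' ::ₘ c' ::ₘ 0) := by
  obtain ⟨P, x, a1, b1, c1, k1, k2, k3, k4⟩ := to_basic (K := K) hr hn _ a b c rfl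
  obtain ⟨Q, y, a2, b2, c2, l1, l2, l3, l4⟩ := to_basic (K := K) hr hn _ a' b' c' rfl
  have e : (fun i => a'.1 i + b'.1 i + c'.1 i) = fun i => a.1 i + b.1 i + c.1 i := by
    funext i; rw [h i]
  rw [e] at l1 l2
  have hs : ∑ i, (a.1 i + b.1 i + c.1 i) = 3 * d := by
    rw [Finset.sum_add_distrib, Finset.sum_add_distrib, a.2.1, b.2.1, c.2.1]; ring
  have key := nodes_linked (K := K) hn hr hs k1 l1
  have h1 := key a1 b1 c1 a2 b2 c2 k2 l2 k3 (fun i => (l3 i).trans (h i).symm)
  exact k4.trans (h1.trans l4.symm)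

end Pool.Agent.Helper46.PV
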