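import Pool.Agent.Helper46.PV.E

set_option autoImplicit false
set_option linter.unusedSectionVars false

/-!
The fibres of degree 4 and of degree at least 5 for `3 r + 1` colours.
-/

namespace Pool.Agent.Helper46.PV

open Pool.Agent.Helper857.PV

variable {n r d : ℕ} {K : Type} [Field K]

lemma card3 {s : ℕ} {S : Multiset (Gen n d s)} (h : S.card = 3) :
    ∃ a b c, S = a ::ₘ b ::ₘ c ::ₘ 0 := by
  rw [Multiset.card_eq_three] at h
  obtain ⟨a, b, c, rfl⟩ := h
  exact ⟨a, b, c, rfl⟩

lemma W3 {s : ℕ} (a b c : Gen n d s) (i : Fin n) :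
    W (a ::ₘ b ::ₘ c ::ₘ 0) i = a.1 i + b.1 i + c.1 i := by
  rw [W_cons, W_cons, W_cons, W_zero]
  simp only [Pi.add_apply, Pi.zero_apply]
  ring

theorem F3 (hr : 2 ≤ r) (hn : n = 3 * r + 1) (S T : Multiset (Gen n d (r + 1)))
    (hS : S.card = 3) (hT : T.card = 3) (h : W S = W T) : Re K S T := by
  obtain ⟨a, b, c, rfl⟩ := card3 hS
  obtain ⟨a', b', c', rfl⟩ := card3 hT
  apply fibre3 hr hn
  intro i
  rw [← W3, ← W3, h]

/-- three bins exist for every vector of total `3 d` -/
lemma ex3 (hr : 1 ≤ r) (hn : n = 3 * r + 1) (w : Fin n → ℕ) (hs : ∑ i, w i = 3 * d) :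
    ∃ S : Multiset (Gen n d (r + 1)), S.card = 3 ∧ W S = w := by
  obtain ⟨P, x, hB⟩ := three_node hn hr w hs
  obtain ⟨m, b, c, _, h⟩ := node_vertex hn hr w hs hB
  refine ⟨m ::ₘ b ::ₘ c ::ₘ 0, rfl, ?_⟩
  funext i
  rw [W3, h]

lemma sub_vec' (N : Fin n → ℕ) (m : ℕ) (h : m ≤ ∑ t, N t) :
    ∃ w : Fin n → ℕ, (∀ t, w t ≤ N t) ∧ ∑ t, w t = m := by
  induction m with
  | zero => exact ⟨fun _ => 0, fun _ => Nat.zero_le _, by simp⟩
  | succ m ih =>
    obtain ⟨w, h1, h2⟩ := ih (by omega)
    obtain ⟨t, ht⟩ : ∃ t, w t < N t := by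
      by_contra hcon
      push Not at hcon
      have : ∑ t, N t ≤ ∑ t, w t := Finset.sum_le_sum (fun t _ => hcon t)
      omega
    refine ⟨fun s => w s + if s = t then 1 else 0, ?_, ?_⟩
    · intro s
      show w s + (if s = t then 1 else 0) ≤ N s
      by_cases hs : s = t
      · rw [if_pos hs, hs]; omega
      · rw [if_neg hs]; exact h1 s
    · rw [Finset.sum_add_distrib, h2, Finset.sum_ite_eq', if_pos (Finset.mem_univ _)]

/-- a generator below every vector of total at least `3 d` -/
lemma below3 (hr : 1 ≤ r) (hn : n = 3 * r + 1) (w : Fin n → ℕ) (hs : 3 * d ≤ ∑ i, w i) :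
    ∃ g : Gen n d (r + 1), ∀ i, g.1 i ≤ w i := by
  obtain ⟨w', h1, h2⟩ := sub_vec' w (3 * d) hs
  obtain ⟨S, hS, hW⟩ := ex3 hr hn w' h2
  obtain ⟨a, b, c, rfl⟩ := card3 hS
  refine ⟨a, fun i => ?_⟩
  have e := congrFun hW i
  rw [W3] at e
  have := h1 i
  omega

lemma exk (hr : 1 ≤ r) (hn : n = 3 * r + 1) (k : ℕ) : ∀ w : Fin n → ℕ, ∑ i, w i = (k + 3) * d →
    ∃ S : Multiset (Gen n d (r + 1)), S.card = k + 3 ∧ W S = w := by
  induction k with
  | zero =>
    intro w hw
    rw [Nat.zero_add] at hw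
    exact ex3 hr hn w hw
  | succ k ih =>
    intro w hw
    have e1 : (k + 1 + 3) * d = (k + 3) * d + d := by ring
    have e2 : (k + 3) * d = k * d + 3 * d := by ring
    obtain ⟨g, hg⟩ := below3 (d := d) hr hn w (by omega)
    have e3 := sum_sub' w g.1 hg
    have e4 := g.2.1
    obtain ⟨S, hS, hW⟩ := ih (fun t => w t - g.1 t) (by omega)
    refine ⟨g ::ₘ S, by rw [Multiset.card_cons, hS], ?_⟩
    rw [W_cons, hW]
    funext t
    have := hg t
    show g.1 t + (w t - g.1 t) = w t
    omega

section K4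

variable (K)

/-- linked vertices of a fibre of degree 4 -/
def L4 (s : ℕ) (M : Fin n → ℕ) (m m' : Gen n d s) : Prop :=
  ∀ S S' : Multiset (Gen n d s), S.card = 3 → S'.card = 3 →
    (∀ i, m.1 i + W S i = M i) → (∀ i, m'.1 i + W S' i = M i) → Re K (m ::ₘ S) (m' ::ₘ S')

variable {K}

lemma L4.refl (hr : 2 ≤ r) (hn : n = 3 * r + 1) {M : Fin n → ℕ} (m : Gen n d (r + 1)) :
    L4 K (r + 1) M m m := by
  intro S S' hS hS' h h'
  apply Re.cons
  apply F3 hr hn _ _ hS hS'
  funext i
  have := h i
  have := h' i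
  omega

lemma L4.symm {s : ℕ} {M : Fin n → ℕ} {m m' : Gen n d s} (h : L4 K s M m m') :
    L4 K s M m' m := by
  intro S S' hS hS' h1 h2
  exact (h S' S hS' hS h2 h1).symm

lemma L4.trans (hr : 2 ≤ r) (hn : n = 3 * r + 1) {M : Fin n → ℕ} (hM : ∑ i, M i = 4 * d)
    {m m' m'' : Gen n d (r + 1)} (hm' : ∀ i, m'.1 i ≤ M i)
    (h : L4 K (r + 1) M m m') (h' : L4 K (r + 1) M m' m'') : L4 K (r + 1) M m m'' := by
  have e1 := sum_sub' M m'.1 hm'
  have e2 := m'.2.1
  obtain ⟨S0, hS0, hW0⟩ := ex3 (d := d) (by omega) hn (fun i => M i - m'.1 i) (by omega)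
  intro S S' hS hS' h1 h2
  have h3 : ∀ i, m'.1 i + W S0 i = M i := by
    intro i
    rw [hW0]
    have := hm' i
    show m'.1 i + (M i - m'.1 i) = M i
    omega
  exact (h S S0 hS hS0 h1 h3).trans (h' S0 S' hS0 hS' h3 h2)

/-- common neighbour -/
lemma L4.common (hr : 2 ≤ r) (hn : n = 3 * r + 1) {M : Fin n → ℕ}
    (m m' g a b a' b' : Gen n d (r + 1))
    (h1 : ∀ i, m.1 i + (g.1 i + a.1 i + b.1 i) = M i)
    (h2 : ∀ i, m'.1 i + (g.1 i + a'.1 i + b'.1 i) = M i) : L4 K (r + 1) M m m' := by
  intro S S' hS hS' k1 k2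
  have s1 : Re K (m ::ₘ S) (m ::ₘ g ::ₘ a ::ₘ b ::ₘ 0) := by
    apply Re.cons
    apply F3 hr hn _ _ hS rfl
    funext i
    rw [W3]
    have := h1 i
    have := k1 i
    omega
  have s2 : Re K (m' ::ₘ S') (m' ::ₘ g ::ₘ a' ::ₘ b' ::ₘ 0) := by
    apply Re.cons
    apply F3 hr hn _ _ hS' rfl
    funext i
    rw [W3]
    have := h2 i
    have := k2 i
    omega
  have s3 : Re K (g ::ₘ m ::ₘ a ::ₘ b ::ₘ 0) (g ::ₘ m' ::ₘ a' ::ₘ b' ::ₘ 0) := by
    apply Re.cons
    apply fibre3 hr hn
    intro i
    have := h1 i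
    have := h2 i
    omega
  rw [Multiset.cons_swap] at s1 s2
  exact s1.trans (s3.trans s2.symm)

/-- a common basic neighbour -/
lemma L4.node (hr : 2 ≤ r) (hn : n = 3 * r + 1) {M : Fin n → ℕ} (hM : ∑ i, M i = 4 * d)
    (m m' : Gen n d (r + 1)) (hm : ∀ i, m.1 i ≤ M i) (hm' : ∀ i, m'.1 i ≤ M i)
    (P : Finset (Fin n)) (x : Fin n) (hB : Bn (fun i => M i - m.1 i) r d P x)
    (hB' : Bn (fun i => M i - m'.1 i) r d P x) (hP : ∀ i ∈ P, m.1 i = m'.1 i) :
    L4 K (r + 1) M m m' := by
  have e1 := sum_sub' M m.1 hm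
  have e2 := m.2.1
  have e1' := sum_sub' M m'.1 hm'
  have e2' := m'.2.1
  obtain ⟨g, a, b, hg, hab⟩ := node_vertex hn (by omega) (fun i => M i - m.1 i) (by omega) hB
  obtain ⟨g', a', b', hg', hab'⟩ :=
    node_vertex hn (by omega) (fun i => M i - m'.1 i) (by omega) hB'
  have hgg : g = g' := by
    apply Subtype.ext
    rw [hg, hg']
    have e : sg (fun i => M i - m.1 i) P = sg (fun i => M i - m'.1 i) P := by
      apply Finset.sum_congr rfl
      intro i hi
      show M i - m.1 i = M i - m'.1 i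
      rw [hP i hi]
    funext i
    unfold bv
    rw [e]
    by_cases hi : i ∈ P
    · rw [if_pos hi, if_pos hi]
      show M i - m.1 i = M i - m'.1 i
      rw [hP i hi]
    · rw [if_neg hi, if_neg hi]
  subst hgg
  refine L4.common hr hn m m' g a b a' b' ?_ ?_
  · intro i
    have h1 : g.1 i + a.1 i + b.1 i = M i - m.1 i := hab i
    have := hm i
    omega
  · intro i
    have h1 : g.1 i + a'.1 i + b'.1 i = M i - m'.1 i := hab' i
    have := hm' i
    omega

/-- unit exchange when the other colours are not heavy -/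
lemma unit_ok (hr : 2 ≤ r) (hn : n = 3 * r + 1) {M : Fin n → ℕ} (hM : ∑ i, M i = 4 * d)
    (m m' : Gen n d (r + 1)) (hm : ∀ i, m.1 i ≤ M i) (hm' : ∀ i, m'.1 i ≤ M i)
    (i j : Fin n) (hij : i ≠ j) (h1 : m'.1 i + 1 = m.1 i) (h2 : m'.1 j = m.1 j + 1)
    (h3 : ∀ t, t ≠ i → t ≠ j → m'.1 t = m.1 t)
    (hR : ∃ R : Finset (Fin n), i ∉ R ∧ j ∉ R ∧ R.card = r ∧
      sg (fun t => M t - m.1 t) R ≤ d) : L4 K (r + 1) M m m' := by
  obtain ⟨R, hiR, hjR, hRc, hRd⟩ := hR
  set v : Fin n → ℕ := fun t => M t - m.1 t with hv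
  set v' : Fin n → ℕ := fun t => M t - m'.1 t with hv'
  have hvt : ∀ t, v t = M t - m.1 t := fun t => rfl
  have hvt' : ∀ t, v' t = M t - m'.1 t := fun t => rfl
  have hvs : ∑ t, v t = 3 * d := by
    have e1 := sum_sub' M m.1 hm
    have e2 := m.2.1
    have e3 : ∑ t, v t = ∑ t, (M t - m.1 t) := rfl
    omega
  set D : Finset (Fin n) := (Finset.univ.erase i).erase j with hD
  have hmem : ∀ t, t ∈ D ↔ t ≠ j ∧ t ≠ i := by
    intro t; rw [hD, Finset.mem_erase, Finset.mem_erase]; simp
  have hDc : D.card + 1 = 3 * r := by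
    rw [hD, Finset.card_erase_of_mem (Finset.mem_erase.mpr ⟨hij.symm, Finset.mem_univ _⟩),
      Finset.card_erase_of_mem (Finset.mem_univ _), Finset.card_univ, Fintype.card_fin]
    omega
  have hvv : ∀ t ∈ D, v t = v' t := by
    intro t ht
    rw [hmem] at ht
    rw [hvt, hvt', h3 t ht.2 ht.1]
  have hmm : ∀ t ∈ D, m.1 t = m'.1 t := by
    intro t ht
    rw [hmem] at ht
    rw [h3 t ht.2 ht.1]
  have hsgv : ∀ P ⊆ D, sg v P = sg v' P := by
    intro P hP
    exact Finset.sum_congr rfl (fun t ht => hvv t (hP ht))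
  have hvi : v i + 1 = v' i := by
    rw [hvt, hvt']
    have := hm i
    omega
  have hvj : v' j + 1 = v j := by
    rw [hvt, hvt']
    have := hm' j
    omega
  have hRD : R ⊆ D := by
    intro t ht
    rw [hmem]
    exact ⟨fun h => hjR (h ▸ ht), fun h => hiR (h ▸ ht)⟩
  by_cases hS : ∃ S ⊆ D, S.card = r + 1 ∧ d ≤ sg v S
  · obtain ⟨P, hPD, y, hyD, hyP, hPc, hP1, hP2⟩ := slide v D r d hS ⟨R, hRD, hRc, hRd⟩
    have hPv' := hsgv P hPD
    have hvy := hvv y hyD
    have q1 : Bn v r d P y := ⟨hPc, hyP, hP1, hP2⟩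
    have q2 : Bn v' r d P y := ⟨hPc, hyP, by omega, by omega⟩
    exact L4.node hr hn hM m m' hm hm' P y q1 q2 (fun t ht => hmm t (hPD ht))
  · push Not at hS
    obtain ⟨G, hGD, hGc, hGt⟩ := exists_top v D r (by omega)
    have hG2c : (D \ G).card + 1 = 2 * r := by
      rw [Finset.card_sdiff_of_subset hGD]; omega
    obtain ⟨G2, hG2, hG2c'⟩ := Finset.exists_subset_card_eq (s := D \ G) (n := r) (by omega)
    have hG3c : ((D \ G) \ G2).card + 1 = r := by
      rw [Finset.card_sdiff_of_subset hG2]; omega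
    have s1 : sg v (D \ G) + sg v G = sg v D := sg_sdiff v hGD
    have s2 : sg v ((D \ G) \ G2) + sg v G2 = sg v (D \ G) := sg_sdiff v hG2
    have c1 : sg v G2 ≤ sg v G := by
      apply cmp v (by omega)
      intro p hp q hq
      exact hGt q hq p (hG2 hp)
    have c2 : sg v ((D \ G) \ G2) ≤ sg v G := by
      apply cmp v (by omega)
      intro p hp q hq
      exact hGt q hq p (Finset.mem_sdiff.mp hp).1
    obtain ⟨t0, ht0⟩ : (D \ G).Nonempty := Finset.card_pos.mp (by omega)
    have ht0' := Finset.mem_sdiff.mp ht0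
    have hGd := hS (insert t0 G) (Finset.insert_subset ht0'.1 hGD)
      (by rw [Finset.card_insert_of_notMem ht0'.2, hGc])
    rw [sg_insert v ht0'.2] at hGd
    have htot : sg v D + v j + v i = 3 * d := by
      rw [← hvs]
      have e1 := Finset.add_sum_erase Finset.univ v (Finset.mem_univ i)
      have e2 := Finset.add_sum_erase (Finset.univ.erase i) v
        (Finset.mem_erase.mpr ⟨hij.symm, Finset.mem_univ j⟩)
      have e3 : sg v D = ∑ t ∈ (Finset.univ.erase i).erase j, v t := rfl
      omega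
    have hiG : i ∉ G := fun h => ((hmem i).mp (hGD h)).2 rfl
    have hjG : j ∉ G := fun h => ((hmem j).mp (hGD h)).1 rfl
    have hGv' := hsgv G hGD
    by_cases hci : d ≤ sg v G + v i
    · have q1 : Bn v r d G i := ⟨hGc, hiG, by omega, hci⟩
      have q2 : Bn v' r d G i := ⟨hGc, hiG, by omega, by omega⟩
      exact L4.node hr hn hM m m' hm hm' G i q1 q2 (fun t ht => hmm t (hGD ht))
    · have hcj : d + 1 ≤ sg v G + v j := by omega
      have q1 : Bn v r d G j := ⟨hGc, hjG, by omega, by omega⟩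
      have q2 : Bn v' r d G j := ⟨hGc, hjG, by omega, by omega⟩
      exact L4.node hr hn hM m m' hm hm' G j q1 q2 (fun t ht => hmm t (hGD ht))

/-- moving one unit of colour -/
lemma mk_unit {s : ℕ} (m : Gen n d s) (i k : Fin n) (hik : i ≠ k) (hi : m.1 i ≠ 0)
    (hc : (insert k ((sp m).erase i)).card ≤ s ∨ (insert k (sp m)).card ≤ s)
    (hc' : (insert k (sp m)).card ≤ s ∨ m.1 i = 1) :
    ∃ m' : Gen n d s, m'.1 i + 1 = m.1 i ∧ m'.1 k = m.1 k + 1 ∧
      (∀ t, t ≠ i → t ≠ k → m'.1 t = m.1 t) := by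
  have sp1 : ∑ t, (fun t => if t = i then m.1 i - 1 else if t = k then m.1 k + 1 else m.1 t) t
      = d := by
    refine Eq.trans ?_ m.2.1
    apply sum_two _ _ i k hik
    · intro t h1 h2; simp only [if_neg h1, if_neg h2]
    · simp only [if_pos, if_neg hik.symm]; omega
  have key : ∃ m' : Gen n d s, m'.1 =
      fun t => if t = i then m.1 i - 1 else if t = k then m.1 k + 1 else m.1 t := by
    rcases hc' with hc1 | hc1
    · apply mk_gen (s := s) _ sp1 (insert k (sp m)) hc1
      intro t ht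
      rw [Finset.mem_insert, not_or, mem_sp, not_not] at ht
      have h1 : t ≠ i := by
        rintro rfl
        exact hi ht.2
      simp only [if_neg h1, if_neg ht.1]
      exact ht.2
    · rcases hc with hc2 | hc2
      · apply mk_gen (s := s) _ sp1 (insert k ((sp m).erase i)) hc2
        intro t ht
        rw [Finset.mem_insert, not_or, Finset.mem_erase, not_and_or, not_not, mem_sp,
          not_not] at ht
        by_cases h1 : t = i
        · simp only [if_pos h1]; omega
        · simp only [if_neg h1, if_neg ht.1]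
          rcases ht.2 with h2 | h2
          · exact absurd h2 h1
          · exact h2
      · apply mk_gen (s := s) _ sp1 (insert k (sp m)) hc2
        intro t ht
        rw [Finset.mem_insert, not_or, mem_sp, not_not] at ht
        have h1 : t ≠ i := by
          rintro rfl
          exact hi ht.2
        simp only [if_neg h1, if_neg ht.1]
        exact ht.2
  obtain ⟨m', hm'⟩ := key
  refine ⟨m', ?_, ?_, ?_⟩
  · rw [hm']; simp only [if_pos]; omega
  · rw [hm']; simp only [if_neg hik.symm, if_pos]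
  · intro t h1 h2
    rw [hm']; simp only [if_neg h1, if_neg h2]

/-- unit exchanges are always linked -/
lemma unit_all (hr : 2 ≤ r) (hn : n = 3 * r + 1) {M : Fin n → ℕ} (hM : ∑ i, M i = 4 * d)
    (m m' : Gen n d (r + 1)) (hm : ∀ i, m.1 i ≤ M i) (hm' : ∀ i, m'.1 i ≤ M i)
    (i j : Fin n) (hij : i ≠ j) (h1 : m'.1 i + 1 = m.1 i) (h2 : m'.1 j = m.1 j + 1)
    (h3 : ∀ t, t ≠ i → t ≠ j → m'.1 t = m.1 t) : L4 K (r + 1) M m m' := by
  by_cases hR : ∃ R : Finset (Fin n), i ∉ R ∧ j ∉ R ∧ R.card = r ∧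
      sg (fun t => M t - m.1 t) R ≤ d
  · exact unit_ok hr hn hM m m' hm hm' i j hij h1 h2 h3 hR
  push Not at hR
  set v : Fin n → ℕ := fun t => M t - m.1 t with hv
  have hvt : ∀ t, v t = M t - m.1 t := fun t => rfl
  have hvs : ∑ t, v t = 3 * d := by
    have e1 := sum_sub' M m.1 hm
    have e2 := m.2.1
    have e3 : ∑ t, v t = ∑ t, (M t - m.1 t) := rfl
    omega
  set D : Finset (Fin n) := (Finset.univ.erase i).erase j with hD
  have hmem : ∀ t, t ∈ D ↔ t ≠ j ∧ t ≠ i := by
    intro t; rw [hD, Finset.mem_erase, Finset.mem_erase]; simp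
  have hDc : D.card + 1 = 3 * r := by
    rw [hD, Finset.card_erase_of_mem (Finset.mem_erase.mpr ⟨hij.symm, Finset.mem_univ _⟩),
      Finset.card_erase_of_mem (Finset.mem_univ _), Finset.card_univ, Fintype.card_fin]
    omega
  have htot : sg v D + v j + v i = 3 * d := by
    rw [← hvs]
    have e1 := Finset.add_sum_erase Finset.univ v (Finset.mem_univ i)
    have e2 := Finset.add_sum_erase (Finset.univ.erase i) v
      (Finset.mem_erase.mpr ⟨hij.symm, Finset.mem_univ j⟩)
    have e3 : sg v D = ∑ t ∈ (Finset.univ.erase i).erase j, v t := rfl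
    omega
  have hR' : ∀ R ⊆ D, R.card = r → d < sg v R := by
    intro R hRD hRc
    apply hR R _ _ hRc
    · intro h; exact ((hmem i).mp (hRD h)).2 rfl
    · intro h; exact ((hmem j).mp (hRD h)).1 rfl
  -- a suitable intermediate colour
  have hk : ∃ k ∈ D, 1 ≤ v k ∧ ∃ m1 : Gen n d (r + 1), m1.1 i + 1 = m.1 i ∧
      m1.1 k = m.1 k + 1 ∧ (∀ t, t ≠ i → t ≠ k → m1.1 t = m.1 t) := by
    have hpos : ∃ k ∈ D, 1 ≤ v k := by
      by_contra hcon
      push Not at hcon
      obtain ⟨R, hRD, hRc⟩ := Finset.exists_subset_card_eq (s := D) (n := r) (by omega)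
      have h4 := hR' R hRD hRc
      have h5 : sg v R = 0 := by
        apply Finset.sum_eq_zero
        intro t ht
        have := hcon t (hRD ht)
        omega
      omega
    have hmc := sp_card m
    have hi : m.1 i ≠ 0 := by omega
    have hisp : i ∈ sp m := mem_sp.mpr hi
    by_cases c1 : m.1 i = 1 ∨ (sp m).card ≤ r
    · obtain ⟨k, hkD, hkv⟩ := hpos
      refine ⟨k, hkD, hkv, ?_⟩
      have hik : i ≠ k := fun h => ((hmem k).mp hkD).2 h.symm
      apply mk_unit m i k hik hi
      · rcases c1 with c1 | c1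
        · left
          have := Finset.card_insert_le k ((sp m).erase i)
          rw [Finset.card_erase_of_mem hisp] at this
          omega
        · right
          have := Finset.card_insert_le k (sp m)
          omega
      · rcases c1 with c1 | c1
        · right; exact c1
        · left
          have := Finset.card_insert_le k (sp m)
          omega
    · rw [not_or] at c1
      obtain ⟨c11, c12⟩ := c1
      have hspc : (sp m).card = r + 1 := by omega
      have hjsp : j ∈ sp m := by
        by_contra hj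
        have e1 : insert j (sp m) ⊆ sp m' := by
          intro t ht
          rw [Finset.mem_insert] at ht
          rw [mem_sp]
          rcases ht with rfl | ht
          · omega
          · rw [mem_sp] at ht
            by_cases hti : t = i
            · rw [hti]; omega
            · by_cases htj : t = j
              · rw [htj]; omega
              · rw [h3 t hti htj]; exact ht
        have e2 := Finset.card_le_card e1
        rw [Finset.card_insert_of_notMem hj, hspc] at e2
        have := sp_card m'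
        omega
      set Z := ((sp m).erase i).erase j with hZ
      have hZc : Z.card + 1 = r := by
        rw [hZ, Finset.card_erase_of_mem (Finset.mem_erase.mpr ⟨hij.symm, hjsp⟩),
          Finset.card_erase_of_mem hisp]
        omega
      have hZD : Z ⊆ D := by
        intro t ht
        rw [hZ, Finset.mem_erase, Finset.mem_erase] at ht
        rw [hmem]
        exact ⟨ht.1, ht.2.1⟩
      obtain ⟨k, hkZ, hkv⟩ : ∃ k ∈ Z, 1 ≤ v k := by
        by_contra hcon
        push Not at hcon
        have hZ0 : sg v Z = 0 := by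
          apply Finset.sum_eq_zero
          intro t ht
          have := hcon t ht
          omega
        have hbig : ∀ t ∈ D \ Z, d + 1 ≤ v t := by
          intro t ht
          rw [Finset.mem_sdiff] at ht
          have := hR' (insert t Z) (Finset.insert_subset ht.1 hZD)
            (by rw [Finset.card_insert_of_notMem ht.2]; omega)
          rw [sg_insert v ht.2] at this
          omega
        have e1 : (D \ Z).card • (d + 1) ≤ sg v (D \ Z) :=
          Finset.card_nsmul_le_sum _ _ _ hbig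
        rw [Finset.card_sdiff_of_subset hZD, smul_eq_mul] at e1
        have e2 : sg v (D \ Z) + sg v Z = sg v D := sg_sdiff v hZD
        have e3 : 3 * (d + 1) ≤ (D.card - Z.card) * (d + 1) :=
          Nat.mul_le_mul_right _ (by omega)
        omega
      refine ⟨k, hZD hkZ, hkv, ?_⟩
      have hik : i ≠ k := fun h => ((hmem k).mp (hZD hkZ)).2 h.symm
      have hksp : k ∈ sp m := Finset.mem_of_mem_erase (Finset.mem_of_mem_erase hkZ)
      have e : insert k (sp m) = sp m := Finset.insert_eq_of_mem hksp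
      apply mk_unit m i k hik hi
      · right; rw [e]; exact hmc
      · left; rw [e]; exact hmc
  obtain ⟨k, hkD, hkv, m1, a1, a2, a3⟩ := hk
  have hkD' := (hmem k).mp hkD
  have hik : i ≠ k := fun h => hkD'.2 h.symm
  have hjk : j ≠ k := fun h => hkD'.1 h.symm
  have hm1 : ∀ t, m1.1 t ≤ M t := by
    intro t
    by_cases hti : t = i
    · rw [hti]; have := hm i; omega
    · by_cases htk : t = k
      · rw [htk]
        have := hvt k
        omega
      · rw [a3 t hti htk]; exact hm t
  -- a partition of the other colours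
  have hDk : (D.erase k).card + 2 = 3 * r := by
    rw [Finset.card_erase_of_mem hkD]; omega
  obtain ⟨R1, hR1, hR1c⟩ := Finset.exists_subset_card_eq (s := D.erase k) (n := r - 1) (by omega)
  have hd1 : ((D.erase k) \ R1).card + 1 = 2 * r := by
    rw [Finset.card_sdiff_of_subset hR1]; omega
  obtain ⟨R2, hR2, hR2c⟩ := Finset.exists_subset_card_eq (s := (D.erase k) \ R1) (n := r)
    (by omega)
  have hd2 : (((D.erase k) \ R1) \ R2).card + 1 = r := by
    rw [Finset.card_sdiff_of_subset hR2]; omega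
  have s0 := sg_erase v hkD
  have s1 : sg v ((D.erase k) \ R1) + sg v R1 = sg v (D.erase k) := sg_sdiff v hR1
  have s2 : sg v (((D.erase k) \ R1) \ R2) + sg v R2 = sg v ((D.erase k) \ R1) := sg_sdiff v hR2
  have hR2D : R2 ⊆ D := fun t ht =>
    Finset.mem_of_mem_erase (Finset.mem_sdiff.mp (hR2 ht)).1
  have h5 := hR' R2 hR2D hR2c
  have hk3 : k ∉ ((D.erase k) \ R1) \ R2 := by
    intro h
    exact (Finset.mem_erase.mp (Finset.mem_sdiff.mp (Finset.mem_sdiff.mp h).1).1).1 rfl
  have h6 := hR' (insert k (((D.erase k) \ R1) \ R2)) (by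
      apply Finset.insert_subset hkD
      intro t ht
      exact Finset.mem_of_mem_erase (Finset.mem_sdiff.mp (Finset.mem_sdiff.mp ht).1).1)
    (by rw [Finset.card_insert_of_notMem hk3]; omega)
  rw [sg_insert v hk3] at h6
  have hR1D : ∀ t ∈ R1, t ≠ i ∧ t ≠ j ∧ t ≠ k := by
    intro t ht
    have h7 := Finset.mem_erase.mp (hR1 ht)
    have h8 := (hmem t).mp h7.2
    exact ⟨h8.2, h8.1, h7.1⟩
  have hjR1 : j ∉ R1 := fun h => (hR1D j h).2.1 rfl
  have hiR1 : i ∉ R1 := fun h => (hR1D i h).1 rfl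
  have hkR1 : k ∉ R1 := fun h => (hR1D k h).2.2 rfl
  have L1 : L4 K (r + 1) M m m1 := by
    refine unit_ok hr hn hM m m1 hm hm1 i k hik a1 a2 a3 ⟨insert j R1, ?_, ?_, ?_, ?_⟩
    · rw [Finset.mem_insert, not_or]; exact ⟨hij, hiR1⟩
    · rw [Finset.mem_insert, not_or]; exact ⟨hjk.symm, hkR1⟩
    · rw [Finset.card_insert_of_notMem hjR1, hR1c]; omega
    · have : sg v (insert j R1) = v j + sg v R1 := sg_insert v hjR1
      show sg v (insert j R1) ≤ d
      omega
  have L2 : L4 K (r + 1) M m1 m' := by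
    refine unit_ok hr hn hM m1 m' hm1 hm' k j hjk.symm ?_ ?_ ?_ ⟨insert i R1, ?_, ?_, ?_, ?_⟩
    · rw [h3 k hik.symm hjk.symm]; omega
    · rw [a3 j hij.symm hjk]; omega
    · intro t htk htj
      by_cases hti : t = i
      · rw [hti]; omega
      · rw [h3 t hti htj, a3 t hti htk]
    · rw [Finset.mem_insert, not_or]; exact ⟨hik.symm, hkR1⟩
    · rw [Finset.mem_insert, not_or]; exact ⟨hij.symm, hjR1⟩
    · rw [Finset.card_insert_of_notMem hiR1, hR1c]; omega
    · have e1 : sg (fun t => M t - m1.1 t) (insert i R1)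
          = (M i - m1.1 i) + sg (fun t => M t - m1.1 t) R1 :=
        sg_insert (fun t => M t - m1.1 t) hiR1
      have e2 : sg (fun t => M t - m1.1 t) R1 = sg v R1 := by
        apply Finset.sum_congr rfl
        intro t ht
        obtain ⟨q1, q2, q3⟩ := hR1D t ht
        show M t - m1.1 t = M t - m.1 t
        rw [a3 t q1 q3]
      have e3 := hm i
      have e4 := hvt i
      omega
  exact L4.trans hr hn hM hm1 L1 L2

/-- generators supported in a common small set are linked -/
lemma same_supp (hr : 2 ≤ r) (hn : n = 3 * r + 1) {M : Fin n → ℕ} (hM : ∑ i, M i = 4 * d)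
    (S : Finset (Fin n)) (hS : S.card ≤ r + 1) : ∀ (k : ℕ) (m m' : Gen n d (r + 1)),
    ∑ t, (m.1 t - m'.1 t) = k →
    (∀ i, m.1 i ≤ M i) → (∀ i, m'.1 i ≤ M i) → (∀ i, i ∉ S → m.1 i = 0) →
    (∀ i, i ∉ S → m'.1 i = 0) → L4 K (r + 1) M m m' := by
  intro k
  induction k with
  | zero =>
    intro m m' hk hm hm' h1 h2
    have hle : ∀ t, m.1 t ≤ m'.1 t := by
      intro t
      have := Finset.sum_eq_zero_iff.mp hk t (Finset.mem_univ t)
      omega
    have he : m = m' := by
      apply Subtype.ext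
      funext t
      by_contra hne
      have hlt : m.1 t < m'.1 t := lt_of_le_of_ne (hle t) hne
      have := Finset.sum_lt_sum (fun t _ => hle t) ⟨t, Finset.mem_univ t, hlt⟩
      have e1 := m.2.1
      have e2 := m'.2.1
      omega
    rw [he]
    exact L4.refl hr hn m'
  | succ k ih =>
    intro m m' hk hm hm' h1 h2
    obtain ⟨i, hi⟩ : ∃ i, m'.1 i < m.1 i := by
      by_contra hcon
      push Not at hcon
      have : ∑ t, (m.1 t - m'.1 t) = 0 := by
        apply Finset.sum_eq_zero
        intro t _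
        have := hcon t
        omega
      omega
    obtain ⟨j, hj⟩ : ∃ j, m.1 j < m'.1 j := by
      by_contra hcon
      push Not at hcon
      have := Finset.sum_lt_sum (fun t _ => hcon t) ⟨i, Finset.mem_univ i, hi⟩
      have e1 := m.2.1
      have e2 := m'.2.1
      omega
    have hij : i ≠ j := by
      rintro rfl
      omega
    have hspS : insert j (sp m) ⊆ S := by
      intro t ht
      by_contra hc
      rw [Finset.mem_insert, mem_sp] at ht
      rcases ht with rfl | ht
      · have := h2 t hc; omega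
      · exact ht (h1 t hc)
    have hcard : (insert j (sp m)).card ≤ r + 1 := le_trans (Finset.card_le_card hspS) hS
    obtain ⟨m1, a1, a2, a3⟩ := mk_unit m i j hij (by omega) (Or.inr hcard) (Or.inl hcard)
    have hm1 : ∀ t, m1.1 t ≤ M t := by
      intro t
      by_cases hti : t = i
      · rw [hti]; have := hm i; omega
      · by_cases htj : t = j
        · rw [htj]; have := hm' j; omega
        · rw [a3 t hti htj]; exact hm t
    have hm1S : ∀ t, t ∉ S → m1.1 t = 0 := by
      intro t ht
      have hti : t ≠ i := by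
        rintro rfl
        have := h1 t ht
        omega
      have htj : t ≠ j := by
        rintro rfl
        have := h2 t ht
        omega
      rw [a3 t hti htj]; exact h1 t ht
    have hs1 : ∑ t, (m1.1 t - m'.1 t) = k := by
      have e1 : ∑ t, (m.1 t - m'.1 t) = ∑ t, ((m1.1 t - m'.1 t) + if t = i then 1 else 0) := by
        apply Finset.sum_congr rfl
        intro t _
        by_cases hti : t = i
        · rw [if_pos hti, hti]; omega
        · rw [if_neg hti]
          by_cases htj : t = j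
          · rw [htj]; omega
          · rw [a3 t hti htj]; omega
      rw [Finset.sum_add_distrib, Finset.sum_ite_eq', if_pos (Finset.mem_univ _)] at e1
      omega
    exact L4.trans hr hn hM hm1 (unit_all hr hn hM m m1 hm hm1 i j hij a1 a2 a3)
      (ih m1 m' hs1 hm1 hm' hm1S h2)

end K4

end Pool.Agent.Helper46.PV
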