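import Pool.Agent.Helper46.PV.F

set_option autoImplicit false
set_option linter.unusedSectionVars false

/-!
`PV(3r+1, d, r+1)` is quadratic for `r ≥ 2` and every `d`.
-/

namespace Pool.Agent.Helper46.PV

open Pool.Agent.Helper857.PV

variable {n r d : ℕ} {K : Type} [Field K]

/-- replacing a colour completely -/
lemma mk_swap {s : ℕ} (m : Gen n d s) (i k : Fin n) (hik : i ≠ k) (hk : m.1 k = 0)
    (hi : m.1 i ≠ 0) :
    ∃ m' : Gen n d s, m'.1 i = 0 ∧ m'.1 k = m.1 i ∧ (∀ t, t ≠ i → t ≠ k → m'.1 t = m.1 t) ∧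
      sp m' = insert k ((sp m).erase i) := by
  have sp1 : ∑ t, (fun t => if t = i then 0 else if t = k then m.1 i else m.1 t) t = d := by
    refine Eq.trans ?_ m.2.1
    apply sum_two _ _ i k hik
    · intro t h1 h2; simp only [if_neg h1, if_neg h2]
    · simp only [if_pos, if_neg hik.symm]; omega
  have hisp : i ∈ sp m := mem_sp.mpr hi
  have hc : (insert k ((sp m).erase i)).card ≤ s := by
    have h1 := Finset.card_insert_le k ((sp m).erase i)
    rw [Finset.card_erase_of_mem hisp] at h1
    have h2 := sp_card m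
    have h3 : 0 < (sp m).card := Finset.card_pos.mpr ⟨i, hisp⟩
    omega
  obtain ⟨m', hm'⟩ := mk_gen (s := s) _ sp1 (insert k ((sp m).erase i)) hc (by
    intro t ht
    rw [Finset.mem_insert, not_or, Finset.mem_erase, not_and_or, not_not, mem_sp, not_not] at ht
    by_cases h1 : t = i
    · simp only [if_pos h1]
    · simp only [if_neg h1, if_neg ht.1]
      rcases ht.2 with h2 | h2
      · exact absurd h2 h1
      · exact h2)
  have e1 : m'.1 i = 0 := by rw [hm']; simp only [if_pos]
  have e2 : m'.1 k = m.1 i := by rw [hm']; simp only [if_neg hik.symm, if_pos]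
  have e3 : ∀ t, t ≠ i → t ≠ k → m'.1 t = m.1 t := by
    intro t h1 h2
    rw [hm']; simp only [if_neg h1, if_neg h2]
  refine ⟨m', e1, e2, e3, ?_⟩
  ext t
  rw [mem_sp, Finset.mem_insert, Finset.mem_erase, mem_sp]
  by_cases h1 : t = i
  · rw [h1, e1]
    simp [hik]
  · by_cases h2 : t = k
    · rw [h2, e2]; simp [hi]
    · rw [e3 t h1 h2]
      simp [h1, h2]

/-- the jump -/
lemma jump (hr : 2 ≤ r) (hn : n = 3 * r + 1) {M : Fin n → ℕ} (hM : ∑ i, M i = 4 * d)
    (m : Gen n d (r + 1)) (hm : ∀ i, m.1 i ≤ M i) (hc : (sp m).card = r + 1)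
    (hlow : ∀ t ∈ sp m, sg M ((sp m).erase t) < d) :
    ∃ m' : Gen n d (r + 1), (∀ i, m'.1 i ≤ M i) ∧ L4 K (r + 1) M m m' ∧
      sg M (sp m) < sg M (sp m') := by
  obtain ⟨i, hi, himin⟩ := Finset.exists_min_image (sp m) M (Finset.card_pos.mp (by omega))
  have hSc : (sp m)ᶜ.card = 2 * r := by
    rw [Finset.card_compl, Fintype.card_fin, hc]; omega
  obtain ⟨k, hk, hkmax⟩ := Finset.exists_max_image (sp m)ᶜ M (Finset.card_pos.mp (by omega))
  rw [Finset.mem_compl] at hk
  have hik : i ≠ k := fun h => hk (h ▸ hi)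
  have hmi : m.1 i ≠ 0 := mem_sp.mp hi
  have hmk : m.1 k = 0 := by
    by_contra h
    exact hk (mem_sp.mpr h)
  have hlow' := hlow i hi
  have hSe := sg_erase M hi
  have hSic : ((sp m).erase i).card = r := by
    rw [Finset.card_erase_of_mem hi, hc]; omega
  have hri : r * M i ≤ sg M ((sp m).erase i) := by
    have := Finset.card_nsmul_le_sum ((sp m).erase i) M (M i)
      (fun t ht => himin t (Finset.mem_of_mem_erase ht))
    rw [hSic, smul_eq_mul] at this
    exact this
  have hrk : sg M (sp m)ᶜ ≤ 2 * r * M k := by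
    have := Finset.sum_le_card_nsmul (sp m)ᶜ M (M k) hkmax
    rw [hSc, smul_eq_mul] at this
    exact this
  have hsp := sg_univ_split (u := M) (sp m)
  have hst : sg M Finset.univ = 4 * d := hM
  have hlt : M i < M k := by
    by_contra hcon
    push Not at hcon
    have h1 : 2 * r * M k ≤ 2 * r * M i := Nat.mul_le_mul_left _ hcon
    have h2 : 2 * r * M i = 2 * (r * M i) := by ring
    have h3 : M i ≤ r * M i := Nat.le_mul_of_pos_left _ (by omega)
    omega
  obtain ⟨m', a1, a2, a3, a4⟩ := mk_swap m i k hik hmk hmi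
  have hmile := hm i
  have hm' : ∀ t, m'.1 t ≤ M t := by
    intro t
    by_cases hti : t = i
    · rw [hti, a1]; exact Nat.zero_le _
    · by_cases htk : t = k
      · rw [htk, a2]; omega
      · rw [a3 t hti htk]; exact hm t
  refine ⟨m', hm', ?_, ?_⟩
  · -- the link
    set v : Fin n → ℕ := fun t => M t - m.1 t with hv
    set v' : Fin n → ℕ := fun t => M t - m'.1 t with hv'
    have hvt : ∀ t, v t = M t - m.1 t := fun t => rfl
    have hvt' : ∀ t, v' t = M t - m'.1 t := fun t => rfl
    have hvs : ∑ t, v t = 3 * d := by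
      have e1 := sum_sub' M m.1 hm
      have e2 := m.2.1
      have e3 : ∑ t, v t = ∑ t, (M t - m.1 t) := rfl
      omega
    set D : Finset (Fin n) := (Finset.univ.erase i).erase k with hD
    have hmem : ∀ t, t ∈ D ↔ t ≠ k ∧ t ≠ i := by
      intro t; rw [hD, Finset.mem_erase, Finset.mem_erase]; simp
    have hDc : D.card + 1 = 3 * r := by
      rw [hD, Finset.card_erase_of_mem (Finset.mem_erase.mpr ⟨hik.symm, Finset.mem_univ _⟩),
        Finset.card_erase_of_mem (Finset.mem_univ _), Finset.card_univ, Fintype.card_fin]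
      omega
    have hmm : ∀ t ∈ D, m.1 t = m'.1 t := by
      intro t ht
      rw [hmem] at ht
      rw [a3 t ht.2 ht.1]
    have hvv : ∀ t ∈ D, v t = v' t := by
      intro t ht
      rw [hvt, hvt', hmm t ht]
    have hsgv : ∀ P ⊆ D, sg v P = sg v' P := by
      intro P hP
      exact Finset.sum_congr rfl (fun t ht => hvv t (hP ht))
    have htot : sg v D + v k + v i = 3 * d := by
      rw [← hvs]
      have e1 := Finset.add_sum_erase Finset.univ v (Finset.mem_univ i)
      have e2 := Finset.add_sum_erase (Finset.univ.erase i) v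
        (Finset.mem_erase.mpr ⟨hik.symm, Finset.mem_univ k⟩)
      have e3 : sg v D = ∑ t ∈ (Finset.univ.erase i).erase k, v t := rfl
      omega
    have hRD : (sp m).erase i ⊆ D := by
      intro t ht
      rw [Finset.mem_erase] at ht
      rw [hmem]
      exact ⟨fun h => hk (h ▸ ht.2), ht.1⟩
    have hRd : sg v ((sp m).erase i) ≤ d := by
      have : sg v ((sp m).erase i) ≤ sg M ((sp m).erase i) :=
        Finset.sum_le_sum (fun t _ => Nat.sub_le _ _)
      omega
    have hvk : v k = M k := by rw [hvt, hmk]; omega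
    have hvk' : v' k + m.1 i = M k := by rw [hvt', a2]; omega
    have hvi : v i + m.1 i = M i := by rw [hvt]; omega
    by_cases hS : ∃ S ⊆ D, S.card = r + 1 ∧ d ≤ sg v S
    · obtain ⟨P, hPD, y, hyD, hyP, hPc, hP1, hP2⟩ := slide v D r d hS ⟨_, hRD, hSic, hRd⟩
      have hPv' := hsgv P hPD
      have hvy := hvv y hyD
      have q1 : Bn v r d P y := ⟨hPc, hyP, hP1, hP2⟩
      have q2 : Bn v' r d P y := ⟨hPc, hyP, by omega, by omega⟩
      exact L4.node hr hn hM m m' hm hm' P y q1 q2 (fun t ht => hmm t (hPD ht))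
    · push Not at hS
      obtain ⟨G, hGD, hGc, hGt⟩ := exists_top v D r (by omega)
      have hG2c : (D \ G).card + 1 = 2 * r := by
        rw [Finset.card_sdiff_of_subset hGD]; omega
      obtain ⟨G2, hG2, hG2c'⟩ := Finset.exists_subset_card_eq (s := D \ G) (n := r) (by omega)
      have hG3c : ((D \ G) \ G2).card + 1 = r := by
        rw [Finset.card_sdiff_of_subset hG2]; omega
      have s1 : sg v (D \ G) + sg v G = sg v D := sg_sdiff v hGD
      have s2 : sg v ((D \ G) \ G2) + sg v G2 = sg v (D \ G) := sg_sdiff v hG2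
      have c1 : sg v G2 ≤ sg v G := by
        apply cmp v (by omega)
        intro p hp q hq
        exact hGt q hq p (hG2 hp)
      have c3 : r * sg v ((D \ G) \ G2) ≤ (r - 1) * sg v G := by
        have h1 : ∀ t ∈ (D \ G) \ G2, r * v t ≤ sg v G := by
          intro t ht
          have := Finset.card_nsmul_le_sum G v (v t)
            (fun g hg => hGt g hg t (Finset.mem_sdiff.mp ht).1)
          rw [hGc, smul_eq_mul] at this
          exact this
        have h2 := Finset.sum_le_card_nsmul ((D \ G) \ G2) (fun t => r * v t) (sg v G) h1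
        rw [← Finset.mul_sum, smul_eq_mul] at h2
        have h3 : ((D \ G) \ G2).card = r - 1 := by omega
        rw [h3] at h2
        exact h2
      obtain ⟨t0, ht0⟩ : (D \ G).Nonempty := Finset.card_pos.mp (by omega)
      have ht0' := Finset.mem_sdiff.mp ht0
      have hGd := hS (insert t0 G) (Finset.insert_subset ht0'.1 hGD)
        (by rw [Finset.card_insert_of_notMem ht0'.2, hGc])
      rw [sg_insert v ht0'.2] at hGd
      have hkG : k ∉ G := fun h => ((hmem k).mp (hGD h)).1 rfl
      have hGv' := hsgv G hGD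
      have hck : d ≤ sg v G + v' k := by
        by_contra hcon
        push Not at hcon
        -- r * (v(G3) + M i) < r * d
        have h1 : (r - 1) * sg v G ≤ (r - 1) * d := Nat.mul_le_mul_left _ (by omega)
        have h2 : (r - 1) * d + d = r * d := by
          obtain ⟨q, rfl⟩ : ∃ q, r = q + 1 := ⟨r - 1, by omega⟩
          rw [Nat.add_sub_cancel]; ring
        have h3 : r * (sg v ((D \ G) \ G2) + M i) < r * d := by
          rw [Nat.mul_add]
          omega
        have h4 : sg v ((D \ G) \ G2) + M i < d := Nat.lt_of_mul_lt_mul_left h3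
        omega
      have q1 : Bn v r d G k := ⟨hGc, hkG, by omega, by omega⟩
      have q2 : Bn v' r d G k := ⟨hGc, hkG, by omega, by omega⟩
      exact L4.node hr hn hM m m' hm hm' G k q1 q2 (fun t ht => hmm t (hGD ht))
  · rw [a4, sg_insert M (by
      intro h
      exact hk (Finset.mem_of_mem_erase h))]
    omega

/-- every generator is linked to one supported in a top set -/
lemma to_T0 (hr : 2 ≤ r) (hn : n = 3 * r + 1) {M : Fin n → ℕ} (hM : ∑ i, M i = 4 * d)
    (T0 : Finset (Fin n)) (hT0 : T0.card = r) (htop : ∀ g ∈ T0, ∀ x, x ∉ T0 → M x ≤ M g) :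
    ∀ m : Gen n d (r + 1), (∀ i, m.1 i ≤ M i) →
      ∃ m' : Gen n d (r + 1), (∀ i, m'.1 i ≤ M i) ∧ (∀ i, i ∉ T0 → m'.1 i = 0) ∧
        L4 K (r + 1) M m m' := by
  -- first: generators with small support
  have small : ∀ (k : ℕ) (m : Gen n d (r + 1)), (sp m \ T0).card = k → (sp m).card ≤ r →
      (∀ i, m.1 i ≤ M i) →
      ∃ m' : Gen n d (r + 1), (∀ i, m'.1 i ≤ M i) ∧ (∀ i, i ∉ T0 → m'.1 i = 0) ∧
        L4 K (r + 1) M m m' := by
    intro k
    induction k with
    | zero =>
      intro m hk _ hm
      refine ⟨m, hm, ?_, L4.refl hr hn m⟩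
      intro i hi
      by_contra hne
      have h1 : i ∈ sp m \ T0 := Finset.mem_sdiff.mpr ⟨mem_sp.mpr hne, hi⟩
      rw [Finset.card_eq_zero.mp hk] at h1
      exact absurd h1 (Finset.notMem_empty i)
    | succ k ih =>
      intro m hk hc hm
      obtain ⟨i, hi⟩ : (sp m \ T0).Nonempty := Finset.card_pos.mp (by omega)
      have hi' := Finset.mem_sdiff.mp hi
      obtain ⟨j, hj⟩ : (T0 \ sp m).Nonempty := by
        have e1 := Finset.card_sdiff_add_card_inter (sp m) T0
        have e2 := Finset.card_sdiff_add_card_inter T0 (sp m)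
        rw [Finset.inter_comm] at e2
        exact Finset.card_pos.mp (by omega)
      have hj' := Finset.mem_sdiff.mp hj
      have hij : i ≠ j := fun h => hi'.2 (h ▸ hj'.1)
      have hmi : m.1 i ≠ 0 := mem_sp.mp hi'.1
      have hmj : m.1 j = 0 := by
        by_contra h
        exact hj'.2 (mem_sp.mpr h)
      obtain ⟨m1, a1, a2, a3, a4⟩ := mk_swap m i j hij hmj hmi
      have hMij := htop j hj'.1 i hi'.2
      have hmile := hm i
      have hm1 : ∀ t, m1.1 t ≤ M t := by
        intro t
        by_cases hti : t = i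
        · rw [hti, a1]; exact Nat.zero_le _
        · by_cases htk : t = j
          · rw [htk, a2]; omega
          · rw [a3 t hti htk]; exact hm t
      have hlink : L4 K (r + 1) M m m1 := by
        refine same_supp hr hn hM (insert j (sp m)) ?_ _ m m1 rfl hm hm1 ?_ ?_
        · rw [Finset.card_insert_of_notMem hj'.2]; omega
        · intro t ht
          rw [Finset.mem_insert, not_or, mem_sp, not_not] at ht
          exact ht.2
        · intro t ht
          rw [Finset.mem_insert, not_or, mem_sp, not_not] at ht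
          have hti : t ≠ i := by
            rintro rfl
            exact hmi ht.2
          rw [a3 t hti ht.1]
          exact ht.2
      have hjn : j ∉ (sp m).erase i := fun h => hj'.2 (Finset.mem_of_mem_erase h)
      have hc1 : (sp m1).card ≤ r := by
        rw [a4, Finset.card_insert_of_notMem hjn, Finset.card_erase_of_mem hi'.1]
        have : 0 < (sp m).card := Finset.card_pos.mpr ⟨i, hi'.1⟩
        omega
      have hk1 : (sp m1 \ T0).card = k := by
        have e : sp m1 \ T0 = (sp m \ T0).erase i := by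
          rw [a4]
          ext t
          rw [Finset.mem_sdiff, Finset.mem_insert, Finset.mem_erase, Finset.mem_erase,
            Finset.mem_sdiff]
          constructor
          · rintro ⟨h1 | h1, h2⟩
            · exact absurd (h1 ▸ hj'.1) h2
            · exact ⟨h1.1, h1.2, h2⟩
          · rintro ⟨h1, h2, h3⟩
            exact ⟨Or.inr ⟨h1, h2⟩, h3⟩
        rw [e, Finset.card_erase_of_mem hi]; omega
      obtain ⟨m', b1, b2, b3⟩ := ih m1 hk1 hc1 hm1
      exact ⟨m', b1, b2, L4.trans hr hn hM hm1 hlink b3⟩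
  -- the general case
  have big : ∀ (k : ℕ) (m : Gen n d (r + 1)), 4 * d - sg M (sp m) = k → (∀ i, m.1 i ≤ M i) →
      ∃ m' : Gen n d (r + 1), (∀ i, m'.1 i ≤ M i) ∧ (∀ i, i ∉ T0 → m'.1 i = 0) ∧
        L4 K (r + 1) M m m' := by
    intro k
    induction k using Nat.strong_induction_on with
    | _ k ih =>
    intro m hk hm
    by_cases hc : (sp m).card ≤ r
    · exact small _ m rfl hc hm
    have hspc := sp_card m
    by_cases hlow : ∀ t ∈ sp m, sg M ((sp m).erase t) < d
    · obtain ⟨m1, b1, b2, b3⟩ := jump (K := K) hr hn hM m hm (by omega) hlow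
      have hle : sg M (sp m1) ≤ 4 * d := by
        have : sg M (sp m1) ≤ sg M Finset.univ := sg_mono M (Finset.subset_univ _)
        have h2 : sg M Finset.univ = 4 * d := hM
        omega
      obtain ⟨m', c1, c2, c3⟩ := ih _ (by omega) m1 rfl b1
      exact ⟨m', c1, c2, L4.trans hr hn hM b1 b2 c3⟩
    · push Not at hlow
      obtain ⟨t, ht, htd⟩ := hlow
      -- a generator supported in the support of m minus t
      obtain ⟨w, w1, w2⟩ := sub_vec' (fun i => if i ∈ (sp m).erase t then M i else 0) d (by
        have : ∑ i, (fun i => if i ∈ (sp m).erase t then M i else 0) i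
            = ∑ i ∈ (sp m).erase t, M i := by
          rw [Finset.sum_ite_mem, Finset.univ_inter]
        rw [this]
        exact htd)
      have hw0 : ∀ i, i ∉ (sp m).erase t → w i = 0 := by
        intro i hi
        have h1 : w i ≤ if i ∈ (sp m).erase t then M i else 0 := w1 i
        rw [if_neg hi] at h1
        omega
      have hcard : ((sp m).erase t).card ≤ r := by
        rw [Finset.card_erase_of_mem ht]; omega
      obtain ⟨m1, hm1⟩ := mk_gen (s := r + 1) w w2 ((sp m).erase t) (by omega) hw0
      have hm1M : ∀ i, m1.1 i ≤ M i := by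
        intro i
        rw [hm1]
        by_cases hi : i ∈ (sp m).erase t
        · have h1 : w i ≤ if i ∈ (sp m).erase t then M i else 0 := w1 i
          rw [if_pos hi] at h1
          exact h1
        · rw [hw0 i hi]; exact Nat.zero_le _
      have hlink : L4 K (r + 1) M m m1 := by
        refine same_supp hr hn hM (sp m) hspc _ m m1 rfl hm hm1M ?_ ?_
        · intro i hi
          rw [mem_sp, not_not] at hi
          exact hi
        · intro i hi
          rw [hm1]
          exact hw0 i (fun h => hi (Finset.mem_of_mem_erase h))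
      have hc1 : (sp m1).card ≤ r := by
        refine le_trans (Finset.card_le_card ?_) hcard
        intro i hi
        rw [mem_sp, hm1] at hi
        by_contra hne
        exact hi (hw0 i hne)
      obtain ⟨m', c1, c2, c3⟩ := small _ m1 rfl hc1 hm1M
      exact ⟨m', c1, c2, L4.trans hr hn hM hm1M hlink c3⟩
  intro m hm
  exact big _ m rfl hm

theorem F4 (hr : 2 ≤ r) (hn : n = 3 * r + 1) (S T : Multiset (Gen n d (r + 1)))
    (hS : S.card = 4) (hT : T.card = 4) (h : W S = W T) : Re K S T := by
  have split : ∀ U : Multiset (Gen n d (r + 1)), U.card = 4 →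
      ∃ u U', U = u ::ₘ U' ∧ U'.card = 3 := by
    intro U hU
    obtain ⟨u, hu⟩ := Multiset.card_pos_iff_exists_mem.mp (by rw [hU]; omega : 0 < U.card)
    obtain ⟨U', rfl⟩ := Multiset.exists_cons_of_mem hu
    rw [Multiset.card_cons] at hU
    exact ⟨u, U', rfl, by omega⟩
  obtain ⟨m, S', rfl, hS'⟩ := split S hS
  obtain ⟨m', T', rfl, hT'⟩ := split T hT
  set M := W (m ::ₘ S') with hMdef
  have hMs : ∑ i, M i = 4 * d := by
    rw [hMdef, W_sum, hS]; ring
  have hm : ∀ i, m.1 i + W S' i = M i := by
    intro i; rw [hMdef, W_cons]; rfl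
  have hm' : ∀ i, m'.1 i + W T' i = M i := by
    intro i; rw [h, W_cons]; rfl
  obtain ⟨T0, -, hT0c, hT0t⟩ := exists_top M Finset.univ r (by
    rw [Finset.card_univ, Fintype.card_fin]; omega)
  have htop : ∀ g ∈ T0, ∀ x, x ∉ T0 → M x ≤ M g := fun g hg x hx =>
    hT0t g hg x (Finset.mem_sdiff.mpr ⟨Finset.mem_univ x, hx⟩)
  obtain ⟨p, p1, p2, p3⟩ := to_T0 (K := K) hr hn hMs T0 hT0c htop m
    (fun i => by have := hm i; omega)
  obtain ⟨q, q1, q2, q3⟩ := to_T0 (K := K) hr hn hMs T0 hT0c htop m'
    (fun i => by have := hm' i; omega)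
  have hpq : L4 K (r + 1) M p q :=
    same_supp hr hn hMs T0 (by omega) _ p q rfl p1 q1 p2 q2
  have hfin : L4 K (r + 1) M m m' :=
    L4.trans hr hn hMs p1 p3 (L4.trans hr hn hMs q1 hpq q3.symm)
  exact hfin S' T' hS' hT' hm hm'

/-- the main theorem for exactly `3 r + 1` variables -/
theorem quad_exact (K : Type) [Field K] (n r d : ℕ) (hr : 2 ≤ r) (hn : n = 3 * r + 1)
    (hd : 1 ≤ d) : IsQuadratic K n d (r + 1) := by
  apply quad_of
  have key : ∀ k : ℕ, ∀ S T : Multiset (Gen n d (r + 1)), S.card = k → W S = W T →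
      Re K S T := by
    intro k
    induction k using Nat.strong_induction_on with
    | _ k ih =>
    intro S T hS hW
    have hcard : T.card = k := by
      have h1 := W_sum S
      have h2 := W_sum T
      rw [hW, h2, hS] at h1
      exact Nat.eq_of_mul_eq_mul_left hd h1
    by_cases hk0 : k = 0
    · rw [hk0] at hS hcard
      rw [Multiset.card_eq_zero] at hS hcard
      rw [hS, hcard]
      exact Re.refl _
    by_cases hk1 : k = 1
    · rw [hk1] at hS hcard
      rw [Multiset.card_eq_one] at hS hcard
      obtain ⟨u, rfl⟩ := hS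
      obtain ⟨v, rfl⟩ := hcard
      have : u = v := by
        apply Subtype.ext
        simpa [W] using hW
      rw [this]
      exact Re.refl _
    by_cases hk2 : k = 2
    · rw [hk2] at hS hcard
      rw [Multiset.card_eq_two] at hS hcard
      obtain ⟨u, v, rfl⟩ := hS
      obtain ⟨u', v', rfl⟩ := hcard
      apply Re.move
      simpa [W] using hW
    by_cases hk3 : k = 3
    · exact F3 hr hn S T (by omega) (by omega) hW
    by_cases hk4 : k = 4
    · exact F4 hr hn S T (by omega) (by omega) hW
    -- k ≥ 5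
    obtain ⟨j, rfl⟩ : ∃ j, k = j + 5 := ⟨k - 5, by omega⟩
    have split : ∀ U : Multiset (Gen n d (r + 1)), U.card = j + 5 →
        ∃ u U', U = u ::ₘ U' ∧ U'.card = j + 4 := by
      intro U hU
      obtain ⟨u, hu⟩ := Multiset.card_pos_iff_exists_mem.mp (by rw [hU]; omega : 0 < U.card)
      obtain ⟨U', rfl⟩ := Multiset.exists_cons_of_mem hu
      rw [Multiset.card_cons] at hU
      exact ⟨u, U', rfl, by omega⟩
    obtain ⟨u, S', rfl, hS'⟩ := split S hS
    obtain ⟨v, T', rfl, hT'⟩ := split T hcard
    have hMt : ∀ t, u.1 t + W S' t = v.1 t + W T' t := by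
      intro t
      have := congrFun hW t
      rw [W_cons, W_cons] at this
      exact this
    have sS := W_sum S'
    have sT := W_sum T'
    rw [hS'] at sS
    rw [hT'] at sT
    have hx : ∀ t, v.1 t - u.1 t ≤ W S' t := by
      intro t
      have := hMt t
      omega
    have e1 := sum_sub' (W S') (fun t => v.1 t - u.1 t) hx
    have e2 : ∑ t, (v.1 t - u.1 t) ≤ ∑ t, v.1 t :=
      Finset.sum_le_sum (fun t _ => Nat.sub_le _ _)
    rw [v.2.1] at e2
    have e3 : d * (j + 4) = j * d + 4 * d := by ring
    obtain ⟨w, hw⟩ := below3 (d := d) (by omega) hn (fun t => W S' t - (v.1 t - u.1 t))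
      (by omega)
    have hw1 : ∀ t, w.1 t ≤ W S' t := by
      intro t
      have h1 : w.1 t ≤ W S' t - (v.1 t - u.1 t) := hw t
      omega
    have hw2 : ∀ t, w.1 t ≤ W T' t := by
      intro t
      have h1 : w.1 t ≤ W S' t - (v.1 t - u.1 t) := hw t
      have h2 := hMt t
      omega
    have pullw : ∀ (x : Gen n d (r + 1)) (U : Multiset (Gen n d (r + 1))), U.card = j + 4 →
        (∀ t, w.1 t ≤ W U t) → ∃ C : Multiset (Gen n d (r + 1)), C.card = j + 3 ∧
          W U = W (w ::ₘ C) ∧ Re K (x ::ₘ U) (w ::ₘ x ::ₘ C) := by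
      intro x U hU hle
      have f1 := sum_sub' (W U) w.1 hle
      have f2 := W_sum U
      have f3 := w.2.1
      rw [hU] at f2
      have f4 : (j + 3) * d = j * d + 3 * d := by ring
      obtain ⟨C, hC, hWC⟩ := exk (d := d) (by omega) hn j (fun t => W U t - w.1 t) (by omega)
      have hWU : W U = W (w ::ₘ C) := by
        rw [W_cons, hWC]
        funext t
        have := hle t
        show W U t = w.1 t + (W U t - w.1 t)
        omega
      refine ⟨C, hC, hWU, ?_⟩
      rw [Multiset.cons_swap]
      exact (ih (j + 4) (by omega) U (w ::ₘ C) hU hWU).cons x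
    obtain ⟨C, hC, hWC, hRC⟩ := pullw u S' hS' hw1
    obtain ⟨C', hC', hWC', hRC'⟩ := pullw v T' hT' hw2
    have hmid : Re K (u ::ₘ C) (v ::ₘ C') := by
      apply ih (j + 4) (by omega) _ _ (by rw [Multiset.card_cons, hC])
      rw [W_cons, W_cons, hWC, hWC', W_cons, W_cons] at hW
      rw [W_cons, W_cons]
      funext t
      have := congrFun hW t
      simp only [Pi.add_apply] at this ⊢
      omega
    exact hRC.trans ((hmid.cons w).trans hRC'.symm)
  intro S T hW
  exact key S.card S T rfl hW

end Pool.Agent.Helper46.PV
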