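import Pool.Agent.Helper46.PV.G

set_option autoImplicit false
set_option linter.unusedSectionVars false

/-!
Quadraticity passes to fewer variables.
-/

namespace Pool.Agent.Helper46.PV

open Pool.Agent.Helper857.PV MvPolynomial

variable {n N d s : ℕ}

/-- extension by zero -/
def extv (h : n ≤ N) (a : Fin n → ℕ) : Fin N → ℕ :=
  fun j => if hj : j.1 < n then a ⟨j.1, hj⟩ else 0

lemma extv_cast (h : n ≤ N) (a : Fin n → ℕ) (i : Fin n) : extv h a (Fin.castLE h i) = a i := by
  unfold extv
  have : (Fin.castLE h i).1 < n := i.2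
  rw [dif_pos this]
  rfl

lemma extv_out (h : n ≤ N) (a : Fin n → ℕ) (j : Fin N) (hj : ¬ j.1 < n) : extv h a j = 0 := by
  unfold extv
  rw [dif_neg hj]

lemma sum_cast (h : n ≤ N) (f : Fin N → ℕ) (hf : ∀ j : Fin N, ¬ j.1 < n → f j = 0) :
    ∑ j, f j = ∑ i : Fin n, f (Fin.castLE h i) := by
  have e : ∑ i : Fin n, f (Fin.castLE h i)
      = ∑ j ∈ (Finset.univ : Finset (Fin n)).map (Fin.castLEEmb h), f j := by
    rw [Finset.sum_map]
    rfl
  rw [e]
  symm
  apply Finset.sum_subset (Finset.subset_univ _)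
  intro j _ hj
  apply hf
  intro hlt
  apply hj
  rw [Finset.mem_map]
  exact ⟨⟨j.1, hlt⟩, Finset.mem_univ _, by ext; rfl⟩

lemma card_cast (h : n ≤ N) (f : Fin N → ℕ) (hf : ∀ j : Fin N, ¬ j.1 < n → f j = 0) :
    (Finset.univ.filter (fun j => f j ≠ 0)).card
      = (Finset.univ.filter (fun i : Fin n => f (Fin.castLE h i) ≠ 0)).card := by
  have e : Finset.univ.filter (fun j => f j ≠ 0)
      = (Finset.univ.filter (fun i : Fin n => f (Fin.castLE h i) ≠ 0)).map (Fin.castLEEmb h) := by
    ext j
    rw [Finset.mem_filter, Finset.mem_map]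
    constructor
    · rintro ⟨_, h1⟩
      have hlt : j.1 < n := by
        by_contra hc
        exact h1 (hf j hc)
      have ej : Fin.castLE h ⟨j.1, hlt⟩ = j := by ext; rfl
      refine ⟨⟨j.1, hlt⟩, ?_, ej⟩
      rw [Finset.mem_filter]
      refine ⟨Finset.mem_univ _, ?_⟩
      rw [ej]; exact h1
    · rintro ⟨i, h1, rfl⟩
      rw [Finset.mem_filter] at h1
      exact ⟨Finset.mem_univ _, h1.2⟩
  rw [e, Finset.card_map]

/-- extension of generators -/
def extG (h : n ≤ N) (m : Gen n d s) : Gen N d s :=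
  ⟨extv h m.1, by
    rw [sum_cast h _ (extv_out h m.1)]
    simp only [extv_cast]
    exact m.2.1, by
    rw [card_cast h _ (extv_out h m.1)]
    simp only [extv_cast]
    exact m.2.2⟩

/-- restriction of generators -/
def resG (h : n ≤ N) (m : Gen N d s) (hm : ∀ j : Fin N, ¬ j.1 < n → m.1 j = 0) : Gen n d s :=
  ⟨fun i => m.1 (Fin.castLE h i), by
    rw [← sum_cast h m.1 hm]; exact m.2.1, by
    rw [← card_cast h m.1 hm]; exact m.2.2⟩

variable (K : Type) [Field K]

open Classical in
/-- the retraction on presentations -/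
noncomputable def retr (h : n ≤ N) : MvPolynomial (Gen N d s) K →ₐ[K] MvPolynomial (Gen n d s) K :=
  aeval (fun m : Gen N d s =>
    if hm : ∀ j : Fin N, ¬ j.1 < n → m.1 j = 0 then X (resG h m hm) else 0)

/-- the retraction on polynomial rings -/
noncomputable def retx (n N : ℕ) : MvPolynomial (Fin N) K →ₐ[K] MvPolynomial (Fin n) K :=
  aeval (fun j : Fin N => if hj : j.1 < n then X ⟨j.1, hj⟩ else 0)

lemma retx_mon (h : n ≤ N) (m : Fin N → ℕ) (hm : ∀ j : Fin N, ¬ j.1 < n → m j = 0) :
    retx K n N (mon K N m) = mon K n (fun i => m (Fin.castLE h i)) := by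
  unfold retx mon
  rw [map_prod]
  have e : ∏ i : Fin n, (X i : MvPolynomial (Fin n) K) ^ m (Fin.castLE h i)
      = ∏ j ∈ (Finset.univ : Finset (Fin n)).map (Fin.castLEEmb h),
        (if hj : j.1 < n then (X ⟨j.1, hj⟩ : MvPolynomial (Fin n) K) else 0) ^ m j := by
    rw [Finset.prod_map]
    apply Finset.prod_congr rfl
    intro i _
    have : ((Fin.castLEEmb h) i).1 < n := i.2
    rw [dif_pos this]
    rfl
  rw [e]
  symm
  have e2 : ∀ j ∈ (Finset.univ : Finset (Fin N)),
      (aeval (fun j : Fin N => if hj : j.1 < n then (X ⟨j.1, hj⟩ : MvPolynomial (Fin n) K) else 0))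
        (X j ^ m j : MvPolynomial (Fin N) K)
      = (if hj : j.1 < n then (X ⟨j.1, hj⟩ : MvPolynomial (Fin n) K) else 0) ^ m j := by
    intro j _
    rw [map_pow, aeval_X]
  rw [Finset.prod_congr rfl e2]
  apply Finset.prod_subset (Finset.subset_univ _)
  intro j _ hj
  have hj2 : ¬ j.1 < n := by
    intro hlt
    apply hj
    rw [Finset.mem_map]
    exact ⟨⟨j.1, hlt⟩, Finset.mem_univ _, by ext; rfl⟩
  rw [hm j hj2, pow_zero]

lemma retx_mon_zero (m : Fin N → ℕ) (j : Fin N) (hj : ¬ j.1 < n) (hm : m j ≠ 0) :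
    retx K n N (mon K N m) = 0 := by
  unfold retx mon
  rw [map_prod]
  apply Finset.prod_eq_zero (Finset.mem_univ j)
  rw [map_pow, aeval_X, dif_neg hj, zero_pow hm]

lemma comm1 (h : n ≤ N) (f : MvPolynomial (Gen N d s) K) :
    Phi K n d s (retr K h f) = retx K n N (Phi K N d s f) := by
  have : (Phi K n d s).comp (retr K h) = (retx K n N).comp (Phi K N d s) := by
    apply MvPolynomial.algHom_ext
    intro m
    rw [AlgHom.comp_apply, AlgHom.comp_apply]
    unfold retr
    rw [aeval_X]
    have e1 : Phi K N d s (X m) = mon K N m.1 := by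
      unfold Phi; rw [aeval_X]
    rw [e1]
    by_cases hm : ∀ j : Fin N, ¬ j.1 < n → m.1 j = 0
    · rw [dif_pos hm, retx_mon K h m.1 hm]
      unfold Phi
      rw [aeval_X]
      rfl
    · rw [dif_neg hm, map_zero]
      push Not at hm
      obtain ⟨j, hj1, hj2⟩ := hm
      rw [retx_mon_zero K m.1 j (by omega) hj2]
  exact congrArg (fun g => g f) this

lemma comm2 (h : n ≤ N) (f : MvPolynomial (Gen n d s) K) :
    Phi K N d s (rename (extG h) f) = rename (Fin.castLE h) (Phi K n d s f) := by
  have : (Phi K N d s).comp (rename (extG h)) = (rename (Fin.castLE h)).comp (Phi K n d s) := by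
    apply MvPolynomial.algHom_ext
    intro m
    rw [AlgHom.comp_apply, AlgHom.comp_apply, rename_X]
    unfold Phi
    rw [aeval_X, aeval_X]
    unfold mon
    rw [map_prod]
    have e : ∏ i : Fin n, (rename (Fin.castLE h)) ((X i : MvPolynomial (Fin n) K) ^ m.1 i)
      = ∏ j ∈ (Finset.univ : Finset (Fin n)).map (Fin.castLEEmb h),
        (X j : MvPolynomial (Fin N) K) ^ (extG h m).1 j := by
      rw [Finset.prod_map]
      apply Finset.prod_congr rfl
      intro i _
      rw [map_pow, rename_X]
      have : (extG h m).1 ((Fin.castLEEmb h) i) = m.1 i := extv_cast h m.1 i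
      rw [this]
      rfl
    rw [e]
    symm
    apply Finset.prod_subset (Finset.subset_univ _)
    intro j _ hj
    have hj2 : ¬ j.1 < n := by
      intro hlt
      apply hj
      rw [Finset.mem_map]
      exact ⟨⟨j.1, hlt⟩, Finset.mem_univ _, by ext; rfl⟩
    have : (extG h m).1 j = 0 := extv_out h m.1 j hj2
    rw [this, pow_zero]
  exact congrArg (fun g => g f) this

lemma comm3 (h : n ≤ N) (f : MvPolynomial (Gen n d s) K) :
    retr K h (rename (extG h) f) = f := by
  have : (retr K h).comp (rename (extG h)) = AlgHom.id K (MvPolynomial (Gen n d s) K) := by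
    apply MvPolynomial.algHom_ext
    intro m
    rw [AlgHom.comp_apply, rename_X]
    unfold retr
    rw [aeval_X]
    have hm : ∀ j : Fin N, ¬ j.1 < n → (extG h m).1 j = 0 := fun j hj => extv_out h m.1 j hj
    rw [dif_pos hm]
    have : resG h (extG h m) hm = m := by
      apply Subtype.ext
      funext i
      exact extv_cast h m.1 i
    rw [this]
    rfl
  exact congrArg (fun g => g f) this

theorem quad_mono (h : n ≤ N) (hQ : IsQuadratic K N d s) : IsQuadratic K n d s := by
  unfold IsQuadratic at hQ ⊢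
  apply le_antisymm
  · intro f hf
    have h1 : rename (extG h) f ∈ RingHom.ker (Phi K N d s) := by
      rw [RingHom.mem_ker, comm2, RingHom.mem_ker.mp hf, map_zero]
    rw [hQ] at h1
    have h2 : ∀ g ∈ Ideal.span {f | f ∈ RingHom.ker (Phi K N d s) ∧ f.IsHomogeneous 2},
        retr K h g ∈ Ideal.span {f | f ∈ RingHom.ker (Phi K n d s) ∧ f.IsHomogeneous 2} := by
      intro g hg
      refine Submodule.span_induction ?_ ?_ ?_ ?_ hg
      · rintro q ⟨hq, hh⟩
        apply Ideal.subset_span
        refine ⟨?_, ?_⟩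
        · rw [RingHom.mem_ker, comm1, RingHom.mem_ker.mp hq, map_zero]
        · have := hh.aeval (fun m : Gen N d s => if hm : ∀ j : Fin N, ¬ j.1 < n → m.1 j = 0 then
              (X (resG h m hm) : MvPolynomial (Gen n d s) K) else 0) (n := 1) (by
            intro m
            split_ifs with hm
            · exact isHomogeneous_X K _
            · exact isHomogeneous_zero _ _ _)
          rw [one_mul] at this
          unfold retr
          convert this
      · rw [map_zero]; exact Ideal.zero_mem _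
      · intro x y _ _ hx hy
        rw [map_add]; exact Ideal.add_mem _ hx hy
      · intro a x _ hx
        rw [smul_eq_mul, map_mul]
        exact Ideal.mul_mem_left _ _ hx
    have h3 := h2 _ h1
    rwa [comm3] at h3
  · rw [Ideal.span_le]
    intro f hf
    exact hf.1

/-- `PV(n,d,s)` is quadratic for `s ≥ 3` and `n ≤ 3 s - 2` -/
theorem quad_small (n d s : ℕ) (hs : 3 ≤ s) (hn : n + 2 ≤ 3 * s) (hd : 1 ≤ d) :
    IsQuadratic K n d s := by
  obtain ⟨r, rfl⟩ : ∃ r, s = r + 1 := ⟨s - 1, by omega⟩
  exact quad_mono K (show n ≤ 3 * r + 1 by omega)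
    (quad_exact K (3 * r + 1) r d (by omega) rfl hd)

end Pool.Agent.Helper46.PV
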