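import Pool.Agent.Helper46.PV.H

set_option autoImplicit false
set_option linter.unusedSectionVars false

/-!
A criterion for non-quadraticity, and the obstruction with two large colours.
-/

namespace Pool.Agent.Helper46.PV

open Pool.Agent.Helper857.PV MvPolynomial

section crit
variable (K : Type) [Field K] {n d s : ℕ}

open Classical in
/-- If a property of factorisations is invariant under changing two factors but distinguishes two
factorisations of the same monomial, the algebra is not quadratic. -/
theorem not_quad_of_class (C : Multiset (Gen n d s) → Prop)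
    (hC : ∀ (A : Multiset (Gen n d s)) (u v u' v' : Gen n d s), u.1 + v.1 = u'.1 + v'.1 →
      C (u ::ₘ v ::ₘ A) → C (u' ::ₘ v' ::ₘ A))
    (S T : Multiset (Gen n d s)) (hW : W S = W T) (hS : C S) (hT : ¬ C T) :
    ¬ IsQuadratic K n d s := by
  intro hQ
  let lam : MvPolynomial (Gen n d s) K →ₗ[K] K :=
    (basisMonomials (Gen n d s) K).constr K (fun e => if C (Finsupp.toMultiset e) then 1 else 0)
  have hlam : ∀ (e : Gen n d s →₀ ℕ) (c : K),
      lam (monomial e c) = c * (if C (Finsupp.toMultiset e) then 1 else 0) := by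
    intro e c
    have h1 : (monomial e c : MvPolynomial (Gen n d s) K) = c • monomial e 1 := by
      rw [smul_monomial, smul_eq_mul, mul_one]
    have h2 := (basisMonomials (Gen n d s) K).constr_basis K
      (fun e => if C (Finsupp.toMultiset e) then (1 : K) else 0) e
    rw [coe_basisMonomials] at h2
    have h2' : lam (monomial e 1) = if C (Finsupp.toMultiset e) then (1 : K) else 0 := h2
    rw [h1, map_smul, h2', smul_eq_mul]
  have hzero : ∀ f ∈ RingHom.ker (Phi K n d s), f.IsHomogeneous 2 → ∀ (a : Gen n d s →₀ ℕ),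
      lam (monomial a 1 * f) = 0 := by
    intro f hf hh a
    let nu : MvPolynomial (Fin n) K →ₗ[K] K :=
      (basisMonomials (Fin n) K).constr K
        (fun w => if ∃ u v : Gen n d s, Finsupp.equivFunOnFinite.symm (u.1 + v.1) = w ∧
          C (u ::ₘ v ::ₘ Finsupp.toMultiset a) then 1 else 0)
    have hnu : ∀ (w : Fin n →₀ ℕ) (c : K), nu (monomial w c)
        = c * (if ∃ u v : Gen n d s, Finsupp.equivFunOnFinite.symm (u.1 + v.1) = w ∧
          C (u ::ₘ v ::ₘ Finsupp.toMultiset a) then 1 else 0) := by
      intro w c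
      have h1 : (monomial w c : MvPolynomial (Fin n) K) = c • monomial w 1 := by
        rw [smul_monomial, smul_eq_mul, mul_one]
      have h2 := (basisMonomials (Fin n) K).constr_basis K
        (fun w => if ∃ u v : Gen n d s, Finsupp.equivFunOnFinite.symm (u.1 + v.1) = w ∧
          C (u ::ₘ v ::ₘ Finsupp.toMultiset a) then (1 : K) else 0) w
      rw [coe_basisMonomials] at h2
      have h2' : nu (monomial w 1) =
          if ∃ u v : Gen n d s, Finsupp.equivFunOnFinite.symm (u.1 + v.1) = w ∧
          C (u ::ₘ v ::ₘ Finsupp.toMultiset a) then (1 : K) else 0 := h2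
      rw [h1, map_smul, h2', smul_eq_mul]
    have hkey : lam (monomial a 1 * f) = nu (Phi K n d s f) := by
      conv_lhs => rw [f.as_sum]
      conv_rhs => rw [f.as_sum]
      rw [Finset.mul_sum, map_sum, map_sum, map_sum]
      apply Finset.sum_congr rfl
      intro e he
      have hdeg : e.degree = 2 := by
        by_contra hd
        exact (mem_support_iff.mp he) (hh.coeff_eq_zero hd)
      obtain ⟨u, v, rfl⟩ := deg_two e hdeg
      rw [monomial_mul, one_mul, hlam, Phi_monomial, hnu, wt_add]
      congr 1
      have e1 : Finsupp.toMultiset (a + (Finsupp.single u 1 + Finsupp.single v 1))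
          = u ::ₘ v ::ₘ Finsupp.toMultiset a := by
        rw [map_add, map_add, Finsupp.toMultiset_single, Finsupp.toMultiset_single, one_smul,
          one_smul, add_comm, ← Multiset.singleton_add, ← Multiset.singleton_add, add_assoc]
      rw [e1]
      have e2 : C (u ::ₘ v ::ₘ Finsupp.toMultiset a) ↔
          ∃ u' v' : Gen n d s, Finsupp.equivFunOnFinite.symm (u'.1 + v'.1)
            = Finsupp.equivFunOnFinite.symm u.1 + Finsupp.equivFunOnFinite.symm v.1 ∧
          C (u' ::ₘ v' ::ₘ Finsupp.toMultiset a) := by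
        constructor
        · intro h
          exact ⟨u, v, by ext i; simp, h⟩
        · rintro ⟨u', v', h1, h2⟩
          refine hC _ u' v' u v ?_ h2
          funext i
          have := DFunLike.congr_fun h1 i
          simpa using this
      by_cases hc : C (u ::ₘ v ::ₘ Finsupp.toMultiset a)
      · rw [if_pos hc, if_pos (e2.mp hc)]
      · rw [if_neg hc, if_neg (fun h => hc (e2.mpr h))]
    rw [hkey, RingHom.mem_ker.mp hf, map_zero]
  have hideal : ∀ f ∈ Ideal.span {f | f ∈ RingHom.ker (Phi K n d s) ∧ f.IsHomogeneous 2},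
      ∀ p : MvPolynomial (Gen n d s) K, lam (p * f) = 0 := by
    intro f hf
    refine Submodule.span_induction ?_ ?_ ?_ ?_ hf
    · rintro q ⟨hq, hh⟩ p
      induction p using MvPolynomial.induction_on' with
      | monomial b c =>
        have h1 : (monomial b c : MvPolynomial (Gen n d s) K) = c • monomial b 1 := by
          rw [smul_monomial, smul_eq_mul, mul_one]
        rw [h1, smul_mul_assoc, map_smul, hzero q hq hh b, smul_zero]
      | add p q' hp hq' => rw [add_mul, map_add, hp, hq', add_zero]
    · intro p; rw [mul_zero, map_zero]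
    · intro x y _ _ hx hy p
      rw [mul_add, map_add, hx, hy, add_zero]
    · intro a x _ hx p
      rw [smul_eq_mul, ← mul_assoc]
      exact hx (p * a)
  have hf : (mo K S - mo K T) ∈ RingHom.ker (Phi K n d s) := by
    rw [RingHom.mem_ker, map_sub, Phi_mo, Phi_mo, hW, sub_self]
  rw [hQ] at hf
  have h1 := hideal _ hf 1
  rw [one_mul, map_sub] at h1
  have h2 : lam (mo K S) = 1 := by
    unfold mo
    rw [hlam, Multiset.toFinsupp_toMultiset, if_pos hS, mul_one]
  have h3 : lam (mo K T) = 0 := by
    unfold mo
    rw [hlam, Multiset.toFinsupp_toMultiset, if_neg hT, mul_zero]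
  rw [h2, h3, sub_zero] at h1
  exact one_ne_zero h1

end crit

section giants
variable {n r d : ℕ}

/-- colours other than `x`, `y` in a generator -/
def sm (x y : Fin n) {s : ℕ} (m : Gen n d s) : Finset (Fin n) := ((sp m).erase x).erase y

lemma cover_le (x y : Fin n) {s : ℕ} (S : Multiset (Gen n d s)) :
    (((Finset.univ.filter (fun i => W S i ≠ 0)).erase x).erase y).card
      ≤ (S.map (fun m => (sm x y m).card)).sum := by
  induction S using Multiset.induction_on with
  | empty =>
    rw [W_zero]
    simp
  | cons m S ih =>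
    rw [Multiset.map_cons, Multiset.sum_cons, W_cons]
    refine le_trans ?_ (Nat.add_le_add_left ih _)
    refine le_trans (Finset.card_le_card ?_) (Finset.card_union_le _ _)
    intro i hi
    rw [Finset.mem_erase, Finset.mem_erase, Finset.mem_filter] at hi
    obtain ⟨h1, h2, _, h3⟩ := hi
    rw [Finset.mem_union]
    by_cases h : m.1 i = 0
    · right
      rw [Finset.mem_erase, Finset.mem_erase, Finset.mem_filter]
      refine ⟨h1, h2, Finset.mem_univ _, ?_⟩
      intro h4
      apply h3
      show m.1 i + W S i = 0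
      rw [h, h4]
    · left
      unfold sm
      rw [Finset.mem_erase, Finset.mem_erase, mem_sp]
      exact ⟨h1, h2, h⟩

lemma le_W {s : ℕ} {S : Multiset (Gen n d s)} {m : Gen n d s} (h : m ∈ S) (i : Fin n) :
    m.1 i ≤ W S i := by
  obtain ⟨S', rfl⟩ := Multiset.exists_cons_of_mem h
  rw [W_cons]
  show m.1 i ≤ m.1 i + W S' i
  omega

/-- in a fibre with two large colours, each bin contains exactly one of them -/
lemma giants_struct (x y : Fin n) (hxy : x ≠ y) (k : ℕ) (hn : n = k * r + 2)
    (u : Fin n → ℕ) (hpos : ∀ i, i ≠ x → i ≠ y → u i ≠ 0)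
    (hlight : ∀ P : Finset (Fin n), x ∉ P → y ∉ P → P.card ≤ r + 1 → ∑ i ∈ P, u i < d)
    (S : Multiset (Gen n d (r + 1))) (hS : S.card = k) (hW : W S = u) (m : Gen n d (r + 1))
    (hm : m ∈ S) : (m.1 x ≠ 0 ∧ m.1 y = 0) ∨ (m.1 x = 0 ∧ m.1 y ≠ 0) := by
  -- every bin contains x or y
  have hor : ∀ m ∈ S, m.1 x ≠ 0 ∨ m.1 y ≠ 0 := by
    intro m hm
    by_contra hcon
    rw [not_or, not_not, not_not] at hcon
    have h1 := hlight (sp m) (by rw [mem_sp, not_not]; exact hcon.1)
      (by rw [mem_sp, not_not]; exact hcon.2) (sp_card m)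
    have h2 : ∑ i ∈ sp m, m.1 i = d := by
      refine Eq.trans ?_ m.2.1
      apply Finset.sum_subset (Finset.subset_univ _)
      intro i _ hi
      rw [mem_sp, not_not] at hi
      exact hi
    have h3 : ∑ i ∈ sp m, m.1 i ≤ ∑ i ∈ sp m, u i :=
      Finset.sum_le_sum (fun i _ => by rw [← hW]; exact le_W hm i)
    omega
  have hle : ∀ m ∈ S, (sm x y m).card ≤ r := by
    intro m hm
    have hc := sp_card m
    have h4 : (sm x y m).card < (sp m).card := by
      apply Finset.card_lt_card
      refine ⟨?_, ?_⟩
      · intro i hi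
        exact Finset.mem_of_mem_erase (Finset.mem_of_mem_erase hi)
      · intro hsub
        rcases hor m hm with h | h
        · have := hsub (mem_sp.mpr h)
          unfold sm at this
          rw [Finset.mem_erase, Finset.mem_erase] at this
          exact this.2.1 rfl
        · have := hsub (mem_sp.mpr h)
          unfold sm at this
          rw [Finset.mem_erase] at this
          exact this.1 rfl
    omega
  have hcov := cover_le x y S
  have hfull : (((Finset.univ.filter (fun i => W S i ≠ 0)).erase x).erase y).card = k * r := by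
    have e : ((Finset.univ.filter (fun i => W S i ≠ 0)).erase x).erase y
        = (Finset.univ.erase x).erase y := by
      ext i
      rw [Finset.mem_erase, Finset.mem_erase, Finset.mem_erase, Finset.mem_erase,
        Finset.mem_filter, hW]
      constructor
      · rintro ⟨h1, h2, _⟩
        exact ⟨h1, h2, Finset.mem_univ _⟩
      · rintro ⟨h1, h2, _⟩
        exact ⟨h1, h2, Finset.mem_univ _, hpos i h2 h1⟩
    rw [e, Finset.card_erase_of_mem (Finset.mem_erase.mpr ⟨hxy.symm, Finset.mem_univ _⟩),
      Finset.card_erase_of_mem (Finset.mem_univ _), Finset.card_univ, Fintype.card_fin, hn]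
    omega
  rw [hfull] at hcov
  obtain ⟨S', rfl⟩ := Multiset.exists_cons_of_mem hm
  rw [Multiset.map_cons, Multiset.sum_cons] at hcov
  rw [Multiset.card_cons] at hS
  have h5 : (S'.map (fun m => (sm x y m).card)).sum ≤ S'.card * r := by
    have := Multiset.sum_le_card_nsmul (S'.map (fun m => (sm x y m).card)) r (by
      intro t ht
      rw [Multiset.mem_map] at ht
      obtain ⟨m1, hm1, rfl⟩ := ht
      exact hle m1 (Multiset.mem_cons_of_mem hm1))
    rw [Multiset.card_map, smul_eq_mul] at this
    exact this
  have h6 : k * r = S'.card * r + r := by rw [← hS]; ring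
  have h7 := hle m hm
  have h8 : (sm x y m).card = r := by omega
  by_cases hx : m.1 x = 0
  · right
    refine ⟨hx, ?_⟩
    rcases hor m hm with h | h
    · exact absurd hx h
    · exact h
  · left
    refine ⟨hx, ?_⟩
    by_contra hy
    have hc := sp_card m
    have hc2 : 1 < (sp m).card :=
      Finset.one_lt_card.mpr ⟨x, mem_sp.mpr hx, y, mem_sp.mpr hy, hxy⟩
    unfold sm at h8
    rw [Finset.card_erase_of_mem (Finset.mem_erase.mpr ⟨hxy.symm, mem_sp.mpr hy⟩),
      Finset.card_erase_of_mem (mem_sp.mpr hx)] at h8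
    omega

/-- number of bins containing `x` -/
noncomputable def nx (x : Fin n) {s : ℕ} (S : Multiset (Gen n d s)) : ℕ :=
  S.countP (fun m => m.1 x ≠ 0)

/-- non-quadraticity from two large colours -/
theorem giants_not (K : Type) [Field K] (x y : Fin n) (hxy : x ≠ y) (k : ℕ)
    (hn : n = k * r + 2)
    (u : Fin n → ℕ) (hpos : ∀ i, i ≠ x → i ≠ y → u i ≠ 0)
    (hlight : ∀ P : Finset (Fin n), x ∉ P → y ∉ P → P.card ≤ r + 1 → ∑ i ∈ P, u i < d)
    (S T : Multiset (Gen n d (r + 1))) (hS : S.card = k)
    (hWS : W S = u) (hWT : W T = u) (hne : nx x S ≠ nx x T) :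
    ¬ IsQuadratic K n d (r + 1) := by
  have st := fun S hS hW m hm =>
    giants_struct (r := r) (d := d) x y hxy k hn u hpos hlight S hS hW m hm
  apply not_quad_of_class K (fun A => A.card = k ∧ W A = u ∧ nx x A = nx x S) ?_ S T
    (by rw [hWS, hWT]) ⟨hS, hWS, rfl⟩ (fun h => hne h.2.2.symm)
  intro A p q p' q' hpq hC
  obtain ⟨c1, c2, c3⟩ := hC
  have d1 : (p' ::ₘ q' ::ₘ A).card = k := by
    rw [← c1]; simp
  have d2 : W (p' ::ₘ q' ::ₘ A) = u := by
    rw [← c2, W_cons, W_cons, W_cons, W_cons, ← add_assoc, ← add_assoc, hpq]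
  refine ⟨d1, d2, ?_⟩
  rw [← c3]
  have hp := st _ c1 c2 p (Multiset.mem_cons_self _ _)
  have hq := st _ c1 c2 q (Multiset.mem_cons_of_mem (Multiset.mem_cons_self _ _))
  have hp' := st _ d1 d2 p' (Multiset.mem_cons_self _ _)
  have hq' := st _ d1 d2 q' (Multiset.mem_cons_of_mem (Multiset.mem_cons_self _ _))
  have ex : p.1 x + q.1 x = p'.1 x + q'.1 x := congrFun hpq x
  have ey : p.1 y + q.1 y = p'.1 y + q'.1 y := congrFun hpq y
  unfold nx
  simp only [Multiset.countP_cons]
  have key : ∀ z : ℕ, (if z ≠ 0 then 1 else 0) = (if z = 0 then 0 else 1) := by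
    intro z; by_cases h : z = 0 <;> simp [h]
  simp only [key]
  rcases hp with hp | hp <;> rcases hq with hq | hq <;> rcases hp' with hp' | hp' <;>
    rcases hq' with hq' | hq' <;> simp only [hp.1, hq.1, hp'.1, hq'.1, if_true, if_false] <;>
    omega

end giants

end Pool.Agent.Helper46.PV
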