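import Pool.Agent.Helper46.PV.I

set_option autoImplicit false
set_option linter.unusedSectionVars false

/-!
The family of fibres with two large colours.
-/

namespace Pool.Agent.Helper46.PV

open Pool.Agent.Helper857.PV MvPolynomial

lemma W_map {n d s k : ℕ} (b : Fin k → Gen n d s) (i : Fin n) :
    W ((Finset.univ : Finset (Fin k)).val.map b) i = ∑ j, (b j).1 i := by
  unfold W
  rw [Multiset.map_map]
  have : (Multiset.map ((fun m : Gen n d s => m.1) ∘ b) (Finset.univ : Finset (Fin k)).val).sum
      = ∑ j, (b j).1 := rfl
  rw [this, Finset.sum_apply]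

lemma sum_lt_split (k a : ℕ) (ha : a ≤ k) (f : Fin k → ℕ) :
    ∑ j, f j = (∑ j, if j.1 < a then f j else 0) + ∑ j, if j.1 < a then 0 else f j := by
  rw [← Finset.sum_add_distrib]
  apply Finset.sum_congr rfl
  intro j _
  split_ifs <;> omega

lemma card_lt (k a : ℕ) (ha : a ≤ k) :
    (Finset.univ.filter (fun j : Fin k => j.1 < a)).card = a := by
  have : (Finset.univ.filter (fun j : Fin k => j.1 < a))
      = (Finset.univ : Finset (Fin a)).map (Fin.castLEEmb ha) := by
    ext j
    rw [Finset.mem_filter, Finset.mem_map]
    constructor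
    · rintro ⟨_, h⟩
      exact ⟨⟨j.1, h⟩, Finset.mem_univ _, by ext; rfl⟩
    · rintro ⟨i, _, rfl⟩
      exact ⟨Finset.mem_univ _, i.2⟩
  rw [this, Finset.card_map, Finset.card_univ, Fintype.card_fin]

theorem two_giants (K : Type) [Field K] (r a q ρ d : ℕ) (hr : 1 ≤ r) (_ha : 1 ≤ a) (hq : 1 ≤ q)
    (hρ : ρ ≤ (a + 1) * r) (htot : (a + 1) * r * q + ρ = d + a * r)
    (hlt : (r + 1) * q + min ρ (r + 1) < d) :
    ¬ IsQuadratic K ((2 * a + 1) * r + 2) d (r + 1) := by
  classical
  set k := 2 * a + 1 with hk
  let ι : Type := Bool ⊕ (Fin k × Fin r)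
  let e : Fin (k * r + 2) ≃ ι := Fintype.equivOfCardEq (by
    rw [Fintype.card_fin, Fintype.card_sum, Fintype.card_bool, Fintype.card_prod,
      Fintype.card_fin, Fintype.card_fin]
    omega)
  -- the big half
  have hbig : (Finset.univ.filter (fun p : Fin k × Fin r => ¬ p.1.1 < a)).card
      = (a + 1) * r := by
    have h1 : (Finset.univ.filter (fun p : Fin k × Fin r => ¬ p.1.1 < a))
        = (Finset.univ.filter (fun j : Fin k => ¬ j.1 < a)) ×ˢ (Finset.univ : Finset (Fin r)) := by
      ext p
      simp
    have h2 : (Finset.univ.filter (fun j : Fin k => ¬ j.1 < a)).card = a + 1 := by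
      have h3 := Finset.card_filter_add_card_filter_not (s := (Finset.univ : Finset (Fin k)))
        (fun j : Fin k => j.1 < a)
      rw [card_lt k a (by omega), Finset.card_univ, Fintype.card_fin] at h3
      omega
    rw [h1, Finset.card_product, h2, Finset.card_univ, Fintype.card_fin]
  obtain ⟨H, hHs, hHc⟩ := Finset.exists_subset_card_eq
    (s := Finset.univ.filter (fun p : Fin k × Fin r => ¬ p.1.1 < a)) (n := ρ) (by omega)
  let c : Fin k × Fin r → ℕ := fun p =>
    if p.1.1 < a then 1 else if p ∈ H then q + 1 else q
  have hc1 : ∀ p : Fin k × Fin r, p.1.1 < a → c p = 1 := fun p hp => if_pos hp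
  have hcpos : ∀ p, 1 ≤ c p := by
    intro p
    show 1 ≤ if p.1.1 < a then 1 else if p ∈ H then q + 1 else q
    split_ifs <;> omega
  have hcle : ∀ p, c p ≤ q + if p ∈ H then 1 else 0 := by
    intro p
    show (if p.1.1 < a then 1 else if p ∈ H then q + 1 else q) ≤ _
    split_ifs <;> omega
  have hlight0 : ∀ P : Finset (Fin k × Fin r), P.card ≤ r + 1 → ∑ p ∈ P, c p < d := by
    intro P hP
    have h1 : ∑ p ∈ P, c p ≤ ∑ p ∈ P, (q + if p ∈ H then 1 else 0) :=
      Finset.sum_le_sum (fun p _ => hcle p)
    rw [Finset.sum_add_distrib, Finset.sum_const, smul_eq_mul, ← Finset.card_filter] at h1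
    have h2 : (P.filter (fun p => p ∈ H)).card ≤ r + 1 :=
      le_trans (Finset.card_filter_le _ _) hP
    have h3 : (P.filter (fun p => p ∈ H)).card ≤ ρ := by
      rw [← hHc]
      apply Finset.card_le_card
      intro p hp
      exact (Finset.mem_filter.mp hp).2
    have h4 : P.card * q ≤ (r + 1) * q := Nat.mul_le_mul_right _ hP
    have h5 : (P.filter (fun p => p ∈ H)).card ≤ min ρ (r + 1) := le_min h3 h2
    omega
  let sig : Fin k → ℕ := fun j => ∑ i, c (j, i)
  have hsiglt : ∀ j, sig j < d := by
    intro j
    have h1 := hlight0 ((Finset.univ : Finset (Fin r)).map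
      ⟨fun i => (j, i), fun _ _ h => (Prod.mk.inj h).2⟩)
      (by rw [Finset.card_map, Finset.card_univ, Fintype.card_fin]; omega)
    rw [Finset.sum_map] at h1
    exact h1
  have hsig1 : ∀ j : Fin k, j.1 < a → sig j = r := by
    intro j hj
    show ∑ i, c (j, i) = r
    rw [Finset.sum_congr rfl (fun i _ => hc1 (j, i) hj)]
    simp
  have hsigbig : (∑ j : Fin k, if j.1 < a then 0 else sig j) = (a + 1) * r * q + ρ := by
    have h1 : (∑ j : Fin k, if j.1 < a then 0 else sig j)
        = ∑ p : Fin k × Fin r, if p.1.1 < a then 0 else c p := by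
      rw [Fintype.sum_prod_type]
      apply Finset.sum_congr rfl
      intro j _
      by_cases hj : j.1 < a
      · simp [hj]
      · simp only [hj, if_false]
        rfl
    have h2 : (∑ p : Fin k × Fin r, if p.1.1 < a then 0 else c p)
        = ∑ p ∈ Finset.univ.filter (fun p : Fin k × Fin r => ¬ p.1.1 < a),
          (q + if p ∈ H then 1 else 0) := by
      rw [Finset.sum_filter]
      apply Finset.sum_congr rfl
      intro p _
      by_cases hp : p.1.1 < a
      · simp [hp]
      · simp only [hp, if_false, not_false_iff, if_true]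
        show (if p.1.1 < a then 1 else if p ∈ H then q + 1 else q) = _
        rw [if_neg hp]
        split_ifs <;> omega
    rw [h1, h2, Finset.sum_add_distrib, Finset.sum_const, smul_eq_mul, hbig,
      ← Finset.card_filter, Finset.filter_mem_eq_inter, Finset.inter_eq_right.mpr hHs, hHc]
  -- the bins
  let bf : Bool → Fin k → ι → ℕ := fun β j => Sum.elim
    (fun b => if (b = β ↔ j.1 < a) then d - sig j else 0)
    (fun p => if p.1 = j then c p else 0)
  have hbf_sum : ∀ β j, ∑ t, bf β j t = d := by
    intro β j
    rw [Fintype.sum_sum_type]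
    have h1 : ∑ b : Bool, bf β j (Sum.inl b) = d - sig j := by
      show ∑ b : Bool, (if (b = β ↔ j.1 < a) then d - sig j else 0) = d - sig j
      rw [Fintype.sum_bool]
      by_cases hj : j.1 < a <;> cases β <;> simp [hj]
    have h2 : ∑ p : Fin k × Fin r, bf β j (Sum.inr p) = sig j := by
      show ∑ p : Fin k × Fin r, (if p.1 = j then c p else 0) = sig j
      rw [Fintype.sum_prod_type, Finset.sum_eq_single j]
      · simp only [if_true]; rfl
      · intro j' _ hj'
        simp [hj']
      · intro h; exact absurd (Finset.mem_univ _) h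
    rw [h1, h2]
    have := hsiglt j
    omega
  have hex : ∀ β j, ∃ g : Gen (k * r + 2) d (r + 1), g.1 = fun t => bf β j (e t) := by
    intro β j
    -- the big colour used
    obtain ⟨b0, hb0⟩ : ∃ b0 : Bool, ∀ b, b ≠ b0 → ¬ (b = β ↔ j.1 < a) := by
      by_cases hj : j.1 < a
      · exact ⟨β, fun b hb h => hb (h.mpr hj)⟩
      · refine ⟨!β, fun b hb h => ?_⟩
        have h1 : b ≠ β := fun hbe => hj (h.mp hbe)
        cases b <;> cases β <;> simp_all
    let F : Finset ι := insert (Sum.inl b0) ((Finset.univ : Finset (Fin r)).map
      ⟨fun i => (Sum.inr (j, i) : ι), fun _ _ h => (Prod.mk.inj (Sum.inr.inj h)).2⟩)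
    have hF : F.card ≤ r + 1 := by
      refine le_trans (Finset.card_insert_le _ _) ?_
      rw [Finset.card_map, Finset.card_univ, Fintype.card_fin]
    apply mk_gen _ _ (F.map e.symm.toEmbedding)
    · rw [Finset.card_map]; exact hF
    · intro t ht
      rw [Finset.mem_map_equiv, Equiv.symm_symm] at ht
      show bf β j (e t) = 0
      generalize e t = z at ht
      rcases z with b | p
      · show (if (b = β ↔ j.1 < a) then d - sig j else 0) = 0
        rw [if_neg]
        apply hb0
        rintro rfl
        exact ht (Finset.mem_insert_self _ _)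
      · show (if p.1 = j then c p else 0) = 0
        rw [if_neg]
        intro hp
        apply ht
        apply Finset.mem_insert_of_mem
        rw [Finset.mem_map]
        exact ⟨p.2, Finset.mem_univ _, by
          show (Sum.inr (j, p.2) : ι) = Sum.inr p
          rw [← hp]⟩
    · rw [Equiv.sum_comp e (bf β j)]
      exact hbf_sum β j
  choose bin hbin using hex
  -- totals
  have htotal : ∀ β b : Bool, (∑ j : Fin k, if (b = β ↔ j.1 < a) then d - sig j else 0)
      = a * (d - r) := by
    intro β b
    have hA : (∑ j : Fin k, if j.1 < a then d - sig j else 0) = a * (d - r) := by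
      have h1 : (∑ j : Fin k, if j.1 < a then d - sig j else 0)
          = ∑ j ∈ Finset.univ.filter (fun j : Fin k => j.1 < a), (d - r) := by
        rw [Finset.sum_filter]
        apply Finset.sum_congr rfl
        intro j _
        by_cases hj : j.1 < a
        · rw [if_pos hj, if_pos hj, hsig1 j hj]
        · rw [if_neg hj, if_neg hj]
      rw [h1, Finset.sum_const, card_lt k a (by omega), smul_eq_mul]
    have hB : (∑ j : Fin k, if j.1 < a then 0 else d - sig j) = a * (d - r) := by
      have h1 : (∑ j : Fin k, if j.1 < a then 0 else d - sig j)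
          + (∑ j : Fin k, if j.1 < a then 0 else sig j) = (a + 1) * d := by
        rw [← Finset.sum_add_distrib]
        have h2 : ∀ j : Fin k, ((if j.1 < a then 0 else d - sig j)
            + if j.1 < a then 0 else sig j) = if ¬ j.1 < a then d else 0 := by
          intro j
          have := hsiglt j
          split_ifs <;> omega
        rw [Finset.sum_congr rfl (fun j _ => h2 j), ← Finset.sum_filter, Finset.sum_const,
          smul_eq_mul]
        congr 1
        have h3 := Finset.card_filter_add_card_filter_not (s := (Finset.univ : Finset (Fin k)))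
          (fun j : Fin k => j.1 < a)
        rw [card_lt k a (by omega), Finset.card_univ, Fintype.card_fin] at h3
        omega
      rw [hsigbig, htot] at h1
      have h4 : a * (d - r) + (d + a * r) = (a + 1) * d := by
        have hrd : r ≤ d := by
          have : r ≤ (r + 1) * q := by nlinarith
          omega
        obtain ⟨w, rfl⟩ := Nat.exists_eq_add_of_le hrd
        rw [Nat.add_sub_cancel_left]
        ring
      omega
    by_cases hb : b = β
    · rw [← hA]
      apply Finset.sum_congr rfl
      intro j _
      simp [hb]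
    · rw [← hB]
      apply Finset.sum_congr rfl
      intro j _
      by_cases hj : j.1 < a <;> simp [hb, hj]
  set u : Fin (k * r + 2) → ℕ := fun t => Sum.elim (fun _ : Bool => a * (d - r)) c (e t) with hu
  have hW : ∀ β, W ((Finset.univ : Finset (Fin k)).val.map (bin β)) = u := by
    intro β
    funext t
    rw [W_map]
    rw [Finset.sum_congr rfl (fun j _ => congrFun (hbin β j) t)]
    show ∑ j, bf β j (e t) = Sum.elim (fun _ : Bool => a * (d - r)) c (e t)
    generalize e t = z
    rcases z with b | p
    · exact htotal β b
    · show (∑ j : Fin k, if p.1 = j then c p else 0) = c p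
      rw [Finset.sum_ite_eq, if_pos (Finset.mem_univ _)]
  have hx : e (e.symm (Sum.inl true)) = Sum.inl true := e.apply_symm_apply _
  have hnx : ∀ β, nx (e.symm (Sum.inl true)) ((Finset.univ : Finset (Fin k)).val.map (bin β))
      = (Finset.univ.filter (fun j : Fin k => (true = β ↔ j.1 < a))).card := by
    intro β
    unfold nx
    rw [Multiset.countP_map]
    show ((Finset.univ : Finset (Fin k)).filter _).card = _
    congr 1
    apply Finset.filter_congr
    intro j _
    rw [hbin β j]
    show bf β j (e (e.symm (Sum.inl true))) ≠ 0 ↔ _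
    rw [hx]
    show (if (true = β ↔ j.1 < a) then d - sig j else 0) ≠ 0 ↔ _
    have := hsiglt j
    split_ifs with h
    · constructor
      · intro _; exact h
      · intro _; omega
    · constructor
      · intro h'; exact absurd rfl h'
      · intro h'; exact absurd h' h
  have hlightu : ∀ P : Finset (Fin (k * r + 2)), e.symm (Sum.inl true) ∉ P →
      e.symm (Sum.inl false) ∉ P → P.card ≤ r + 1 → ∑ i ∈ P, u i < d := by
    intro P hP1 hP2 hPc
    have hall : ∀ t ∈ P, ∃ p, e t = Sum.inr p := by
      intro t ht
      rcases hz : e t with b | p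
      · exfalso
        have h1 : t = e.symm (Sum.inl b) := by rw [← hz, Equiv.symm_apply_apply]
        cases b
        · exact hP2 (h1 ▸ ht)
        · exact hP1 (h1 ▸ ht)
      · exact ⟨p, rfl⟩
    -- image
    let g : Fin (k * r + 2) → Fin k × Fin r := fun t =>
      Sum.elim (fun _ : Bool => (⟨0, by omega⟩, ⟨0, by omega⟩)) id (e t)
    have hg : ∀ t ∈ P, e t = Sum.inr (g t) := by
      intro t ht
      obtain ⟨p, hp⟩ := hall t ht
      show e t = Sum.inr (Sum.elim (fun _ : Bool => _) id (e t))
      rw [hp]; rfl
    have hinj : Set.InjOn g P := by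
      intro t ht t' ht' h
      have h1 := hg t ht
      have h2 := hg t' ht'
      rw [h, ← h2] at h1
      exact e.injective h1
    have h1 := hlight0 (P.image g) (by
      rw [Finset.card_image_of_injOn hinj]; exact hPc)
    rw [Finset.sum_image hinj] at h1
    refine lt_of_le_of_lt (le_of_eq ?_) h1
    apply Finset.sum_congr rfl
    intro t ht
    show Sum.elim (fun _ : Bool => a * (d - r)) c (e t) = c (g t)
    rw [hg t ht]; rfl
  refine giants_not K (e.symm (Sum.inl true)) (e.symm (Sum.inl false)) (by
    intro h
    have h' := Sum.inl.inj (e.symm.injective h)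
    exact Bool.noConfusion h') k rfl u ?_ hlightu
    ((Finset.univ : Finset (Fin k)).val.map (bin true))
    ((Finset.univ : Finset (Fin k)).val.map (bin false)) (by
      rw [Multiset.card_map]; exact (Finset.card_univ (α := Fin k)).trans (Fintype.card_fin k))
    (hW true) (hW false) ?_
  · intro i h1 h2
    show Sum.elim (fun _ : Bool => a * (d - r)) c (e i) ≠ 0
    rcases hz : e i with b | p
    · exfalso
      have h3 : i = e.symm (Sum.inl b) := by rw [← hz, Equiv.symm_apply_apply]
      cases b
      · exact h2 h3
      · exact h1 h3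
    · show c p ≠ 0
      have := hcpos p
      omega
  · rw [hnx, hnx]
    have hA : (Finset.univ.filter (fun j : Fin k => j.1 < a)).card = a := card_lt k a (by omega)
    have hB : (Finset.univ.filter (fun j : Fin k => ¬ j.1 < a)).card = a + 1 := by
      have h3 := Finset.card_filter_add_card_filter_not (s := (Finset.univ : Finset (Fin k)))
        (fun j : Fin k => j.1 < a)
      rw [hA, Finset.card_univ, Fintype.card_fin] at h3
      omega
    have h1 : (Finset.univ.filter (fun j : Fin k => (true = true ↔ j.1 < a))).card = a := by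
      refine Eq.trans (congrArg Finset.card (Finset.filter_congr ?_)) hA
      intro j _
      exact ⟨fun h => h.mp rfl, fun h => ⟨fun _ => h, fun _ => rfl⟩⟩
    have h2 : (Finset.univ.filter (fun j : Fin k => (true = false ↔ j.1 < a))).card = a + 1 := by
      refine Eq.trans (congrArg Finset.card (Finset.filter_congr ?_)) hB
      intro j _
      exact ⟨fun h h' => Bool.noConfusion (h.mpr h'),
        fun h => ⟨fun h' => Bool.noConfusion h', fun h' => absurd h' h⟩⟩
    rw [h1, h2]
    omega

end Pool.Agent.Helper46.PV
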