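import Pool.Agent.Helper46.PV.J

set_option autoImplicit false
set_option linter.unusedSectionVars false

/-!
Families of non-quadratic pinched Veronese algebras coming from two large colours.
-/

namespace Pool.Agent.Helper46.PV

open Pool.Agent.Helper857.PV MvPolynomial

/-- `n = 3 s - 1`, `d ≥ 2 s + 1`, `s ≥ 4`. -/
theorem large_not (K : Type) [Field K] (r d : ℕ) (hr : 3 ≤ r) (hd : 2 * r + 3 ≤ d) :
    ¬ IsQuadratic K (3 * r + 2) d (r + 1) := by
  obtain ⟨q, ρ, hρ, hq⟩ : ∃ q ρ, ρ < 2 * r ∧ 2 * r * q + ρ = d + r :=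
    ⟨(d + r) / (2 * r), (d + r) % (2 * r), Nat.mod_lt _ (by omega), Nat.div_add_mod _ _⟩
  have hq1 : 1 ≤ q := by
    rcases Nat.eq_zero_or_pos q with h | h
    · subst h
      omega
    · exact h
  have h3 : (3 : ℕ) * r + 2 = (2 * 1 + 1) * r + 2 := by ring
  rw [h3]
  apply two_giants K r 1 q ρ d (by omega) le_rfl hq1
  · omega
  · have : (1 + 1) * r * q = 2 * r * q := by ring
    omega
  · rcases Nat.lt_or_ge q 2 with h | h
    · have : q = 1 := by omega
      subst this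
      have h1 : min ρ (r + 1) ≤ r + 1 := min_le_right _ _
      omega
    · obtain ⟨w, rfl⟩ := Nat.exists_eq_add_of_le h
      obtain ⟨t, rfl⟩ := Nat.exists_eq_add_of_le hr
      have h1 : min ρ (3 + t + 1) ≤ ρ := min_le_left _ _
      nlinarith [Nat.zero_le (t * w)]

/-- `s = 3`, `n = 8`, `d ≥ 10`. -/
theorem three_not8 (K : Type) [Field K] (d : ℕ) (hd : 10 ≤ d) :
    ¬ IsQuadratic K 8 d 3 := by
  rcases Nat.lt_or_ge d 11 with h | h
  · have : d = 10 := by omega
    subst this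
    exact two_giants K 2 1 2 4 10 (by omega) le_rfl (by omega) (by omega) (by omega) (by omega)
  obtain ⟨q, ρ, hρ, hq⟩ : ∃ q ρ, ρ < 4 ∧ 4 * q + ρ = d + 2 :=
    ⟨(d + 2) / 4, (d + 2) % 4, Nat.mod_lt _ (by omega), Nat.div_add_mod _ _⟩
  have := two_giants K 2 1 q ρ d (by omega) le_rfl (by omega) (by omega) (by omega)
    (by omega)
  exact this

/-- `s = 3`, `n = 12`, `d ≥ 7`. -/
theorem three_not12 (K : Type) [Field K] (d : ℕ) (hd : 7 ≤ d) :
    ¬ IsQuadratic K 12 d 3 := by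
  rcases Nat.lt_or_ge d 8 with h | h
  · have : d = 7 := by omega
    subst this
    exact two_giants K 2 2 1 5 7 (by omega) (by omega) (by omega) (by omega) (by omega) (by omega)
  obtain ⟨q, ρ, hρ, hq⟩ : ∃ q ρ, ρ < 6 ∧ 6 * q + ρ = d + 4 :=
    ⟨(d + 4) / 6, (d + 4) % 6, Nat.mod_lt _ (by omega), Nat.div_add_mod _ _⟩
  have := two_giants K 2 2 q ρ d (by omega) (by omega) (by omega) (by omega) (by omega)
    (by omega)
  exact this

end Pool.Agent.Helper46.PV
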