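import Pool.Agent.Helper46.PV.K

set_option autoImplicit false
set_option linter.unusedSectionVars false

/-!
Non-quadratic algebras in `3 s` variables of degree `s + e` from three by three tables of
weights.
-/

namespace Pool.Agent.Helper46.PV

open Pool.Agent.Helper857.PV MvPolynomial

section rigid
variable {n d s : ℕ}

/-- three factors of a monomial with `3 s` variables have disjoint supports -/
lemma disj3 (hn : n = 3 * s) (u : Fin n → ℕ) (hu : ∀ i, u i ≠ 0) (a b c : Gen n d s)
    (h : ∀ i, a.1 i + b.1 i + c.1 i = u i) (i : Fin n) :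
    (a.1 i = u i ∧ b.1 i = 0 ∧ c.1 i = 0) ∨ (a.1 i = 0 ∧ b.1 i = u i ∧ c.1 i = 0) ∨
      (a.1 i = 0 ∧ b.1 i = 0 ∧ c.1 i = u i) := by
  have key : ∀ g : Gen n d s, (Finset.univ.filter (fun i => g.1 i ≠ 0)).card
      = ∑ i, if g.1 i ≠ 0 then 1 else 0 := fun g => by rw [Finset.card_filter]
  have ha := a.2.2
  have hb := b.2.2
  have hc := c.2.2
  rw [key a] at ha
  rw [key b] at hb
  rw [key c] at hc
  have hle : ∑ i, ((if a.1 i ≠ 0 then 1 else 0) + (if b.1 i ≠ 0 then 1 else 0)
      + (if c.1 i ≠ 0 then 1 else 0)) ≤ ∑ _i : Fin n, 1 := by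
    rw [Finset.sum_add_distrib, Finset.sum_add_distrib, Finset.sum_const, Finset.card_univ,
      Fintype.card_fin]
    simp only [smul_eq_mul]
    omega
  have hge : ∀ i ∈ (Finset.univ : Finset (Fin n)), 1 ≤ ((if a.1 i ≠ 0 then 1 else 0)
      + (if b.1 i ≠ 0 then 1 else 0) + (if c.1 i ≠ 0 then 1 else 0)) := by
    intro j _
    have h1 := h j
    have h2 := hu j
    split_ifs <;> omega
  have heq := (Finset.sum_eq_sum_iff_of_le hge).mp (le_antisymm (Finset.sum_le_sum hge) hle)
  have h1 := heq i (Finset.mem_univ i)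
  have h2 := h i
  have h3 := hu i
  by_cases ha0 : a.1 i = 0 <;> by_cases hb0 : b.1 i = 0 <;> by_cases hc0 : c.1 i = 0 <;>
    simp [ha0, hb0, hc0] at h1 h2 ⊢ <;> omega

end rigid

section table
variable {s e : ℕ}

/-- the ambient monomial -/
def tu (s : ℕ) (w : Fin 9 → ℕ) : Fin 9 ⊕ (Fin 3 × Fin (s - 3)) → ℕ :=
  Sum.elim (fun i => w i + 1) (fun _ => 1)

/-- the part of an assignment of the nine large variables -/
def tb (s : ℕ) (w : Fin 9 → ℕ) (f : Fin 9 → Fin 3) (j : Fin 3) :
    Fin 9 ⊕ (Fin 3 × Fin (s - 3)) → ℕ :=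
  Sum.elim (fun i => if f i = j then w i + 1 else 0) (fun p => if p.1 = j then 1 else 0)

/-- row and column assignments -/
def rowf : Fin 9 → Fin 3 := ![0, 0, 0, 1, 1, 1, 2, 2, 2]
def colf : Fin 9 → Fin 3 := ![0, 1, 2, 2, 1, 0, 2, 1, 0]

lemma sum9 (w : Fin 9 → ℕ) : ∑ i, w i = w 0 + w 1 + w 2 + w 3 + w 4 + w 5 + w 6 + w 7 + w 8 := by
  simp only [Fin.sum_univ_succ, Fin.sum_univ_zero]
  simp
  omega

lemma card_rowf (j : Fin 3) : (Finset.univ.filter (fun i => rowf i = j)).card = 3 := by
  revert j; decide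

lemma card_colf (j : Fin 3) : (Finset.univ.filter (fun i => colf i = j)).card = 3 := by
  revert j; decide

theorem table_not (K : Type) [Field K] (s e : ℕ) (hs : 3 ≤ s) (w : Fin 9 → ℕ)
    (D : Finset (Fin 9) → Prop) (hw : ∑ i, w i = 3 * e)
    (hrow : ∀ j, ∑ i, (if rowf i = j then w i else 0) = e)
    (hcol : ∀ j, ∑ i, (if colf i = j then w i else 0) = e)
    (hD : ∀ H H' : Finset (Fin 9), Disjoint H H' → ∑ i ∈ H, w i = e → ∑ i ∈ H', w i = e →
      D H → D H')
    (h1 : ∀ j, D (Finset.univ.filter (fun i => colf i = j)))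
    (h2 : ¬ D (Finset.univ.filter (fun i => rowf i = 0))) :
    ¬ IsQuadratic K (3 * s) (s + e) s := by
  classical
  let ι : Type := Fin 9 ⊕ (Fin 3 × Fin (s - 3))
  let E : Fin (3 * s) ≃ ι := Fintype.equivOfCardEq (by
    rw [Fintype.card_fin, Fintype.card_sum, Fintype.card_prod, Fintype.card_fin,
      Fintype.card_fin, Fintype.card_fin]
    omega)
  let u : Fin (3 * s) → ℕ := fun t => tu s w (E t)
  have hu : ∀ t, u t ≠ 0 := by
    intro t
    show tu s w (E t) ≠ 0
    unfold tu
    rcases E t with i | p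
    · simp
    · simp
  let H : Gen (3 * s) (s + e) s → Finset (Fin 9) := fun g =>
    Finset.univ.filter (fun i : Fin 9 => g.1 (E.symm (Sum.inl i)) ≠ 0)
  have hcount : ∀ a : Gen (3 * s) (s + e) s, (∀ t, a.1 t = u t ∨ a.1 t = 0) →
      e ≤ ∑ i ∈ H a, w i := by
    intro a ha
    have k1 := a.2.1
    have k2 := a.2.2
    have k3 : ∑ t, a.1 t = (∑ t, if a.1 t ≠ 0 then 1 else 0)
        + ∑ t, (if a.1 t ≠ 0 then Sum.elim w (fun _ => 0) (E t) else 0) := by
      rw [← Finset.sum_add_distrib]
      apply Finset.sum_congr rfl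
      intro t _
      rcases ha t with h | h
      · rw [if_pos (by rw [h]; exact hu t), if_pos (by rw [h]; exact hu t), h]
        show tu s w (E t) = _
        unfold tu
        rcases E t with i | p
        · simp only [Sum.elim_inl]; omega
        · simp only [Sum.elim_inr]
      · rw [h]; simp
    have k4 : ∑ t, (if a.1 t ≠ 0 then Sum.elim w (fun _ => 0) (E t) else 0)
        = ∑ i ∈ H a, w i := by
      have k5 : ∑ t, (if a.1 t ≠ 0 then Sum.elim w (fun _ => 0) (E t) else 0)
          = ∑ z : ι, (if a.1 (E.symm z) ≠ 0 then Sum.elim w (fun _ => 0) z else 0) := by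
        rw [← Equiv.sum_comp E]
        apply Finset.sum_congr rfl
        intro t _
        rw [Equiv.symm_apply_apply]
      rw [k5, Fintype.sum_sum_type]
      have k6 : ∑ p : Fin 3 × Fin (s - 3), (if a.1 (E.symm (Sum.inr p)) ≠ 0 then
          Sum.elim w (fun _ => 0) (Sum.inr p : ι) else 0) = 0 := by
        apply Finset.sum_eq_zero
        intro p _
        simp
      rw [k6, add_zero]
      show _ = ∑ i ∈ Finset.univ.filter (fun i : Fin 9 => a.1 (E.symm (Sum.inl i)) ≠ 0), w i
      rw [Finset.sum_filter]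
      rfl
    rw [Finset.card_filter] at k2
    omega
  -- rigidity
  have hrig : ∀ a b c : Gen (3 * s) (s + e) s, (∀ t, a.1 t + b.1 t + c.1 t = u t) →
      Disjoint (H a) (H b) ∧ ∑ i ∈ H a, w i = e ∧ ∑ i ∈ H b, w i = e := by
    intro a b c h
    have hd := disj3 rfl u hu a b c h
    have e1 := hcount a (fun t => by rcases hd t with h | h | h <;> simp [h.1])
    have e2 := hcount b (fun t => by rcases hd t with h | h | h <;> simp [h.2.1])
    have e3 := hcount c (fun t => by rcases hd t with h | h | h <;> simp [h.2.2])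
    have e4 : ∑ i ∈ H a, w i + ∑ i ∈ H b, w i + ∑ i ∈ H c, w i = ∑ i, w i := by
      show ∑ i ∈ Finset.univ.filter (fun i : Fin 9 => a.1 (E.symm (Sum.inl i)) ≠ 0), w i
        + ∑ i ∈ Finset.univ.filter (fun i : Fin 9 => b.1 (E.symm (Sum.inl i)) ≠ 0), w i
        + ∑ i ∈ Finset.univ.filter (fun i : Fin 9 => c.1 (E.symm (Sum.inl i)) ≠ 0), w i = _
      rw [Finset.sum_filter, Finset.sum_filter, Finset.sum_filter, ← Finset.sum_add_distrib,
        ← Finset.sum_add_distrib]
      apply Finset.sum_congr rfl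
      intro i _
      have := hu (E.symm (Sum.inl i))
      rcases hd (E.symm (Sum.inl i)) with ⟨h1, h2, h3⟩ | ⟨h1, h2, h3⟩ | ⟨h1, h2, h3⟩ <;>
        simp [h1, h2, h3, this]
    refine ⟨?_, by omega, by omega⟩
    rw [Finset.disjoint_left]
    intro i hi hj
    have hi' : a.1 (E.symm (Sum.inl i)) ≠ 0 := (Finset.mem_filter.mp hi).2
    have hj' : b.1 (E.symm (Sum.inl i)) ≠ 0 := (Finset.mem_filter.mp hj).2
    rcases hd (E.symm (Sum.inl i)) with h | h | h
    · exact hj' h.2.1
    · exact hi' h.1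
    · exact hi' h.1
  -- bins of an assignment
  have hex : ∀ (f : Fin 9 → Fin 3), (∀ j, (Finset.univ.filter (fun i => f i = j)).card = 3) →
      (∀ j, ∑ i, (if f i = j then w i else 0) = e) → ∀ j,
      ∃ g : Gen (3 * s) (s + e) s, g.1 = fun t => tb s w f j (E t) := by
    intro f hf hfe j
    let F : Finset ι := (Finset.univ.filter (fun i => f i = j)).map ⟨Sum.inl, Sum.inl_injective⟩
      ∪ (Finset.univ : Finset (Fin (s - 3))).map
        ⟨fun i => (Sum.inr (j, i) : ι), fun _ _ h => (Prod.mk.inj (Sum.inr.inj h)).2⟩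
    have hF : F.card ≤ s := by
      refine le_trans (Finset.card_union_le _ _) ?_
      rw [Finset.card_map, Finset.card_map, Finset.card_univ, Fintype.card_fin, hf]
      omega
    apply mk_gen _ _ (F.map E.symm.toEmbedding)
    · rw [Finset.card_map]; exact hF
    · intro t ht
      rw [Finset.mem_map_equiv, Equiv.symm_symm] at ht
      show tb s w f j (E t) = 0
      generalize E t = z at ht
      rcases z with i | p
      · show (if f i = j then w i + 1 else 0) = 0
        rw [if_neg]
        intro hi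
        apply ht
        apply Finset.mem_union_left
        rw [Finset.mem_map]
        exact ⟨i, Finset.mem_filter.mpr ⟨Finset.mem_univ _, hi⟩, rfl⟩
      · show (if p.1 = j then 1 else 0) = 0
        rw [if_neg]
        intro hp
        apply ht
        apply Finset.mem_union_right
        rw [Finset.mem_map]
        exact ⟨p.2, Finset.mem_univ _, by
          show (Sum.inr (j, p.2) : ι) = Sum.inr p
          rw [← hp]⟩
    · rw [Equiv.sum_comp E (tb s w f j), Fintype.sum_sum_type]
      have k1 : ∑ i : Fin 9, tb s w f j (Sum.inl i) = e + 3 := by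
        show ∑ i : Fin 9, (if f i = j then w i + 1 else 0) = e + 3
        have k3 := hf j
        rw [Finset.card_filter] at k3
        have k4 := hfe j
        have k5 : ∑ i : Fin 9, (if f i = j then w i + 1 else 0)
            = ∑ i : Fin 9, (if f i = j then w i else 0) + ∑ i : Fin 9, (if f i = j then 1 else 0) := by
          rw [← Finset.sum_add_distrib]
          apply Finset.sum_congr rfl
          intro i _
          split_ifs <;> rfl
        rw [k5, k4, k3]
      have k2 : ∑ p : Fin 3 × Fin (s - 3), tb s w f j (Sum.inr p) = s - 3 := by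
        show ∑ p : Fin 3 × Fin (s - 3), (if p.1 = j then 1 else 0) = s - 3
        rw [Fintype.sum_prod_type, Finset.sum_eq_single j]
        · simp
        · intro j' _ hj'
          simp [hj']
        · intro h; exact absurd (Finset.mem_univ _) h
      rw [k1, k2]
      omega
  choose rb hrb using hex rowf card_rowf hrow
  choose cb hcb using hex colf card_colf hcol
  have hH : ∀ (f : Fin 9 → Fin 3) (j : Fin 3) (g : Gen (3 * s) (s + e) s),
      (g.1 = fun t => tb s w f j (E t)) → H g = Finset.univ.filter (fun i => f i = j) := by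
    intro f j g hg
    show Finset.univ.filter (fun i : Fin 9 => g.1 (E.symm (Sum.inl i)) ≠ 0) = _
    apply Finset.filter_congr
    intro i _
    rw [hg]
    show tb s w f j (E (E.symm (Sum.inl i))) ≠ 0 ↔ _
    rw [Equiv.apply_symm_apply]
    show (if f i = j then w i + 1 else 0) ≠ 0 ↔ _
    split_ifs with h
    · simp [h]
    · simp [h]
  have hWf : ∀ (f : Fin 9 → Fin 3) (g : Fin 3 → Gen (3 * s) (s + e) s),
      (∀ j, (g j).1 = fun t => tb s w f j (E t)) →
      W (g 0 ::ₘ g 1 ::ₘ g 2 ::ₘ 0) = u := by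
    intro f g hg
    funext t
    rw [W3, hg 0, hg 1, hg 2]
    show tb s w f 0 (E t) + tb s w f 1 (E t) + tb s w f 2 (E t) = tu s w (E t)
    generalize E t = z
    rcases z with i | p
    · show (if f i = 0 then w i + 1 else 0) + (if f i = 1 then w i + 1 else 0)
        + (if f i = 2 then w i + 1 else 0) = w i + 1
      generalize f i = j
      fin_cases j <;> simp
    · show (if p.1 = 0 then 1 else 0) + (if p.1 = 1 then 1 else 0)
        + (if p.1 = 2 then 1 else 0) = 1
      generalize p.1 = j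
      fin_cases j <;> simp
  refine not_quad_of_class K (fun S => S.card = 3 ∧ W S = u ∧ ∀ g ∈ S, D (H g)) ?_
    (cb 0 ::ₘ cb 1 ::ₘ cb 2 ::ₘ 0) (rb 0 ::ₘ rb 1 ::ₘ rb 2 ::ₘ 0) ?_ ?_ ?_
  · intro A a b a' b' hab hS
    obtain ⟨hc, hW, hDS⟩ := hS
    have hA : A.card = 1 := by
      rw [Multiset.card_cons, Multiset.card_cons] at hc; omega
    obtain ⟨c, rfl⟩ := Multiset.card_eq_one.mp hA
    have hW' : W (a' ::ₘ b' ::ₘ ({c} : Multiset _)) = u := by
      rw [← hW, W_cons, W_cons, W_cons, W_cons, ← add_assoc, ← add_assoc, hab]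
    have hsum' : ∀ t, a'.1 t + b'.1 t + c.1 t = u t := by
      intro t
      rw [← hW', ← W3]; rfl
    have hDc : D (H c) := hDS c (by simp)
    refine ⟨by rw [Multiset.card_cons, Multiset.card_cons, Multiset.card_singleton], hW', ?_⟩
    have p1 := hrig c a' b' (fun t => by have := hsum' t; omega)
    have p2 := hrig c b' a' (fun t => by have := hsum' t; omega)
    intro g hg
    rw [Multiset.mem_cons, Multiset.mem_cons, Multiset.mem_singleton] at hg
    rcases hg with rfl | rfl | rfl
    · exact hD _ _ p1.1 p1.2.1 p1.2.2 hDc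
    · exact hD _ _ p2.1 p2.2.1 p2.2.2 hDc
    · exact hDc
  · rw [hWf colf cb hcb, hWf rowf rb hrb]
  · refine ⟨rfl, hWf colf cb hcb, ?_⟩
    intro g hg
    rw [Multiset.mem_cons, Multiset.mem_cons, Multiset.mem_cons] at hg
    rcases hg with rfl | rfl | rfl | hg
    · rw [hH colf 0 _ (hcb 0)]; exact h1 0
    · rw [hH colf 1 _ (hcb 1)]; exact h1 1
    · rw [hH colf 2 _ (hcb 2)]; exact h1 2
    · exact absurd hg (Multiset.notMem_zero _)
  · rintro ⟨_, _, h⟩
    apply h2
    rw [← hH rowf 0 _ (hrb 0)]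
    exact h _ (Multiset.mem_cons_self _ _)

end table

end Pool.Agent.Helper46.PV
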