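import Pool.Agent.Helper46.PV.L

set_option autoImplicit false
set_option linter.unusedSectionVars false

/-!
The tables for `e ≥ 12`.
-/

namespace Pool.Agent.Helper46.PV

open Pool.Agent.Helper857.PV MvPolynomial

lemma of_x (H : Finset (Fin 9)) (f : Fin 9 → Fin 3) (j : Fin 3)
    (h : ∀ i, (if i ∈ H then 1 else 0 : ℕ) = (if f i = j then 1 else 0)) :
    H = Finset.univ.filter (fun i => f i = j) := by
  ext i
  rw [Finset.mem_filter]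
  have := h i
  by_cases h1 : i ∈ H <;> by_cases h2 : f i = j <;> simp [h1, h2] at this ⊢

lemma nine {P : Fin 9 → Prop} (h0 : P 0) (h1 : P 1) (h2 : P 2) (h3 : P 3) (h4 : P 4) (h5 : P 5)
    (h6 : P 6) (h7 : P 7) (h8 : P 8) : ∀ i, P i := by
  intro i
  fin_cases i <;> assumption

/-- the bookkeeping: pass to indicator vectors -/
lemma tab_aux (w : Fin 9 → ℕ) (e : ℕ) (fs : Finset (Fin 9 → Fin 3))
    (h : ∀ f ∈ fs, ∀ j : Fin 3, ∀ x : Fin 9 → ℕ, (∀ i, x i ≤ 1) → (∀ i, f i = j → x i = 0) →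
      x 0 * w 0 + x 1 * w 1 + x 2 * w 2 + x 3 * w 3 + x 4 * w 4 + x 5 * w 5 + x 6 * w 6
        + x 7 * w 7 + x 8 * w 8 = e →
      ∃ g ∈ fs, ∃ k : Fin 3, ∀ i, x i = if g i = k then 1 else 0)
    (H H' : Finset (Fin 9)) (hdis : Disjoint H H') (hs : ∑ i ∈ H', w i = e)
    (hH : ∃ f ∈ fs, ∃ j, H = Finset.univ.filter (fun i => f i = j)) :
    ∃ f ∈ fs, ∃ j, H' = Finset.univ.filter (fun i => f i = j) := by
  classical
  obtain ⟨f, hf, j, rfl⟩ := hH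
  obtain ⟨g, hg, k, hk⟩ := h f hf j (fun i => if i ∈ H' then 1 else 0)
    (fun i => by split_ifs <;> omega)
    (fun i hi => by
      rw [if_neg]
      intro hi'
      exact (Finset.disjoint_left.mp hdis) (Finset.mem_filter.mpr ⟨Finset.mem_univ _, hi⟩) hi')
    (by
      rw [← hs, ← sum9 (fun i => (if i ∈ H' then 1 else 0) * w i)]
      simp only [ite_mul, one_mul, zero_mul]
      rw [Finset.sum_ite_mem, Finset.univ_inter])
  exact ⟨g, hg, k, of_x H' g k hk⟩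

/-- `d = s + 12 + t`, `t ≥ 4` -/
def wT (t : ℕ) : Fin 9 → ℕ := ![6 + t, 4, 2, 5 + t, 4, 3, 5, 4 + t, 3]

lemma big_table (K : Type) [Field K] (s t : ℕ) (hs : 3 ≤ s) (ht : 4 ≤ t) :
    ¬ IsQuadratic K (3 * s) (s + (12 + t)) s := by
  apply table_not K s (12 + t) hs (wT t)
    (fun H => ∃ f ∈ ({colf} : Finset (Fin 9 → Fin 3)), ∃ j, H = Finset.univ.filter (fun i => f i = j))
  · rw [sum9]
    show (6 + t) + 4 + 2 + (5 + t) + 4 + 3 + 5 + (4 + t) + 3 = _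
    ring
  · intro j
    rw [sum9]
    fin_cases j
    · show (6 + t) + 4 + 2 + 0 + 0 + 0 + 0 + 0 + 0 = _
      ring
    · show 0 + 0 + 0 + (5 + t) + 4 + 3 + 0 + 0 + 0 = _
      ring
    · show 0 + 0 + 0 + 0 + 0 + 0 + 5 + (4 + t) + 3 = _
      ring
  · intro j
    rw [sum9]
    fin_cases j
    · show (6 + t) + 0 + 0 + 0 + 0 + 3 + 0 + 0 + 3 = _
      ring
    · show 0 + 4 + 0 + 0 + 4 + 0 + 0 + (4 + t) + 0 = _
      ring
    · show 0 + 0 + 2 + (5 + t) + 0 + 0 + 5 + 0 + 0 = _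
      ring
  · intro H H' hdis _ hs' hH
    refine tab_aux (wT t) (12 + t) {colf} ?_ H H' hdis hs' hH
    intro f hf j x hx h0 hsum
    rw [Finset.mem_singleton] at hf
    subst hf
    refine ⟨colf, Finset.mem_singleton_self _, ?_⟩
    have b0 := hx 0
    have b1 := hx 1
    have b2 := hx 2
    have b3 := hx 3
    have b4 := hx 4
    have b5 := hx 5
    have b6 := hx 6
    have b7 := hx 7
    have b8 := hx 8
    change x 0 * (6 + t) + x 1 * 4 + x 2 * 2 + x 3 * (5 + t) + x 4 * 4 + x 5 * 3 + x 6 * 5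
        + x 7 * (4 + t) + x 8 * 3 = 12 + t at hsum
    fin_cases j
    · have z0 := h0 0 rfl
      have z5 := h0 5 rfl
      have z8 := h0 8 rfl
      rcases (by omega : x 3 = 0 ∨ x 3 = 1) with e3 | e3 <;>
      rcases (by omega : x 7 = 0 ∨ x 7 = 1) with e7 | e7
      · rw [z0, e3, e7, z5, z8] at hsum; omega
      · refine ⟨1, nine z0 ?_ ?_ e3 ?_ z5 ?_ e7 z8⟩ <;>
          · rw [z0, e3, e7, z5, z8] at hsum
            first | (show _ = 1; omega) | (show _ = 0; omega)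
      · refine ⟨2, nine z0 ?_ ?_ e3 ?_ z5 ?_ e7 z8⟩ <;>
          · rw [z0, e3, e7, z5, z8] at hsum
            first | (show _ = 1; omega) | (show _ = 0; omega)
      · rw [z0, e3, e7, z5, z8] at hsum; omega
    · have z1 := h0 1 rfl
      have z4 := h0 4 rfl
      have z7 := h0 7 rfl
      rcases (by omega : x 0 = 0 ∨ x 0 = 1) with e0 | e0 <;>
      rcases (by omega : x 3 = 0 ∨ x 3 = 1) with e3 | e3
      · rw [z1, e3, e0, z4, z7] at hsum; omega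
      · refine ⟨2, nine e0 z1 ?_ e3 z4 ?_ ?_ z7 ?_⟩ <;>
          · rw [z1, e3, e0, z4, z7] at hsum
            first | (show _ = 1; omega) | (show _ = 0; omega)
      · refine ⟨0, nine e0 z1 ?_ e3 z4 ?_ ?_ z7 ?_⟩ <;>
          · rw [z1, e3, e0, z4, z7] at hsum
            first | (show _ = 1; omega) | (show _ = 0; omega)
      · rw [z1, e3, e0, z4, z7] at hsum; omega
    · have z2 := h0 2 rfl
      have z3 := h0 3 rfl
      have z6 := h0 6 rfl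
      rcases (by omega : x 0 = 0 ∨ x 0 = 1) with e0 | e0 <;>
      rcases (by omega : x 7 = 0 ∨ x 7 = 1) with e7 | e7
      · rw [z2, z3, z6, e0, e7] at hsum; omega
      · refine ⟨1, nine e0 ?_ z2 z3 ?_ ?_ z6 e7 ?_⟩ <;>
          · rw [z2, z3, z6, e0, e7] at hsum
            first | (show _ = 1; omega) | (show _ = 0; omega)
      · refine ⟨0, nine e0 ?_ z2 z3 ?_ ?_ z6 e7 ?_⟩ <;>
          · rw [z2, z3, z6, e0, e7] at hsum
            first | (show _ = 1; omega) | (show _ = 0; omega)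
      · rw [z2, z3, z6, e0, e7] at hsum; omega
  · intro j
    exact ⟨colf, Finset.mem_singleton_self _, j, rfl⟩
  · rintro ⟨f, hf, j, hj⟩
    rw [Finset.mem_singleton] at hf
    subst hf
    revert hj
    revert j
    decide

def colg : Fin 9 → Fin 3 := ![0, 1, 2, 2, 1, 0, 1, 2, 0]

set_option maxHeartbeats 4000000 in
lemma table12 (K : Type) [Field K] (s : ℕ) (hs : 3 ≤ s) : ¬ IsQuadratic K (3 * s) (s + 12) s := by
  apply table_not K s 12 hs ![6, 4, 2, 5, 4, 3, 5, 4, 3]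
    (fun H => ∃ f ∈ ({colf} : Finset (Fin 9 → Fin 3)), ∃ j, H = Finset.univ.filter (fun i => f i = j))
  · rw [sum9]; rfl
  · intro j; rw [sum9]; fin_cases j <;> rfl
  · intro j; rw [sum9]; fin_cases j <;> rfl
  · intro H H' hdis _ hs' hH
    refine tab_aux _ 12 ({colf} : Finset (Fin 9 → Fin 3)) ?_ H H' hdis hs' hH
    intro f hf j x hx h0 hsum
    rw [Finset.mem_singleton] at hf
    subst hf
    have b0 := hx 0
    have b1 := hx 1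
    have b2 := hx 2
    have b3 := hx 3
    have b4 := hx 4
    have b5 := hx 5
    have b6 := hx 6
    have b7 := hx 7
    have b8 := hx 8
    change x 0 * 6 + x 1 * 4 + x 2 * 2 + x 3 * 5 + x 4 * 4 + x 5 * 3 + x 6 * 5 + x 7 * 4 + x 8 * 3 = 12 at hsum
    fin_cases j
    · have z0 := h0 0 rfl
      have z5 := h0 5 rfl
      have z8 := h0 8 rfl
      have hh : (x 1 = 0 ∧ x 2 = 1 ∧ x 3 = 1 ∧ x 4 = 0 ∧ x 6 = 1 ∧ x 7 = 0) ∨ (x 1 = 1 ∧ x 2 = 0 ∧ x 3 = 0 ∧ x 4 = 1 ∧ x 6 = 0 ∧ x 7 = 1) := by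
        rcases Nat.le_one_iff_eq_zero_or_eq_one.mp b1 with e1 | e1 <;> rcases Nat.le_one_iff_eq_zero_or_eq_one.mp b3 with e3 | e3 <;> rcases Nat.le_one_iff_eq_zero_or_eq_one.mp b4 with e4 | e4 <;> rcases Nat.le_one_iff_eq_zero_or_eq_one.mp b6 with e6 | e6 <;> omega
      rcases hh with ⟨z1, z2, z3, z4, z6, z7⟩ | ⟨z1, z2, z3, z4, z6, z7⟩
      · exact ⟨colf, Finset.mem_singleton_self _, 2, nine z0 z1 z2 z3 z4 z5 z6 z7 z8⟩
      · exact ⟨colf, Finset.mem_singleton_self _, 1, nine z0 z1 z2 z3 z4 z5 z6 z7 z8⟩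
    · have z1 := h0 1 rfl
      have z4 := h0 4 rfl
      have z7 := h0 7 rfl
      have hh : (x 0 = 0 ∧ x 2 = 1 ∧ x 3 = 1 ∧ x 5 = 0 ∧ x 6 = 1 ∧ x 8 = 0) ∨ (x 0 = 1 ∧ x 2 = 0 ∧ x 3 = 0 ∧ x 5 = 1 ∧ x 6 = 0 ∧ x 8 = 1) := by
        rcases Nat.le_one_iff_eq_zero_or_eq_one.mp b0 with e0 | e0 <;> rcases Nat.le_one_iff_eq_zero_or_eq_one.mp b3 with e3 | e3 <;> rcases Nat.le_one_iff_eq_zero_or_eq_one.mp b5 with e5 | e5 <;> rcases Nat.le_one_iff_eq_zero_or_eq_one.mp b6 with e6 | e6 <;> omega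
      rcases hh with ⟨z0, z2, z3, z5, z6, z8⟩ | ⟨z0, z2, z3, z5, z6, z8⟩
      · exact ⟨colf, Finset.mem_singleton_self _, 2, nine z0 z1 z2 z3 z4 z5 z6 z7 z8⟩
      · exact ⟨colf, Finset.mem_singleton_self _, 0, nine z0 z1 z2 z3 z4 z5 z6 z7 z8⟩
    · have z2 := h0 2 rfl
      have z3 := h0 3 rfl
      have z6 := h0 6 rfl
      have hh : (x 0 = 0 ∧ x 1 = 1 ∧ x 4 = 1 ∧ x 5 = 0 ∧ x 7 = 1 ∧ x 8 = 0) ∨ (x 0 = 1 ∧ x 1 = 0 ∧ x 4 = 0 ∧ x 5 = 1 ∧ x 7 = 0 ∧ x 8 = 1) := by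
        rcases Nat.le_one_iff_eq_zero_or_eq_one.mp b0 with e0 | e0 <;> rcases Nat.le_one_iff_eq_zero_or_eq_one.mp b1 with e1 | e1 <;> rcases Nat.le_one_iff_eq_zero_or_eq_one.mp b4 with e4 | e4 <;> rcases Nat.le_one_iff_eq_zero_or_eq_one.mp b7 with e7 | e7 <;> omega
      rcases hh with ⟨z0, z1, z4, z5, z7, z8⟩ | ⟨z0, z1, z4, z5, z7, z8⟩
      · exact ⟨colf, Finset.mem_singleton_self _, 1, nine z0 z1 z2 z3 z4 z5 z6 z7 z8⟩
      · exact ⟨colf, Finset.mem_singleton_self _, 0, nine z0 z1 z2 z3 z4 z5 z6 z7 z8⟩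
  · intro j
    exact ⟨colf, Finset.mem_singleton_self _, j, rfl⟩
  · rintro ⟨f, hf, j, hj⟩
    rw [Finset.mem_singleton] at hf
    subst hf
    revert hj
    revert j
    decide

set_option maxHeartbeats 4000000 in
lemma table13 (K : Type) [Field K] (s : ℕ) (hs : 3 ≤ s) : ¬ IsQuadratic K (3 * s) (s + 13) s := by
  apply table_not K s 13 hs ![9, 3, 1, 6, 5, 2, 6, 5, 2]
    (fun H => ∃ f ∈ ({colf} : Finset (Fin 9 → Fin 3)), ∃ j, H = Finset.univ.filter (fun i => f i = j))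
  · rw [sum9]; rfl
  · intro j; rw [sum9]; fin_cases j <;> rfl
  · intro j; rw [sum9]; fin_cases j <;> rfl
  · intro H H' hdis _ hs' hH
    refine tab_aux _ 13 ({colf} : Finset (Fin 9 → Fin 3)) ?_ H H' hdis hs' hH
    intro f hf j x hx h0 hsum
    rw [Finset.mem_singleton] at hf
    subst hf
    have b0 := hx 0
    have b1 := hx 1
    have b2 := hx 2
    have b3 := hx 3
    have b4 := hx 4
    have b5 := hx 5
    have b6 := hx 6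
    have b7 := hx 7
    have b8 := hx 8
    change x 0 * 9 + x 1 * 3 + x 2 * 1 + x 3 * 6 + x 4 * 5 + x 5 * 2 + x 6 * 6 + x 7 * 5 + x 8 * 2 = 13 at hsum
    fin_cases j
    · have z0 := h0 0 rfl
      have z5 := h0 5 rfl
      have z8 := h0 8 rfl
      have hh : (x 1 = 0 ∧ x 2 = 1 ∧ x 3 = 1 ∧ x 4 = 0 ∧ x 6 = 1 ∧ x 7 = 0) ∨ (x 1 = 1 ∧ x 2 = 0 ∧ x 3 = 0 ∧ x 4 = 1 ∧ x 6 = 0 ∧ x 7 = 1) := by
        rcases Nat.le_one_iff_eq_zero_or_eq_one.mp b3 with e3 | e3 <;> rcases Nat.le_one_iff_eq_zero_or_eq_one.mp b4 with e4 | e4 <;> rcases Nat.le_one_iff_eq_zero_or_eq_one.mp b6 with e6 | e6 <;> rcases Nat.le_one_iff_eq_zero_or_eq_one.mp b7 with e7 | e7 <;> omega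
      rcases hh with ⟨z1, z2, z3, z4, z6, z7⟩ | ⟨z1, z2, z3, z4, z6, z7⟩
      · exact ⟨colf, Finset.mem_singleton_self _, 2, nine z0 z1 z2 z3 z4 z5 z6 z7 z8⟩
      · exact ⟨colf, Finset.mem_singleton_self _, 1, nine z0 z1 z2 z3 z4 z5 z6 z7 z8⟩
    · have z1 := h0 1 rfl
      have z4 := h0 4 rfl
      have z7 := h0 7 rfl
      have hh : (x 0 = 0 ∧ x 2 = 1 ∧ x 3 = 1 ∧ x 5 = 0 ∧ x 6 = 1 ∧ x 8 = 0) ∨ (x 0 = 1 ∧ x 2 = 0 ∧ x 3 = 0 ∧ x 5 = 1 ∧ x 6 = 0 ∧ x 8 = 1) := by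
        rcases Nat.le_one_iff_eq_zero_or_eq_one.mp b0 with e0 | e0 <;> rcases Nat.le_one_iff_eq_zero_or_eq_one.mp b3 with e3 | e3 <;> rcases Nat.le_one_iff_eq_zero_or_eq_one.mp b5 with e5 | e5 <;> rcases Nat.le_one_iff_eq_zero_or_eq_one.mp b6 with e6 | e6 <;> omega
      rcases hh with ⟨z0, z2, z3, z5, z6, z8⟩ | ⟨z0, z2, z3, z5, z6, z8⟩
      · exact ⟨colf, Finset.mem_singleton_self _, 2, nine z0 z1 z2 z3 z4 z5 z6 z7 z8⟩
      · exact ⟨colf, Finset.mem_singleton_self _, 0, nine z0 z1 z2 z3 z4 z5 z6 z7 z8⟩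
    · have z2 := h0 2 rfl
      have z3 := h0 3 rfl
      have z6 := h0 6 rfl
      have hh : (x 0 = 0 ∧ x 1 = 1 ∧ x 4 = 1 ∧ x 5 = 0 ∧ x 7 = 1 ∧ x 8 = 0) ∨ (x 0 = 1 ∧ x 1 = 0 ∧ x 4 = 0 ∧ x 5 = 1 ∧ x 7 = 0 ∧ x 8 = 1) := by
        rcases Nat.le_one_iff_eq_zero_or_eq_one.mp b0 with e0 | e0 <;> rcases Nat.le_one_iff_eq_zero_or_eq_one.mp b1 with e1 | e1 <;> rcases Nat.le_one_iff_eq_zero_or_eq_one.mp b4 with e4 | e4 <;> rcases Nat.le_one_iff_eq_zero_or_eq_one.mp b7 with e7 | e7 <;> omega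
      rcases hh with ⟨z0, z1, z4, z5, z7, z8⟩ | ⟨z0, z1, z4, z5, z7, z8⟩
      · exact ⟨colf, Finset.mem_singleton_self _, 1, nine z0 z1 z2 z3 z4 z5 z6 z7 z8⟩
      · exact ⟨colf, Finset.mem_singleton_self _, 0, nine z0 z1 z2 z3 z4 z5 z6 z7 z8⟩
  · intro j
    exact ⟨colf, Finset.mem_singleton_self _, j, rfl⟩
  · rintro ⟨f, hf, j, hj⟩
    rw [Finset.mem_singleton] at hf
    subst hf
    revert hj
    revert j
    decide

set_option maxHeartbeats 4000000 in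
lemma table14 (K : Type) [Field K] (s : ℕ) (hs : 3 ≤ s) : ¬ IsQuadratic K (3 * s) (s + 14) s := by
  apply table_not K s 14 hs ![10, 3, 1, 7, 5, 2, 6, 6, 2]
    (fun H => ∃ f ∈ ({colf, colg} : Finset (Fin 9 → Fin 3)), ∃ j, H = Finset.univ.filter (fun i => f i = j))
  · rw [sum9]; rfl
  · intro j; rw [sum9]; fin_cases j <;> rfl
  · intro j; rw [sum9]; fin_cases j <;> rfl
  · intro H H' hdis _ hs' hH
    refine tab_aux _ 14 ({colf, colg} : Finset (Fin 9 → Fin 3)) ?_ H H' hdis hs' hH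
    intro f hf j x hx h0 hsum
    rw [Finset.mem_insert, Finset.mem_singleton] at hf
    have b0 := hx 0
    have b1 := hx 1
    have b2 := hx 2
    have b3 := hx 3
    have b4 := hx 4
    have b5 := hx 5
    have b6 := hx 6
    have b7 := hx 7
    have b8 := hx 8
    change x 0 * 10 + x 1 * 3 + x 2 * 1 + x 3 * 7 + x 4 * 5 + x 5 * 2 + x 6 * 6 + x 7 * 6 + x 8 * 2 = 14 at hsum
    rcases hf with rfl | rfl
    · fin_cases j
      · have z0 := h0 0 rfl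
        have z5 := h0 5 rfl
        have z8 := h0 8 rfl
        have hh : (x 1 = 0 ∧ x 2 = 1 ∧ x 3 = 1 ∧ x 4 = 0 ∧ x 6 = 1 ∧ x 7 = 0) ∨ (x 1 = 1 ∧ x 2 = 0 ∧ x 3 = 0 ∧ x 4 = 1 ∧ x 6 = 1 ∧ x 7 = 0) ∨ (x 1 = 0 ∧ x 2 = 1 ∧ x 3 = 1 ∧ x 4 = 0 ∧ x 6 = 0 ∧ x 7 = 1) ∨ (x 1 = 1 ∧ x 2 = 0 ∧ x 3 = 0 ∧ x 4 = 1 ∧ x 6 = 0 ∧ x 7 = 1) := by
          rcases Nat.le_one_iff_eq_zero_or_eq_one.mp b3 with e3 | e3 <;> rcases Nat.le_one_iff_eq_zero_or_eq_one.mp b4 with e4 | e4 <;> rcases Nat.le_one_iff_eq_zero_or_eq_one.mp b6 with e6 | e6 <;> rcases Nat.le_one_iff_eq_zero_or_eq_one.mp b7 with e7 | e7 <;> omega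
        rcases hh with ⟨z1, z2, z3, z4, z6, z7⟩ | ⟨z1, z2, z3, z4, z6, z7⟩ | ⟨z1, z2, z3, z4, z6, z7⟩ | ⟨z1, z2, z3, z4, z6, z7⟩
        · exact ⟨colf, Finset.mem_insert_self _ _, 2, nine z0 z1 z2 z3 z4 z5 z6 z7 z8⟩
        · exact ⟨colg, Finset.mem_insert_of_mem (Finset.mem_singleton_self _), 1, nine z0 z1 z2 z3 z4 z5 z6 z7 z8⟩
        · exact ⟨colg, Finset.mem_insert_of_mem (Finset.mem_singleton_self _), 2, nine z0 z1 z2 z3 z4 z5 z6 z7 z8⟩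
        · exact ⟨colf, Finset.mem_insert_self _ _, 1, nine z0 z1 z2 z3 z4 z5 z6 z7 z8⟩
      · have z1 := h0 1 rfl
        have z4 := h0 4 rfl
        have z7 := h0 7 rfl
        have hh : (x 0 = 0 ∧ x 2 = 1 ∧ x 3 = 1 ∧ x 5 = 0 ∧ x 6 = 1 ∧ x 8 = 0) ∨ (x 0 = 1 ∧ x 2 = 0 ∧ x 3 = 0 ∧ x 5 = 1 ∧ x 6 = 0 ∧ x 8 = 1) := by
          rcases Nat.le_one_iff_eq_zero_or_eq_one.mp b0 with e0 | e0 <;> rcases Nat.le_one_iff_eq_zero_or_eq_one.mp b3 with e3 | e3 <;> rcases Nat.le_one_iff_eq_zero_or_eq_one.mp b5 with e5 | e5 <;> rcases Nat.le_one_iff_eq_zero_or_eq_one.mp b6 with e6 | e6 <;> omega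
        rcases hh with ⟨z0, z2, z3, z5, z6, z8⟩ | ⟨z0, z2, z3, z5, z6, z8⟩
        · exact ⟨colf, Finset.mem_insert_self _ _, 2, nine z0 z1 z2 z3 z4 z5 z6 z7 z8⟩
        · exact ⟨colg, Finset.mem_insert_of_mem (Finset.mem_singleton_self _), 0, nine z0 z1 z2 z3 z4 z5 z6 z7 z8⟩
      · have z2 := h0 2 rfl
        have z3 := h0 3 rfl
        have z6 := h0 6 rfl
        have hh : (x 0 = 0 ∧ x 1 = 1 ∧ x 4 = 1 ∧ x 5 = 0 ∧ x 7 = 1 ∧ x 8 = 0) ∨ (x 0 = 1 ∧ x 1 = 0 ∧ x 4 = 0 ∧ x 5 = 1 ∧ x 7 = 0 ∧ x 8 = 1) := by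
          rcases Nat.le_one_iff_eq_zero_or_eq_one.mp b0 with e0 | e0 <;> rcases Nat.le_one_iff_eq_zero_or_eq_one.mp b1 with e1 | e1 <;> rcases Nat.le_one_iff_eq_zero_or_eq_one.mp b4 with e4 | e4 <;> rcases Nat.le_one_iff_eq_zero_or_eq_one.mp b7 with e7 | e7 <;> omega
        rcases hh with ⟨z0, z1, z4, z5, z7, z8⟩ | ⟨z0, z1, z4, z5, z7, z8⟩
        · exact ⟨colf, Finset.mem_insert_self _ _, 1, nine z0 z1 z2 z3 z4 z5 z6 z7 z8⟩
        · exact ⟨colg, Finset.mem_insert_of_mem (Finset.mem_singleton_self _), 0, nine z0 z1 z2 z3 z4 z5 z6 z7 z8⟩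
    · fin_cases j
      · have z0 := h0 0 rfl
        have z5 := h0 5 rfl
        have z8 := h0 8 rfl
        have hh : (x 1 = 0 ∧ x 2 = 1 ∧ x 3 = 1 ∧ x 4 = 0 ∧ x 6 = 1 ∧ x 7 = 0) ∨ (x 1 = 1 ∧ x 2 = 0 ∧ x 3 = 0 ∧ x 4 = 1 ∧ x 6 = 1 ∧ x 7 = 0) ∨ (x 1 = 0 ∧ x 2 = 1 ∧ x 3 = 1 ∧ x 4 = 0 ∧ x 6 = 0 ∧ x 7 = 1) ∨ (x 1 = 1 ∧ x 2 = 0 ∧ x 3 = 0 ∧ x 4 = 1 ∧ x 6 = 0 ∧ x 7 = 1) := by
          rcases Nat.le_one_iff_eq_zero_or_eq_one.mp b3 with e3 | e3 <;> rcases Nat.le_one_iff_eq_zero_or_eq_one.mp b4 with e4 | e4 <;> rcases Nat.le_one_iff_eq_zero_or_eq_one.mp b6 with e6 | e6 <;> rcases Nat.le_one_iff_eq_zero_or_eq_one.mp b7 with e7 | e7 <;> omega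
        rcases hh with ⟨z1, z2, z3, z4, z6, z7⟩ | ⟨z1, z2, z3, z4, z6, z7⟩ | ⟨z1, z2, z3, z4, z6, z7⟩ | ⟨z1, z2, z3, z4, z6, z7⟩
        · exact ⟨colf, Finset.mem_insert_self _ _, 2, nine z0 z1 z2 z3 z4 z5 z6 z7 z8⟩
        · exact ⟨colg, Finset.mem_insert_of_mem (Finset.mem_singleton_self _), 1, nine z0 z1 z2 z3 z4 z5 z6 z7 z8⟩
        · exact ⟨colg, Finset.mem_insert_of_mem (Finset.mem_singleton_self _), 2, nine z0 z1 z2 z3 z4 z5 z6 z7 z8⟩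
        · exact ⟨colf, Finset.mem_insert_self _ _, 1, nine z0 z1 z2 z3 z4 z5 z6 z7 z8⟩
      · have z1 := h0 1 rfl
        have z4 := h0 4 rfl
        have z6 := h0 6 rfl
        have hh : (x 0 = 0 ∧ x 2 = 1 ∧ x 3 = 1 ∧ x 5 = 0 ∧ x 7 = 1 ∧ x 8 = 0) ∨ (x 0 = 1 ∧ x 2 = 0 ∧ x 3 = 0 ∧ x 5 = 1 ∧ x 7 = 0 ∧ x 8 = 1) := by
          rcases Nat.le_one_iff_eq_zero_or_eq_one.mp b0 with e0 | e0 <;> rcases Nat.le_one_iff_eq_zero_or_eq_one.mp b3 with e3 | e3 <;> rcases Nat.le_one_iff_eq_zero_or_eq_one.mp b5 with e5 | e5 <;> rcases Nat.le_one_iff_eq_zero_or_eq_one.mp b7 with e7 | e7 <;> omega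
        rcases hh with ⟨z0, z2, z3, z5, z7, z8⟩ | ⟨z0, z2, z3, z5, z7, z8⟩
        · exact ⟨colg, Finset.mem_insert_of_mem (Finset.mem_singleton_self _), 2, nine z0 z1 z2 z3 z4 z5 z6 z7 z8⟩
        · exact ⟨colg, Finset.mem_insert_of_mem (Finset.mem_singleton_self _), 0, nine z0 z1 z2 z3 z4 z5 z6 z7 z8⟩
      · have z2 := h0 2 rfl
        have z3 := h0 3 rfl
        have z7 := h0 7 rfl
        have hh : (x 0 = 0 ∧ x 1 = 1 ∧ x 4 = 1 ∧ x 5 = 0 ∧ x 6 = 1 ∧ x 8 = 0) ∨ (x 0 = 1 ∧ x 1 = 0 ∧ x 4 = 0 ∧ x 5 = 1 ∧ x 6 = 0 ∧ x 8 = 1) := by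
          rcases Nat.le_one_iff_eq_zero_or_eq_one.mp b0 with e0 | e0 <;> rcases Nat.le_one_iff_eq_zero_or_eq_one.mp b1 with e1 | e1 <;> rcases Nat.le_one_iff_eq_zero_or_eq_one.mp b4 with e4 | e4 <;> rcases Nat.le_one_iff_eq_zero_or_eq_one.mp b6 with e6 | e6 <;> omega
        rcases hh with ⟨z0, z1, z4, z5, z6, z8⟩ | ⟨z0, z1, z4, z5, z6, z8⟩
        · exact ⟨colg, Finset.mem_insert_of_mem (Finset.mem_singleton_self _), 1, nine z0 z1 z2 z3 z4 z5 z6 z7 z8⟩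
        · exact ⟨colg, Finset.mem_insert_of_mem (Finset.mem_singleton_self _), 0, nine z0 z1 z2 z3 z4 z5 z6 z7 z8⟩
  · intro j
    exact ⟨colf, Finset.mem_insert_self _ _, j, rfl⟩
  · rintro ⟨f, hf, j, hj⟩
    rw [Finset.mem_insert, Finset.mem_singleton] at hf
    rcases hf with rfl | rfl
    · revert hj
      revert j
      decide
    · revert hj
      revert j
      decide

set_option maxHeartbeats 4000000 in
lemma table15 (K : Type) [Field K] (s : ℕ) (hs : 3 ≤ s) : ¬ IsQuadratic K (3 * s) (s + 15) s := by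
  apply table_not K s 15 hs ![11, 3, 1, 7, 6, 2, 7, 6, 2]
    (fun H => ∃ f ∈ ({colf} : Finset (Fin 9 → Fin 3)), ∃ j, H = Finset.univ.filter (fun i => f i = j))
  · rw [sum9]; rfl
  · intro j; rw [sum9]; fin_cases j <;> rfl
  · intro j; rw [sum9]; fin_cases j <;> rfl
  · intro H H' hdis _ hs' hH
    refine tab_aux _ 15 ({colf} : Finset (Fin 9 → Fin 3)) ?_ H H' hdis hs' hH
    intro f hf j x hx h0 hsum
    rw [Finset.mem_singleton] at hf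
    subst hf
    have b0 := hx 0
    have b1 := hx 1
    have b2 := hx 2
    have b3 := hx 3
    have b4 := hx 4
    have b5 := hx 5
    have b6 := hx 6
    have b7 := hx 7
    have b8 := hx 8
    change x 0 * 11 + x 1 * 3 + x 2 * 1 + x 3 * 7 + x 4 * 6 + x 5 * 2 + x 6 * 7 + x 7 * 6 + x 8 * 2 = 15 at hsum
    fin_cases j
    · have z0 := h0 0 rfl
      have z5 := h0 5 rfl
      have z8 := h0 8 rfl
      have hh : (x 1 = 0 ∧ x 2 = 1 ∧ x 3 = 1 ∧ x 4 = 0 ∧ x 6 = 1 ∧ x 7 = 0) ∨ (x 1 = 1 ∧ x 2 = 0 ∧ x 3 = 0 ∧ x 4 = 1 ∧ x 6 = 0 ∧ x 7 = 1) := by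
        rcases Nat.le_one_iff_eq_zero_or_eq_one.mp b3 with e3 | e3 <;> rcases Nat.le_one_iff_eq_zero_or_eq_one.mp b4 with e4 | e4 <;> rcases Nat.le_one_iff_eq_zero_or_eq_one.mp b6 with e6 | e6 <;> rcases Nat.le_one_iff_eq_zero_or_eq_one.mp b7 with e7 | e7 <;> omega
      rcases hh with ⟨z1, z2, z3, z4, z6, z7⟩ | ⟨z1, z2, z3, z4, z6, z7⟩
      · exact ⟨colf, Finset.mem_singleton_self _, 2, nine z0 z1 z2 z3 z4 z5 z6 z7 z8⟩
      · exact ⟨colf, Finset.mem_singleton_self _, 1, nine z0 z1 z2 z3 z4 z5 z6 z7 z8⟩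
    · have z1 := h0 1 rfl
      have z4 := h0 4 rfl
      have z7 := h0 7 rfl
      have hh : (x 0 = 0 ∧ x 2 = 1 ∧ x 3 = 1 ∧ x 5 = 0 ∧ x 6 = 1 ∧ x 8 = 0) ∨ (x 0 = 1 ∧ x 2 = 0 ∧ x 3 = 0 ∧ x 5 = 1 ∧ x 6 = 0 ∧ x 8 = 1) := by
        rcases Nat.le_one_iff_eq_zero_or_eq_one.mp b0 with e0 | e0 <;> rcases Nat.le_one_iff_eq_zero_or_eq_one.mp b3 with e3 | e3 <;> rcases Nat.le_one_iff_eq_zero_or_eq_one.mp b5 with e5 | e5 <;> rcases Nat.le_one_iff_eq_zero_or_eq_one.mp b6 with e6 | e6 <;> omega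
      rcases hh with ⟨z0, z2, z3, z5, z6, z8⟩ | ⟨z0, z2, z3, z5, z6, z8⟩
      · exact ⟨colf, Finset.mem_singleton_self _, 2, nine z0 z1 z2 z3 z4 z5 z6 z7 z8⟩
      · exact ⟨colf, Finset.mem_singleton_self _, 0, nine z0 z1 z2 z3 z4 z5 z6 z7 z8⟩
    · have z2 := h0 2 rfl
      have z3 := h0 3 rfl
      have z6 := h0 6 rfl
      have hh : (x 0 = 0 ∧ x 1 = 1 ∧ x 4 = 1 ∧ x 5 = 0 ∧ x 7 = 1 ∧ x 8 = 0) ∨ (x 0 = 1 ∧ x 1 = 0 ∧ x 4 = 0 ∧ x 5 = 1 ∧ x 7 = 0 ∧ x 8 = 1) := by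
        rcases Nat.le_one_iff_eq_zero_or_eq_one.mp b0 with e0 | e0 <;> rcases Nat.le_one_iff_eq_zero_or_eq_one.mp b1 with e1 | e1 <;> rcases Nat.le_one_iff_eq_zero_or_eq_one.mp b4 with e4 | e4 <;> rcases Nat.le_one_iff_eq_zero_or_eq_one.mp b7 with e7 | e7 <;> omega
      rcases hh with ⟨z0, z1, z4, z5, z7, z8⟩ | ⟨z0, z1, z4, z5, z7, z8⟩
      · exact ⟨colf, Finset.mem_singleton_self _, 1, nine z0 z1 z2 z3 z4 z5 z6 z7 z8⟩
      · exact ⟨colf, Finset.mem_singleton_self _, 0, nine z0 z1 z2 z3 z4 z5 z6 z7 z8⟩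
  · intro j
    exact ⟨colf, Finset.mem_singleton_self _, j, rfl⟩
  · rintro ⟨f, hf, j, hj⟩
    rw [Finset.mem_singleton] at hf
    subst hf
    revert hj
    revert j
    decide

/-- no quadratic presentation in `n ≥ 3 s` variables once `d ≥ s + 12` -/
theorem wide_not (K : Type) [Field K] (s d : ℕ) (hs : 3 ≤ s) (hd : s + 12 ≤ d) :
    ¬ IsQuadratic K (3 * s) d s := by
  obtain ⟨t, rfl⟩ := Nat.exists_eq_add_of_le hd
  rcases (by omega : t = 0 ∨ t = 1 ∨ t = 2 ∨ t = 3 ∨ 4 ≤ t) with rfl | rfl | rfl | rfl | h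
  · exact table12 K s hs
  · exact table13 K s hs
  · exact table14 K s hs
  · exact table15 K s hs
  · rw [add_assoc]
    exact big_table K s t hs h

end Pool.Agent.Helper46.PV
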